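import Mathlib

/-!
Positive semidefinite completions of partial matrices with unit diagonal, and chordal graphs.
-/

namespace Pool.Agent.Lib.MP_13b08e_lc

/-- `X` is a positive semidefinite completion of `x ∈ ℚ^E`: a real positive semidefinite matrix with
unit diagonal and with entry `x_ij` at every edge `ij` of `G`. -/
structure IsCompletion {V : Type} (G : SimpleGraph V) (x : G.edgeSet → ℚ)
    (X : Matrix V V ℝ) : Prop where
  psd : X.PosSemidef
  diag : ∀ i, X i i = 1
  edge : ∀ (i j : V) (h : G.Adj i j), X i j = x ⟨s(i, j), h⟩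

/-- `x` belongs to the elliptope of `G`. -/
def InElliptope {V : Type} (G : SimpleGraph V) (x : G.edgeSet → ℚ) : Prop :=
  ∃ X : Matrix V V ℝ, IsCompletion G x X

/-- A graph is chordal if it has no induced cycle of length at least four. -/
def IsChordal {V : Type} (G : SimpleGraph V) : Prop :=
  ∀ n : ℕ, 4 ≤ n → IsEmpty (SimpleGraph.cycleGraph n ↪g G)

/-- A perfect elimination ordering makes a graph chordal. -/
theorem isChordal_of_order {V : Type} (G : SimpleGraph V) (ord : V → ℕ)
    (hinj : Function.Injective ord)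
    (h : ∀ v a b, G.Adj v a → G.Adj v b → ord v < ord a → ord v < ord b → a ≠ b → G.Adj a b) :
    IsChordal G := by
  intro n hn
  refine ⟨fun f => ?_⟩
  obtain ⟨m, rfl⟩ : ∃ m, n = m + 4 := ⟨n - 4, by omega⟩
  obtain ⟨i, -, hi⟩ := Finset.exists_min_image (Finset.univ : Finset (Fin (m + 4)))
    (fun i => ord (f i)) ⟨0, Finset.mem_univ _⟩
  have hlt : ∀ j, j ≠ i → ord (f i) < ord (f j) := fun j hj =>
    lt_of_le_of_ne (hi j (Finset.mem_univ _)) fun he => hj (f.injective (hinj he)).symm
  have h1 : (SimpleGraph.cycleGraph (m + 4)).Adj i (i + 1) := by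
    rw [SimpleGraph.cycleGraph_adj]
    right
    simp
  have h2 : (SimpleGraph.cycleGraph (m + 4)).Adj i (i - 1) := by
    rw [SimpleGraph.cycleGraph_adj]
    left
    simp
  have h3 : i + 1 ≠ i - 1 := by
    intro he
    have h4 : (1 : Fin (m + 4)) + 1 = 0 := by
      have : i + 1 - (i - 1) = 0 := by rw [he]; simp
      rw [← this]
      abel
    have h5 := congrArg Fin.val h4
    simp only [Fin.val_add, Fin.val_one, Fin.val_zero] at h5
    rw [Nat.mod_eq_of_lt (by omega)] at h5
    omega
  have h6 : ¬ (SimpleGraph.cycleGraph (m + 4)).Adj (i + 1) (i - 1) := by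
    rw [SimpleGraph.cycleGraph_adj]
    rintro (he | he)
    · have h4 : (1 : Fin (m + 4)) + 1 = 1 := by
        calc (1 : Fin (m + 4)) + 1 = i + 1 - (i - 1) := by abel
          _ = 1 := he
      have h5 := congrArg Fin.val h4
      simp only [Fin.val_add, Fin.val_one] at h5
      rw [Nat.mod_eq_of_lt (by omega)] at h5
      omega
    · have h4 : (1 : Fin (m + 4)) + 1 + 1 = 0 := by
        have : i - 1 - (i + 1) - 1 = 0 := by rw [he]; simp
        have h7 : (1 : Fin (m + 4)) + 1 + 1 = -(i - 1 - (i + 1) - 1) := by abel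
        rw [h7, this, neg_zero]
      have h5 := congrArg Fin.val h4
      simp only [Fin.val_add, Fin.val_one, Fin.val_zero] at h5
      rw [Nat.mod_eq_of_lt (a := 1 + 1) (by omega), Nat.mod_eq_of_lt (by omega)] at h5
      omega
  have ha : G.Adj (f i) (f (i + 1)) := f.map_adj_iff.2 h1
  have hb : G.Adj (f i) (f (i - 1)) := f.map_adj_iff.2 h2
  have hc : G.Adj (f (i + 1)) (f (i - 1)) := h _ _ _ ha hb
    (hlt _ fun he => h1.ne he.symm) (hlt _ fun he => h2.ne he.symm)
    (fun he => h3 (f.injective he))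
  exact h6 (f.map_adj_iff.1 hc)

/-- Sums of nonnegative multiples of rank one matrices are positive semidefinite. -/
theorem posSemidef_of_sum {V K : Type} [Fintype K] [Fintype V] (d : K → ℝ) (L : K → V → ℝ)
    (hd : ∀ k, 0 ≤ d k) :
    (Matrix.of fun i j => ∑ k, d k * L k i * L k j : Matrix V V ℝ).PosSemidef := by
  have : (Matrix.of fun i j => ∑ k, d k * L k i * L k j : Matrix V V ℝ) =
      ∑ k, d k • Matrix.vecMulVec (L k) (star (L k)) := by
    ext i j
    simp [Matrix.sum_apply, Matrix.vecMulVec_apply, mul_assoc]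
  rw [this]
  exact Matrix.posSemidef_sum _ fun k _ => (Matrix.posSemidef_vecMulVec_self_star (L k)).smul (hd k)

end Pool.Agent.Lib.MP_13b08e_lc
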