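import Mathlib
import Pool.Agent.Lib.PolyTime
import Pool.Agent.Lib.MP_13b08e_lc.Defs

/-!
# The two decision problems, the class NP, polynomial time reductions
-/

namespace Pool.Agent.Lib.MP_13b08e_lc

set_option autoImplicit false

open Pool.Agent.Lib.PolyTime

/-- Rational numbers in binary: sign, bits of the numerator, bits of the denominator. -/
def ratCode (q : ℚ) : Bool × (List Bool × List Bool) :=
  (decide (q.num < 0), (q.num.natAbs.bits, q.den.bits))

lemma bits_injective : Function.Injective Nat.bits := by
  intro a b h
  have key : ∀ n : ℕ, Nat.ofDigits 2 (n.bits.map fun b => cond b 1 0) = n := by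
    intro n
    rw [← Nat.digits_two_eq_bits]
    exact Nat.ofDigits_digits 2 n
  rw [← key a, ← key b, h]

lemma ratCode_injective : Function.Injective ratCode := by
  intro p q h
  simp only [ratCode, Prod.mk.injEq] at h
  obtain ⟨h1, h2, h3⟩ := h
  have h2' := bits_injective h2
  have h3' := bits_injective h3
  have h1' : p.num < 0 ↔ q.num < 0 := by simpa using h1
  exact Rat.ext (by omega) h3'

/-- The encoding of rational numbers. -/
instance encRat : Enc ℚ := Enc.ofInj ratCode ratCode_injective

/-- An instance of SDP feasibility: rational symmetric `n × n` matrices `A 0, …, A m`. -/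
structure SDP where
  /-- the size of the matrices -/
  n : ℕ
  /-- the number of variables -/
  m : ℕ
  /-- the matrices -/
  A : Fin (m + 1) → Matrix (Fin n) (Fin n) ℚ
  symm : ∀ k, (A k).IsSymm

/-- Some real linear combination `A 0 + ∑ y k • A (k + 1)` is positive semidefinite. -/
def SDP.Feasible (S : SDP) : Prop :=
  ∃ y : Fin S.m → ℝ, ((S.A 0).map (Rat.cast : ℚ → ℝ) +
    ∑ k, y k • (S.A k.succ).map (Rat.cast : ℚ → ℝ)).PosSemidef

/-- The `n × n` table whose entries are the lists of the coefficients. -/
def SDP.table (S : SDP) : List (List (List ℚ)) :=
  List.ofFn fun i => List.ofFn fun j => List.ofFn fun k => S.A k i j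

lemma SDP.table_injective : Function.Injective fun S : SDP => (S.m, S.table) := by
  rintro ⟨n, m, A, hA⟩ ⟨n', m', A', hA'⟩ h
  simp only [Prod.mk.injEq] at h
  obtain ⟨rfl, h⟩ := h
  have hn : n = n' := by
    have := congrArg List.length h
    simpa [SDP.table] using this
  subst hn
  have : A = A' := by
    funext k
    ext i j
    simp only [SDP.table] at h
    have h1 := List.ofFn_injective h
    have h2 := List.ofFn_injective (congrFun h1 i)
    have h3 := List.ofFn_injective (congrFun h2 j)
    exact congrFun h3 k
  subst this
  rfl

/-- The encoding of the instances of SDP feasibility: the number `m` in unary and the table. -/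
instance encSDP : Enc SDP := Enc.ofInj (fun S => (S.m, S.table)) SDP.table_injective

/-- An instance of elliptope membership: a graph `G` on `Fin n` and a rational vector indexed by
its edges. -/
structure Ell where
  /-- the number of vertices -/
  n : ℕ
  /-- the graph -/
  G : SimpleGraph (Fin n)
  /-- the vector -/
  x : G.edgeSet → ℚ

/-- The vector belongs to the elliptope of the graph. -/
def Ell.Member (I : Ell) : Prop := InElliptope I.G I.x

open Classical in
/-- The entries of the partial matrix. -/
noncomputable def Ell.entry (I : Ell) (i j : Fin I.n) : Option ℚ :=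
  if h : I.G.Adj i j then some (I.x ⟨s(i, j), h⟩) else none

/-- The partial matrix, row by row. -/
noncomputable def Ell.table (I : Ell) : List (List (Option ℚ)) :=
  List.ofFn fun i => List.ofFn fun j => I.entry i j

lemma Ell.table_injective : Function.Injective Ell.table := by
  rintro ⟨n, G, x⟩ ⟨n', G', x'⟩ h
  have hn : n = n' := by
    have := congrArg List.length h
    simpa [Ell.table] using this
  subst hn
  have hent : ∀ i j, Ell.entry ⟨n, G, x⟩ i j = Ell.entry ⟨n, G', x'⟩ i j := by
    intro i j
    simp only [Ell.table] at h
    have h1 := List.ofFn_injective h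
    have h2 := List.ofFn_injective (congrFun h1 i)
    exact congrFun h2 j
  have hG : G = G' := by
    ext i j
    have := hent i j
    by_cases h1 : G.Adj i j <;> by_cases h2 : G'.Adj i j <;> simp [Ell.entry, h1, h2] at this ⊢
  subst hG
  have hx : x = x' := by
    funext ⟨e, he⟩
    induction e using Sym2.inductionOn with
    | hf i j =>
      have h3 : G.Adj i j := he
      have := hent i j
      simpa [Ell.entry, h3] using this
  subst hx
  rfl

/-- The encoding of the instances of elliptope membership. -/
noncomputable instance encEll : Enc Ell := Enc.ofInj Ell.table Ell.table_injective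

/-- Computable in polynomial time by a Turing machine. -/
def PolyTime {α β : Type} [Enc α] [Enc β] (f : α → β) : Prop :=
  Nonempty (Turing.TM2ComputableInPolyTime (code : α → List Bool) (code : β → List Bool) f)

/-- The class NP: there are certificates of polynomial length which can be verified in polynomial
time. -/
def InNP {α : Type} [Enc α] (L : α → Prop) : Prop :=
  ∃ (p : Polynomial ℕ) (R : α × List Bool → Bool), PolyTime R ∧
    ∀ a, L a ↔ ∃ w : List Bool, w.length ≤ p.eval (code a).length ∧ R (a, w) = true

end Pool.Agent.Lib.MP_13b08e_lc
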