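import Mathlib
import Pool.Agent.Lib.PolyTime
import Pool.Agent.Lib.PolyTime.Lists
import Pool.Agent.Lib.MP_13b08e_lc.Problems

/-!
# The reduction of elliptope membership to SDP feasibility
-/

namespace Pool.Agent.Lib.MP_13b08e_lc

set_option autoImplicit false

open Pool.Agent.Lib.PolyTime

lemma Ell.entry_symm (I : Ell) (i j : Fin I.n) : I.entry i j = I.entry j i := by
  unfold Ell.entry
  by_cases h : I.G.Adj i j
  · rw [dif_pos h, dif_pos h.symm]
    congr 2
    exact Subtype.ext Sym2.eq_swap
  · rw [dif_neg h, dif_neg fun h' => h h'.symm]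

/-- The number of the variable at the unordered pair `{i, j}`. -/
def key (n i j : ℕ) : ℕ := if i < j then i * n + j else j * n + i

lemma key_symm {i j : ℕ} (n : ℕ) (h : i ≠ j) : key n i j = key n j i := by
  unfold key
  split_ifs <;> first | rfl | omega

lemma key_lt {n i j : ℕ} (hi : i < n) (hj : j < n) : key n i j < n * n := by
  unfold key
  split_ifs
  · nlinarith
  · nlinarith

/-- The constant coefficient. -/
def coef0 (i j : ℕ) (e : Option ℚ) : ℚ := if i = j then 1 else e.getD 0

/-- The coefficient of the variable `k`. -/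
def coefS (n i j : ℕ) (e : Option ℚ) (k : ℕ) : ℚ :=
  if i ≠ j ∧ e = none ∧ k = key n i j then 1 else 0

/-- The reduction. -/
noncomputable def Ell.toSDP (I : Ell) : SDP where
  n := I.n
  m := I.n * I.n
  A := fun k => Matrix.of fun i j => Fin.cases (coef0 i j (I.entry i j))
    (fun k => coefS I.n i j (I.entry i j) k) k
  symm := by
    intro k
    ext i j
    rw [Matrix.transpose_apply, Matrix.of_apply, Matrix.of_apply]
    refine Fin.cases ?_ (fun k => ?_) k
    · simp only [Fin.cases_zero, coef0]
      rw [I.entry_symm]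
      simp [eq_comm]
    · simp only [Fin.cases_succ, coefS]
      rw [I.entry_symm]
      by_cases h : i = j
      · subst h; rfl
      · have h' : (i : ℕ) ≠ (j : ℕ) := fun h' => h (Fin.ext h')
        rw [key_symm _ h']
        simp [h', Ne.symm h']

/-- The reduction is correct. -/
theorem Ell.toSDP_correct (I : Ell) : I.Member ↔ I.toSDP.Feasible := by
  have hM : ∀ (y : Fin (I.n * I.n) → ℝ) (i j : Fin I.n),
      ((I.toSDP.A 0).map (Rat.cast : ℚ → ℝ) +
        ∑ k, y k • (I.toSDP.A k.succ).map (Rat.cast : ℚ → ℝ)) i j =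
      (coef0 i j (I.entry i j) : ℝ) + if h : i ≠ j ∧ I.entry i j = none then
        y ⟨key I.n i j, key_lt i.2 j.2⟩ else 0 := by
    intro y i j
    have h0 : I.toSDP.A 0 i j = coef0 i j (I.entry i j) := rfl
    have hS : ∀ k : Fin (I.n * I.n), I.toSDP.A k.succ i j = coefS I.n i j (I.entry i j) k :=
      fun k => rfl
    rw [Matrix.add_apply, Matrix.map_apply, h0, Matrix.sum_apply]
    congr 1
    simp only [Matrix.smul_apply, Matrix.map_apply, smul_eq_mul]
    rw [Finset.sum_congr rfl fun k _ => by rw [hS]]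
    split_ifs with h
    · rw [Finset.sum_eq_single ⟨key I.n i j, key_lt i.2 j.2⟩]
      · have h' : (i : ℕ) ≠ (j : ℕ) := fun h' => h.1 (Fin.ext h')
        simp [coefS, h', h.2]
      · intro k _ hk
        have : (k : ℕ) ≠ key I.n i j := fun h' => hk (Fin.ext h')
        simp [coefS, this]
      · intro h; exact absurd (Finset.mem_univ _) h
    · refine Finset.sum_eq_zero fun k _ => ?_
      have : ¬ ((i : ℕ) ≠ (j : ℕ) ∧ I.entry i j = none ∧ (k : ℕ) = key I.n i j) := by
        rintro ⟨h1, h2, -⟩
        exact h ⟨fun h3 => h1 (by rw [h3]), h2⟩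
      simp only [coefS, this, if_false]
      simp
  constructor
  · rintro ⟨X, hX⟩
    have hXs : ∀ i j, X i j = X j i := by
      intro i j
      have := hX.psd.isHermitian.apply i j
      simpa using this.symm
    refine ⟨fun k => if h : (k : ℕ) / I.n < I.n ∧ (k : ℕ) % I.n < I.n then
      X ⟨_, h.1⟩ ⟨_, h.2⟩ else 0, ?_⟩
    have hpsd := hX.psd
    suffices heq : X = (I.toSDP.A 0).map (Rat.cast : ℚ → ℝ) +
        ∑ k : Fin (I.n * I.n), (if h : (k : ℕ) / I.n < I.n ∧ (k : ℕ) % I.n < I.n then
          X ⟨_, h.1⟩ ⟨_, h.2⟩ else 0) • (I.toSDP.A k.succ).map (Rat.cast : ℚ → ℝ) by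
      rw [heq] at hpsd
      exact hpsd
    ext i j
    symm
    refine (hM (fun k => if h : (k : ℕ) / I.n < I.n ∧ (k : ℕ) % I.n < I.n then
      X ⟨_, h.1⟩ ⟨_, h.2⟩ else 0) i j).trans ?_
    have hn : 0 < I.n := i.pos
    by_cases hij : i = j
    · subst hij
      simp [coef0, hX.diag]
    · have hij' : (i : ℕ) ≠ (j : ℕ) := fun h' => hij (Fin.ext h')
      by_cases hadj : I.G.Adj i j
      · have he : I.entry i j = some (I.x ⟨s(i, j), hadj⟩) := by
          unfold Ell.entry; rw [dif_pos hadj]
        rw [dif_neg (by rw [he]; simp), hX.edge i j hadj, coef0, if_neg hij', he]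
        simp
      · have he : I.entry i j = none := by
          unfold Ell.entry; rw [dif_neg hadj]
        rw [dif_pos ⟨hij, he⟩, coef0, if_neg hij', he]
        simp only [Option.getD_none, Rat.cast_zero, zero_add]
        have hdiv : ∀ a b : Fin I.n, ((a : ℕ) * I.n + b) / I.n = a := by
          intro a b
          rw [Nat.mul_comm, Nat.mul_add_div hn, Nat.div_eq_of_lt b.2, Nat.add_zero]
        have hmod : ∀ a b : Fin I.n, ((a : ℕ) * I.n + b) % I.n = b := by
          intro a b
          rw [Nat.mul_comm, Nat.mul_add_mod, Nat.mod_eq_of_lt b.2]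
        unfold key
        by_cases hlt : (i : ℕ) < j
        · simp only [if_pos hlt, hdiv, hmod, i.2, j.2, and_self, dif_pos]
        · simp only [if_neg hlt, hdiv, hmod, i.2, j.2, and_self, dif_pos]
          exact hXs j i
  · rintro ⟨y, hy⟩
    refine ⟨_, hy, fun i => ?_, fun i j hij => ?_⟩
    · refine (hM _ i i).trans ?_
      simp [coef0]
    · refine (hM _ i j).trans ?_
      have hij' : (i : ℕ) ≠ (j : ℕ) := fun h' => hij.ne (Fin.ext h')
      have he : I.entry i j = some (I.x ⟨s(i, j), hij⟩) := by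
        unfold Ell.entry; rw [dif_pos hij]
      rw [dif_neg (by rw [he]; simp), coef0, if_neg hij', he]
      simp

/-- The table of the instance of SDP feasibility. -/
def sdpTable (n : ℕ) (tbl : List (List (Option ℚ))) : List (List (List ℚ)) :=
  tbl.zipIdx.map fun row => row.1.zipIdx.map fun e =>
    coef0 row.2 e.2 e.1 :: (List.range (n * n)).map fun k => coefS n row.2 e.2 e.1 k

lemma Ell.toSDP_table (I : Ell) : I.toSDP.table = sdpTable I.n I.table := by
  have hlen : I.table.length = I.n := by simp [Ell.table]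
  unfold SDP.table sdpTable
  refine List.ext_getElem (by simp [Ell.toSDP, hlen]) fun i h1 h2 => ?_
  rw [List.getElem_ofFn, List.getElem_map, List.getElem_zipIdx]
  refine List.ext_getElem (by simp [Ell.toSDP, Ell.table]) fun j h3 h4 => ?_
  rw [List.getElem_ofFn, List.getElem_map, List.getElem_zipIdx, List.ofFn_succ]
  simp only [zero_add]
  have he : ∀ (h5 : i < I.table.length) (h6 : j < I.table[i].length),
      I.table[i][j] = I.entry ⟨i, by simpa [Ell.table] using h5⟩
        ⟨j, by simpa [Ell.table] using h6⟩ := by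
    intro h5 h6
    simp [Ell.table]
  rw [he]
  congr 1
  refine List.ext_getElem (by simp [Ell.toSDP, hlen]) fun k h5 h6 => ?_
  rw [List.getElem_ofFn, List.getElem_map, List.getElem_range]
  rfl

section

variable {α : Type} [Enc α]

theorem pt_getD {e : α → Option ℚ} (he : PT e) : PT (fun a => (e a).getD 0) := by
  refine (PT.optCases (f := e) (g := fun _ => (0 : ℚ)) (h := fun _ q => q) he (PT.const _)
    PT.snd).congr fun a => ?_
  cases e a <;> rfl

theorem pt_coef0 {i j : α → ℕ} {e : α → Option ℚ} (hi : PT i) (hj : PT j) (he : PT e) :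
    PT (fun a => coef0 (i a) (j a) (e a)) :=
  PT.ite (c := fun a => i a = j a) (PT.eq hi hj) (PT.const _) (pt_getD he)

theorem pt_key {n i j : α → ℕ} (hn : PT n) (hi : PT i) (hj : PT j) :
    PT (fun a => key (n a) (i a) (j a)) :=
  PT.ite (c := fun a => i a < j a) (PT.lt hi hj) ((hi.mul hn).add hj) ((hj.mul hn).add hi)

theorem pt_coefS {n i j k : α → ℕ} {e : α → Option ℚ} (hn : PT n) (hi : PT i) (hj : PT j)
    (he : PT e) (hk : PT k) : PT (fun a => coefS (n a) (i a) (j a) (e a) (k a)) := by
  refine PT.ite (c := fun a => i a ≠ j a ∧ e a = none ∧ k a = key (n a) (i a) (j a)) ?_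
    (PT.const _) (PT.const _)
  refine ((PT.not (PT.eq hi hj)).and ((PT.eq he (PT.const none)).and
    (PT.eq hk (pt_key hn hi hj)))).congr fun a => ?_
  simp

theorem pt_sdpTable {t : α → List (List (Option ℚ))} (ht : PT t) :
    PT (fun a => sdpTable (t a).length (t a)) := by
  refine PT.map (f := fun a => (t a).zipIdx) (g := fun a row => row.1.zipIdx.map fun e =>
    coef0 row.2 e.2 e.1 :: (List.range ((t a).length * (t a).length)).map fun k =>
      coefS (t a).length row.2 e.2 e.1 k) (PT.zipIdx ht) ?_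
  refine PT.map (f := fun x : α × (List (Option ℚ) × ℕ) => x.2.1.zipIdx) (g := fun x e =>
    coef0 x.2.2 e.2 e.1 :: (List.range ((t x.1).length * (t x.1).length)).map fun k =>
      coefS (t x.1).length x.2.2 e.2 e.1 k) (PT.zipIdx PT.snd.fst') ?_
  have hi : PT (fun x : (α × (List (Option ℚ) × ℕ)) × (Option ℚ × ℕ) => x.1.2.2) :=
    PT.fst.snd'.snd'
  have hj : PT (fun x : (α × (List (Option ℚ) × ℕ)) × (Option ℚ × ℕ) => x.2.2) := PT.snd.snd'
  have he : PT (fun x : (α × (List (Option ℚ) × ℕ)) × (Option ℚ × ℕ) => x.2.1) := PT.snd.fst'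
  have hl : PT (fun x : (α × (List (Option ℚ) × ℕ)) × (Option ℚ × ℕ) => (t x.1.1).length) :=
    (ht.comp PT.fst.fst').length
  refine PT.cons (pt_coef0 hi hj he) ?_
  exact PT.map (f := fun x : (α × (List (Option ℚ) × ℕ)) × (Option ℚ × ℕ) =>
      List.range ((t x.1.1).length * (t x.1.1).length))
    (g := fun x k => coefS (t x.1.1).length x.1.2.2 x.2.2 x.2.1 k) (PT.range (hl.mul hl))
    (pt_coefS (hl.comp PT.fst) (hi.comp PT.fst) (hj.comp PT.fst) (he.comp PT.fst) PT.snd)

end

/-- The reduction is computable in polynomial time. -/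
theorem pt_toSDP : PT Ell.toSDP := by
  have ht : PT (fun I : Ell => I.table) := PT.of_enc_eq fun _ => rfl
  refine PT.congr_enc (g := fun I : Ell => (I.table.length * I.table.length,
    sdpTable I.table.length I.table)) ((ht.length.mul ht.length).pair (pt_sdpTable ht)) fun I => ?_
  have hlen : I.table.length = I.n := by simp [Ell.table]
  rw [hlen, ← I.toSDP_table]
  rfl

end Pool.Agent.Lib.MP_13b08e_lc
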