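import Mathlib

set_option autoImplicit false

/-!
# Submultiplicative norms on commutative rings, polynomials and determinants
-/

namespace Pool.Agent.Lib.MP_13b08e_lc

open Polynomial

universe u

/-- a submultiplicative norm with natural values -/
structure CNorm (S : Type u) [CommRing S] where
  L : S → ℕ
  zero : L 0 = 0
  one : L 1 ≤ 1
  add : ∀ a b, L (a + b) ≤ L a + L b
  neg : ∀ a, L (-a) = L a
  mul : ∀ a b, L (a * b) ≤ L a * L b

namespace CNorm

variable {S : Type u} [CommRing S] (N : CNorm S)

theorem sum_le {I : Type*} (s : Finset I) (f : I → S) : N.L (∑ i ∈ s, f i) ≤ ∑ i ∈ s, N.L (f i) := by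
  classical
  induction s using Finset.induction_on with
  | empty => simp [N.zero]
  | insert i s hi ih =>
    rw [Finset.sum_insert hi, Finset.sum_insert hi]
    exact (N.add _ _).trans (Nat.add_le_add_left ih _)

theorem prod_le {I : Type*} (s : Finset I) (f : I → S) :
    N.L (∏ i ∈ s, f i) ≤ ∏ i ∈ s, N.L (f i) := by
  classical
  induction s using Finset.induction_on with
  | empty => simpa using N.one
  | insert i s hi ih =>
    rw [Finset.prod_insert hi, Finset.prod_insert hi]
    exact (N.mul _ _).trans (Nat.mul_le_mul_left _ ih)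

theorem det_le {n : Type} [Fintype n] [DecidableEq n] (M : Matrix n n S) :
    N.L M.det ≤ ∏ i, ∑ j, N.L (M i j) := by
  rw [← Matrix.det_transpose, Matrix.det_apply]
  refine (N.sum_le _ _).trans ?_
  have h1 : ∀ σ : Equiv.Perm n, N.L (Equiv.Perm.sign σ • ∏ i, M.transpose (σ i) i) ≤
      ∏ i, N.L (M i (σ i)) := by
    intro σ
    have h2 : N.L (Equiv.Perm.sign σ • ∏ i, M.transpose (σ i) i) =
        N.L (∏ i, M.transpose (σ i) i) := by
      rcases Int.units_eq_one_or (Equiv.Perm.sign σ) with h | h
      · rw [h, one_smul]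
      · rw [h, Units.neg_smul, one_smul, N.neg]
    rw [h2]
    exact N.prod_le _ _
  refine (Finset.sum_le_sum fun σ _ => h1 σ).trans ?_
  rw [Finset.prod_univ_sum]
  have h3 : ∑ σ : Equiv.Perm n, ∏ i, N.L (M i (σ i)) =
      ∑ f ∈ (Finset.univ : Finset (Equiv.Perm n)).image (fun σ : Equiv.Perm n => (⇑σ : n → n)),
        ∏ i, N.L (M i (f i)) := by
    rw [Finset.sum_image]
    intro σ _ τ _ h
    exact Equiv.coe_fn_injective h
  rw [h3]
  exact Finset.sum_le_sum_of_subset (by simp)

end CNorm

/-- the absolute value of integers -/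
def intNorm : CNorm ℤ where
  L := Int.natAbs
  zero := rfl
  one := le_rfl
  add := Int.natAbs_add_le
  neg := Int.natAbs_neg
  mul a b := (Int.natAbs_mul a b).le

section Poly

variable {S : Type u} [CommRing S] (N : CNorm S)

/-- sum of the norms of the coefficients -/
noncomputable def polyL (p : S[X]) : ℕ := ∑ i ∈ p.support, N.L (p.coeff i)

theorem polyL_eq {p : S[X]} {s : Finset ℕ} (h : p.support ⊆ s) :
    polyL N p = ∑ i ∈ s, N.L (p.coeff i) := by
  unfold polyL
  refine Finset.sum_subset h fun i _ hi => ?_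
  rw [Polynomial.notMem_support_iff.1 hi, N.zero]

theorem polyL_add (p q : S[X]) : polyL N (p + q) ≤ polyL N p + polyL N q := by
  rw [polyL_eq N (s := p.support ∪ q.support) (Polynomial.support_add),
    polyL_eq N (p := p) (s := p.support ∪ q.support) Finset.subset_union_left,
    polyL_eq N (p := q) (s := p.support ∪ q.support) Finset.subset_union_right,
    ← Finset.sum_add_distrib]
  refine Finset.sum_le_sum fun i _ => ?_
  rw [coeff_add]
  exact N.add _ _

theorem polyL_zero : polyL N 0 = 0 := by simp [polyL]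

theorem polyL_monomial (n : ℕ) (c : S) : polyL N (monomial n c) ≤ N.L c := by
  rw [polyL_eq N (s := {n}) (Polynomial.support_monomial_subset n c)]
  simp

theorem polyL_sum {I : Type*} (s : Finset I) (f : I → S[X]) :
    polyL N (∑ i ∈ s, f i) ≤ ∑ i ∈ s, polyL N (f i) := by
  classical
  induction s using Finset.induction_on with
  | empty => simp [polyL_zero]
  | insert i s hi ih =>
    rw [Finset.sum_insert hi, Finset.sum_insert hi]
    exact (polyL_add N _ _).trans (Nat.add_le_add_left ih _)

/-- the norm on polynomials -/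
noncomputable def polyNorm : CNorm S[X] where
  L := polyL N
  zero := polyL_zero N
  one := by
    have := polyL_monomial N 0 (1 : S)
    rw [monomial_zero_one] at this
    exact this.trans N.one
  add := polyL_add N
  neg p := by
    unfold polyL
    rw [support_neg]
    refine Finset.sum_congr rfl fun i _ => ?_
    rw [coeff_neg, N.neg]
  mul p q := by
    rw [Polynomial.mul_eq_sum_sum]
    refine (polyL_sum N _ _).trans ?_
    unfold polyL
    rw [Finset.sum_mul_sum]
    refine Finset.sum_le_sum fun i _ => ?_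
    change polyL N (q.sum fun j a => (monomial (i + j)) (p.coeff i * a)) ≤ _
    rw [Polynomial.sum_def]
    refine (polyL_sum N _ _).trans (Finset.sum_le_sum fun j _ => ?_)
    exact (polyL_monomial N _ _).trans (N.mul _ _)

theorem polyNorm_X : (polyNorm N).L X ≤ 1 := by
  have := polyL_monomial N 1 (1 : S)
  rw [monomial_one_one_eq_X] at this
  exact this.trans N.one

theorem polyNorm_C (c : S) : (polyNorm N).L (C c) ≤ N.L c := by
  have := polyL_monomial N 0 c
  rw [monomial_zero_left] at this
  exact this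

end Poly

/-- Cauchy bound for the roots of an integer polynomial -/
theorem cauchy_bound {p : ℤ[X]} (hp : p ≠ 0) {x : ℝ} (hx : aeval x p = 0) :
    |x| ≤ (polyNorm intNorm).L p := by
  have hL : (polyNorm intNorm).L p = ∑ i ∈ Finset.range (p.natDegree + 1), (p.coeff i).natAbs := by
    refine polyL_eq intNorm fun i hi => ?_
    rw [Finset.mem_range]
    exact Nat.lt_succ_of_le (le_natDegree_of_mem_supp i hi)
  have hlc : 1 ≤ (p.coeff p.natDegree).natAbs := by
    rw [Nat.one_le_iff_ne_zero, Int.natAbs_ne_zero]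
    exact leadingCoeff_ne_zero.2 hp
  rw [Finset.sum_range_succ] at hL
  by_cases h1 : |x| ≤ 1
  · refine h1.trans ?_
    rw [hL]
    push_cast
    have : (1 : ℝ) ≤ ((p.coeff p.natDegree).natAbs : ℝ) := by exact_mod_cast hlc
    have h2 : (0 : ℝ) ≤ ∑ i ∈ Finset.range p.natDegree, ((p.coeff i).natAbs : ℝ) :=
      Finset.sum_nonneg fun i _ => Nat.cast_nonneg _
    linarith
  push Not at h1
  rw [aeval_eq_sum_range, Finset.sum_range_succ] at hx
  rcases Nat.eq_zero_or_pos p.natDegree with h0 | h0
  · rw [h0] at hx hlc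
    simp only [Finset.range_zero, Finset.sum_empty, zero_add, pow_zero] at hx
    rw [zsmul_one, Int.cast_eq_zero] at hx
    rw [hx] at hlc
    simp at hlc
  obtain ⟨e, he⟩ : ∃ e, p.natDegree = e + 1 := ⟨p.natDegree - 1, by omega⟩
  have h2 : |x| ^ (e + 1) ≤ |(p.coeff p.natDegree) • x ^ p.natDegree| := by
    rw [zsmul_eq_mul, abs_mul, abs_pow, ← he, ← Int.cast_abs, Int.abs_eq_natAbs]
    have : (1 : ℝ) ≤ (((p.coeff p.natDegree).natAbs : ℤ) : ℝ) := by exact_mod_cast hlc
    nlinarith [pow_nonneg (abs_nonneg x) p.natDegree]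
  have h3 : |(p.coeff p.natDegree) • x ^ p.natDegree| ≤
      (∑ i ∈ Finset.range p.natDegree, ((p.coeff i).natAbs : ℝ)) * |x| ^ e := by
    rw [eq_neg_of_add_eq_zero_right hx, abs_neg, Finset.sum_mul]
    refine (Finset.abs_sum_le_sum_abs _ _).trans (Finset.sum_le_sum fun i hi => ?_)
    rw [Finset.mem_range] at hi
    rw [zsmul_eq_mul, abs_mul, abs_pow, ← Int.cast_abs, Int.abs_eq_natAbs, Int.cast_natCast]
    refine mul_le_mul_of_nonneg_left ?_ (Nat.cast_nonneg _)
    exact pow_le_pow_right₀ h1.le (by omega)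
  have h4 := h2.trans h3
  rw [pow_succ, mul_comm] at h4
  have h5 : |x| ≤ ∑ i ∈ Finset.range p.natDegree, ((p.coeff i).natAbs : ℝ) :=
    le_of_mul_le_mul_right h4 (by positivity)
  refine h5.trans ?_
  rw [hL]
  push_cast
  linarith [Nat.cast_nonneg (α := ℝ) (p.coeff p.natDegree).natAbs, abs_nonneg ((p.coeff p.natDegree : ℤ) : ℝ)]

end Pool.Agent.Lib.MP_13b08e_lc
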