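import Mathlib
import Pool.Agent.Lib.MP_13b08e_lc.BdNorm

set_option autoImplicit false

/-!
# Reduction of monomials modulo equations `x_i^5 = d P_i(x)`, `deg P_i ≤ 3`
-/

namespace Pool.Agent.Lib.MP_13b08e_lc

open Polynomial

section

variable {σ : Type} [Fintype σ]

/-- `f` is a polynomial function of degree at most `k`, a combination of monomials with integer
coefficients of total size at most `C`. -/
def IsPres (k C : ℕ) (f : (σ → ℝ) → ℝ) : Prop :=
  ∃ (I : Type) (_ : Fintype I) (c : I → ℤ) (m : I → σ → ℕ),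
    (∀ t, ∑ s, m t s ≤ k) ∧ ∑ t, (c t).natAbs ≤ C ∧ ∀ x, f x = ∑ t, (c t : ℝ) * ∏ s, x s ^ m t s

theorem IsPres.mono {k k' C C' : ℕ} {f : (σ → ℝ) → ℝ} (h : IsPres k C f) (hk : k ≤ k')
    (hC : C ≤ C') : IsPres k' C' f := by
  obtain ⟨I, _, c, m, h1, h2, h3⟩ := h
  exact ⟨I, _, c, m, fun t => (h1 t).trans hk, h2.trans hC, h3⟩

theorem IsPres.const (a : ℤ) : IsPres 0 a.natAbs (fun _ : σ → ℝ => (a : ℝ)) :=
  ⟨Unit, inferInstance, fun _ => a, fun _ _ => 0, by simp, by simp, by simp⟩

theorem IsPres.coord [DecidableEq σ] (i : σ) : IsPres 1 1 (fun x : σ → ℝ => x i) := by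
  refine ⟨Unit, inferInstance, fun _ => 1, fun _ => Pi.single i 1, ?_, by simp, ?_⟩
  · intro t
    simp
  · intro x
    simp only [Finset.univ_unique, Int.cast_one, one_mul, Finset.sum_singleton]
    rw [Finset.prod_eq_single i]
    · simp
    · intro j _ hj
      simp [hj]
    · simp

theorem IsPres.add {k C C' : ℕ} {f g : (σ → ℝ) → ℝ} (hf : IsPres k C f) (hg : IsPres k C' g) :
    IsPres k (C + C') (fun x => f x + g x) := by
  obtain ⟨I, _, c, m, h1, h2, h3⟩ := hf
  obtain ⟨I', _, c', m', h1', h2', h3'⟩ := hg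
  refine ⟨I ⊕ I', inferInstance, Sum.elim c c', Sum.elim m m', ?_, ?_, ?_⟩
  · rintro (t | t)
    · exact h1 t
    · exact h1' t
  · rw [Fintype.sum_sum_type]
    exact Nat.add_le_add h2 h2'
  · intro x
    beta_reduce
    rw [Fintype.sum_sum_type, h3, h3']
    rfl

theorem IsPres.mul {k k' C C' : ℕ} {f g : (σ → ℝ) → ℝ} (hf : IsPres k C f)
    (hg : IsPres k' C' g) : IsPres (k + k') (C * C') (fun x => f x * g x) := by
  obtain ⟨I, _, c, m, h1, h2, h3⟩ := hf
  obtain ⟨I', _, c', m', h1', h2', h3'⟩ := hg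
  refine ⟨I × I', inferInstance, fun t => c t.1 * c' t.2, fun t s => m t.1 s + m' t.2 s,
    ?_, ?_, ?_⟩
  · rintro ⟨t, t'⟩
    rw [Finset.sum_add_distrib]
    exact Nat.add_le_add (h1 t) (h1' t')
  · rw [Fintype.sum_prod_type]
    simp only [Int.natAbs_mul]
    rw [← Finset.sum_mul_sum]
    exact Nat.mul_le_mul h2 h2'
  · intro x
    beta_reduce
    rw [Fintype.sum_prod_type, h3, h3', Finset.sum_mul_sum]
    refine Finset.sum_congr rfl fun t _ => Finset.sum_congr rfl fun t' _ => ?_
    simp only [Int.cast_mul, pow_add, Finset.prod_mul_distrib]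
    ring

theorem IsPres.sum {k : ℕ} {J : Type} (s : Finset J) {C : J → ℕ} {f : J → (σ → ℝ) → ℝ}
    (h : ∀ j ∈ s, IsPres k (C j) (f j)) : IsPres k (∑ j ∈ s, C j) (fun x => ∑ j ∈ s, f j x) := by
  classical
  induction s using Finset.induction_on with
  | empty =>
    refine (IsPres.const (σ := σ) 0).mono (Nat.zero_le _) le_rfl |>.mono (k' := k) le_rfl le_rfl
      |> fun h => ?_
    simpa using h
  | insert j s hj ih =>
    simp only [Finset.sum_insert hj]
    exact (h j (Finset.mem_insert_self _ _)).add (ih fun i hi => h i (Finset.mem_insert_of_mem hi))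

theorem IsPres.neg {k C : ℕ} {f : (σ → ℝ) → ℝ} (hf : IsPres k C f) :
    IsPres k C (fun x => - f x) := by
  have := (IsPres.const (σ := σ) (-1)).mul hf
  rw [zero_add] at this
  simpa using this

/-- the norm on `ℤ[X]` -/
noncomputable abbrev N1 : CNorm ℤ[X] := polyNorm intNorm

/-- the norm on `ℤ[X][X]` -/
noncomputable abbrev N2 : CNorm ℤ[X][X] := polyNorm N1

variable [DecidableEq σ]

theorem reduce {C : ℕ} (hC : 1 ≤ C) (P : σ → (σ → ℝ) → ℝ) (hP : ∀ i, IsPres 3 C (P i))
    (K : ℕ) : ∀ a : σ → ℕ, ∑ s, a s ≤ K →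
    ∃ c : (σ → Fin 5) → ℤ[X], ∑ b, N1.L (c b) ≤ C ^ K ∧
      ∀ (x : σ → ℝ) (d : ℝ), (∀ i, x i ^ 5 = d * P i x) →
        ∏ i, x i ^ a i = ∑ b, aeval d (c b) * ∏ i, x i ^ (b i : ℕ) := by
  induction K using Nat.strong_induction_on with
  | _ K ih =>
  intro a ha
  by_cases hsmall : ∀ i, a i < 5
  · refine ⟨Pi.single (fun i => ⟨a i, hsmall i⟩) 1, ?_, ?_⟩
    · have h1 : ∑ b, N1.L ((Pi.single (fun i => ⟨a i, hsmall i⟩) 1 : (σ → Fin 5) → ℤ[X]) b) ≤ 1 := by
        rw [Finset.sum_eq_single (fun i => ⟨a i, hsmall i⟩)]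
        · rw [Pi.single_eq_same]
          exact N1.one
        · intro b _ hb
          rw [Pi.single_eq_of_ne hb, N1.zero]
        · simp
      exact h1.trans (Nat.one_le_pow _ _ hC)
    · intro x d _
      rw [Finset.sum_eq_single (fun i => ⟨a i, hsmall i⟩)]
      · rw [Pi.single_eq_same]
        simp
      · intro b _ hb
        rw [Pi.single_eq_of_ne hb]
        simp
      · simp
  · push Not at hsmall
    obtain ⟨i, hi⟩ := hsmall
    obtain ⟨I, _, e, m, h1, h2, h3⟩ := hP i
    have hai : a i ≤ ∑ s, a s := Finset.single_le_sum (fun _ _ => Nat.zero_le _) (Finset.mem_univ i)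
    -- the exponents after one reduction step
    let a' : σ → ℕ := Function.update a i (a i - 5)
    have ha' : ∑ s, a' s + 5 = ∑ s, a s := by
      rw [← Finset.add_sum_erase _ a' (Finset.mem_univ i), ← Finset.add_sum_erase _ a (Finset.mem_univ i)]
      have : ∑ s ∈ Finset.univ.erase i, a' s = ∑ s ∈ Finset.univ.erase i, a s := by
        refine Finset.sum_congr rfl fun s hs => ?_
        rw [Finset.mem_erase] at hs
        exact Function.update_of_ne hs.1 _ _
      rw [this]
      have : a' i = a i - 5 := Function.update_self _ _ _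
      omega
    have hb : ∀ t, ∑ s, (m t s + a' s) ≤ K - 2 := by
      intro t
      rw [Finset.sum_add_distrib]
      have := h1 t
      omega
    choose c hc1 hc2 using fun t => ih (K - 2) (by omega) (fun s => m t s + a' s) (hb t)
    refine ⟨fun b => ∑ t, X * (Polynomial.C (e t) * c t b), ?_, ?_⟩
    · calc ∑ b, N1.L (∑ t, X * (Polynomial.C (e t) * c t b))
          ≤ ∑ b, ∑ t, (e t).natAbs * N1.L (c t b) := by
            refine Finset.sum_le_sum fun b _ => (N1.sum_le _ _).trans
              (Finset.sum_le_sum fun t _ => ?_)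
            refine (N1.mul _ _).trans ?_
            calc N1.L X * N1.L (Polynomial.C (e t) * c t b)
                ≤ 1 * (N1.L (Polynomial.C (e t)) * N1.L (c t b)) :=
                  Nat.mul_le_mul (polyNorm_X intNorm) (N1.mul _ _)
              _ ≤ (e t).natAbs * N1.L (c t b) := by
                  rw [one_mul]
                  exact Nat.mul_le_mul_right _ (polyNorm_C intNorm (e t))
        _ = ∑ t, (e t).natAbs * ∑ b, N1.L (c t b) := by
            rw [Finset.sum_comm]
            refine Finset.sum_congr rfl fun t _ => ?_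
            rw [Finset.mul_sum]
        _ ≤ ∑ t, (e t).natAbs * C ^ (K - 2) :=
            Finset.sum_le_sum fun t _ => Nat.mul_le_mul_left _ (hc1 t)
        _ = (∑ t, (e t).natAbs) * C ^ (K - 2) := by rw [Finset.sum_mul]
        _ ≤ C * C ^ (K - 2) := Nat.mul_le_mul_right _ h2
        _ = C ^ (K - 1) := by rw [← pow_succ']; congr 1; omega
        _ ≤ C ^ K := Nat.pow_le_pow_right hC (by omega)
    · intro x d hx
      have h4 : ∏ s, x s ^ a s = x i ^ 5 * ∏ s, x s ^ a' s := by
        rw [← Finset.mul_prod_erase _ _ (Finset.mem_univ i),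
          ← Finset.mul_prod_erase _ (fun s => x s ^ a' s) (Finset.mem_univ i), ← mul_assoc]
        congr 1
        · have : a' i = a i - 5 := Function.update_self _ _ _
          rw [this, ← pow_add]
          congr 1
          omega
        · refine Finset.prod_congr rfl fun s hs => ?_
          rw [Finset.mem_erase] at hs
          have : a' s = a s := Function.update_of_ne hs.1 _ _
          rw [this]
      rw [h4, hx i, h3, Finset.mul_sum, Finset.sum_mul]
      have h5 : ∀ t, d * ((e t : ℝ) * ∏ s, x s ^ m t s) * ∏ s, x s ^ a' s =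
          ∑ b, d * (e t : ℝ) * (aeval d (c t b) * ∏ s, x s ^ (b s : ℕ)) := by
        intro t
        rw [← Finset.mul_sum, ← hc2 t x d hx]
        simp only [pow_add, Finset.prod_mul_distrib]
        ring
      rw [Finset.sum_congr rfl fun t _ => h5 t, Finset.sum_comm]
      refine Finset.sum_congr rfl fun b _ => ?_
      rw [map_sum, Finset.sum_mul]
      refine Finset.sum_congr rfl fun t _ => ?_
      rw [map_mul, map_mul, aeval_X, aeval_C]
      simp only [algebraMap_int_eq, eq_intCast]
      ring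

/-- Every coordinate of a solution is a root of a monic polynomial of controlled size. -/
theorem exists_monic {C : ℕ} (hC : 1 ≤ C) (P : σ → (σ → ℝ) → ℝ) (hP : ∀ i, IsPres 3 C (P i))
    (i : σ) : ∃ R : ℤ[X][X], R.Monic ∧
      N2.L R ≤ (1 + C ^ (4 * Fintype.card σ + 1)) ^ (5 ^ Fintype.card σ) ∧
      ∀ (x : σ → ℝ) (d : ℝ), (∀ i, x i ^ 5 = d * P i x) →
        (R.map (aeval d : ℤ[X] →ₐ[ℤ] ℝ).toRingHom).eval (x i) = 0 := by
  have hsum : ∀ a : σ → Fin 5, ∑ s, ((a s : ℕ) + (Pi.single i 1 : σ → ℕ) s) ≤ 4 * Fintype.card σ + 1 := by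
    intro a
    rw [Finset.sum_add_distrib]
    have h1 : ∑ s, (a s : ℕ) ≤ ∑ s : σ, 4 := Finset.sum_le_sum fun s _ => by omega
    have h2 : ∑ s, (Pi.single i 1 : σ → ℕ) s = 1 := by simp
    rw [Finset.sum_const, Finset.card_univ, smul_eq_mul] at h1
    omega
  choose c hc1 hc2 using fun a : σ → Fin 5 =>
    reduce hC P hP (4 * Fintype.card σ + 1) (fun s => (a s : ℕ) + (Pi.single i 1 : σ → ℕ) s) (hsum a)
  let M : Matrix (σ → Fin 5) (σ → Fin 5) ℤ[X] := Matrix.of c
  refine ⟨M.charpoly, M.charpoly_monic, ?_, ?_⟩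
  · have h1 : ∀ a, ∑ b, N2.L (M.charmatrix a b) ≤ 1 + C ^ (4 * Fintype.card σ + 1) := by
      intro a
      have h2 : ∀ b, N2.L (M.charmatrix a b) ≤ (if a = b then 1 else 0) + N1.L (c a b) := by
        intro b
        rw [Matrix.charmatrix_apply, sub_eq_add_neg]
        refine (N2.add _ _).trans (Nat.add_le_add ?_ ?_)
        · by_cases hab : a = b
          · subst hab
            rw [Matrix.diagonal_apply_eq, if_pos rfl]
            exact polyNorm_X N1
          · rw [Matrix.diagonal_apply_ne _ hab, if_neg hab, N2.zero]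
        · rw [N2.neg]
          exact polyNorm_C N1 _
      refine (Finset.sum_le_sum fun b _ => h2 b).trans ?_
      rw [Finset.sum_add_distrib]
      refine Nat.add_le_add ?_ (hc1 a)
      simp
    have h3 := N2.det_le M.charmatrix
    refine h3.trans ?_
    refine (Finset.prod_le_prod' fun a _ => h1 a).trans ?_
    rw [Finset.prod_const, Finset.card_univ, Fintype.card_fun, Fintype.card_fin]
  · intro x d hx
    rw [← Matrix.charpoly_map, Matrix.eval_charpoly]
    refine Matrix.exists_mulVec_eq_zero_iff.1 ⟨fun b => ∏ s, x s ^ (b s : ℕ), ?_, ?_⟩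
    · intro h
      have := congrFun h (fun _ => 0)
      simp at this
    · funext a
      rw [Matrix.sub_mulVec, Pi.sub_apply, Pi.zero_apply, sub_eq_zero]
      have h1 := hc2 a x d hx
      have h2 : ∏ s, x s ^ ((a s : ℕ) + (Pi.single i 1 : σ → ℕ) s) = x i * ∏ s, x s ^ (a s : ℕ) := by
        simp only [pow_add, Finset.prod_mul_distrib]
        rw [mul_comm]
        congr 1
        rw [Finset.prod_eq_single i]
        · simp
        · intro s _ hs
          simp [hs]
        · simp
      rw [h2] at h1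
      simp only [Matrix.scalar_apply, Matrix.mulVec_diagonal]
      rw [h1]
      rfl

end

end Pool.Agent.Lib.MP_13b08e_lc
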