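import Mathlib
import Pool.Agent.Lib.MP_13b08e_lc.BdReduce

set_option autoImplicit false

/-!
# Passage to the limit
-/

namespace Pool.Agent.Lib.MP_13b08e_lc

open Polynomial Filter Topology

theorem tendsto_aeval_div {d : ℕ → ℝ} (hd : Tendsto d atTop atTop) {K : ℕ} {p : ℤ[X]}
    (hp : p.natDegree ≤ K) :
    Tendsto (fun k => aeval (d k) p / d k ^ K) atTop (𝓝 ((p.coeff K : ℤ) : ℝ)) := by
  have h1 : ∀ x : ℝ, aeval x p / x ^ K =
      ∑ i ∈ Finset.range (K + 1), ((p.coeff i : ℤ) : ℝ) * (x ^ i / x ^ K) := by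
    intro x
    rw [aeval_eq_sum_range' (Nat.lt_succ_of_le hp), Finset.sum_div]
    refine Finset.sum_congr rfl fun i _ => ?_
    rw [zsmul_eq_mul, mul_div_assoc]
  simp only [h1]
  have h2 : ((p.coeff K : ℤ) : ℝ) =
      ∑ i ∈ Finset.range (K + 1), ((p.coeff i : ℤ) : ℝ) * (if i = K then 1 else 0) := by
    rw [Finset.sum_eq_single K]
    · simp
    · intro i _ hi
      simp [hi]
    · simp
  rw [h2]
  refine tendsto_finsetSum _ fun i hi => Tendsto.const_mul _ ?_
  rw [Finset.mem_range] at hi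
  have hinv : Tendsto (fun k => (d k)⁻¹) atTop (𝓝 0) := tendsto_inv_atTop_zero.comp hd
  split_ifs with h
  · subst h
    refine Tendsto.congr' ?_ tendsto_const_nhds
    filter_upwards [hd.eventually_gt_atTop 0] with k hk
    rw [div_self (pow_ne_zero _ hk.ne')]
  · have h3 : Tendsto (fun k => (d k)⁻¹ ^ (K - i)) atTop (𝓝 0) := by
      have := hinv.pow (K - i)
      rwa [zero_pow (by omega)] at this
    refine Tendsto.congr' ?_ h3
    filter_upwards [hd.eventually_gt_atTop 0] with k hk
    rw [inv_pow, eq_div_iff (pow_ne_zero _ hk.ne'), ← div_eq_inv_mul, div_eq_iff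
      (pow_ne_zero _ hk.ne'), ← pow_add]
    congr 1
    omega

/-- The limit of roots, for a parameter going to infinity, is a root of an integer polynomial. -/
theorem limit_root {R : ℤ[X][X]} (hR : R ≠ 0) {x d : ℕ → ℝ} {x₀ : ℝ}
    (hd : Tendsto d atTop atTop) (hx : Tendsto x atTop (𝓝 x₀))
    (h : ∀ k, (R.map (aeval (d k) : ℤ[X] →ₐ[ℤ] ℝ).toRingHom).eval (x k) = 0) :
    ∃ r : ℤ[X], r ≠ 0 ∧ N1.L r ≤ N2.L R ∧ aeval x₀ r = 0 := by
  classical
  let K : ℕ := R.support.sup fun j => (R.coeff j).natDegree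
  have hK : ∀ j, (R.coeff j).natDegree ≤ K := by
    intro j
    by_cases hj : j ∈ R.support
    · exact Finset.le_sup (f := fun j => (R.coeff j).natDegree) hj
    · rw [notMem_support_iff.1 hj]
      simp
  let r : ℤ[X] := ∑ j ∈ R.support, monomial j ((R.coeff j).coeff K)
  have hrc : ∀ j, r.coeff j = (R.coeff j).coeff K := by
    intro j
    simp only [r]
    rw [finsetSum_coeff]
    by_cases hj : j ∈ R.support
    · rw [Finset.sum_eq_single j]
      · rw [coeff_monomial_same]
      · intro i _ hi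
        rw [coeff_monomial_of_ne _ hi.symm]
      · intro h
        exact absurd hj h
    · rw [Finset.sum_eq_zero, notMem_support_iff.1 hj, coeff_zero]
      intro i hi
      have : i ≠ j := fun h => hj (h ▸ hi)
      rw [coeff_monomial_of_ne _ this.symm]
  refine ⟨r, ?_, ?_, ?_⟩
  · obtain ⟨j, hj, hjK⟩ := Finset.exists_mem_eq_sup R.support
      (Polynomial.support_nonempty.2 hR) (fun j => (R.coeff j).natDegree)
    intro h0
    have h1 := hrc j
    rw [h0, coeff_zero] at h1
    have h2 : (R.coeff j).coeff K ≠ 0 := by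
      rw [show K = (R.coeff j).natDegree from hjK]
      exact leadingCoeff_ne_zero.2 (mem_support_iff.1 hj)
    exact h2 h1.symm
  · have h1 : r.support ⊆ R.support := by
      intro j hj
      rw [mem_support_iff, hrc] at hj
      rw [mem_support_iff]
      intro h0
      rw [h0, coeff_zero] at hj
      exact hj rfl
    have h2 : N1.L r = ∑ j ∈ R.support, intNorm.L (r.coeff j) := polyL_eq intNorm h1
    have h3 : N2.L R = ∑ j ∈ R.support, N1.L (R.coeff j) := rfl
    rw [h2, h3]
    refine Finset.sum_le_sum fun j _ => ?_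
    rw [hrc]
    have h4 : N1.L (R.coeff j) = ∑ i ∈ (R.coeff j).support, intNorm.L ((R.coeff j).coeff i) := rfl
    rw [h4]
    by_cases hK : K ∈ (R.coeff j).support
    · exact Finset.single_le_sum (f := fun i => intNorm.L ((R.coeff j).coeff i))
        (fun _ _ => Nat.zero_le _) hK
    · rw [notMem_support_iff.1 hK, intNorm.zero]
      exact Nat.zero_le _
  · -- the limit
    have h1 : ∀ k, ∑ j ∈ R.support, (aeval (d k) (R.coeff j) / d k ^ K) * x k ^ j = 0 := by
      intro k
      have h2 := h k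
      rw [eval_map, eval₂_eq_sum, Polynomial.sum_def] at h2
      have h3 : ∑ j ∈ R.support, (aeval (d k) (R.coeff j) / d k ^ K) * x k ^ j =
          (∑ j ∈ R.support, aeval (d k) (R.coeff j) * x k ^ j) / d k ^ K := by
        rw [Finset.sum_div]
        refine Finset.sum_congr rfl fun j _ => ?_
        ring
      rw [h3]
      have h4 : ∑ j ∈ R.support, aeval (d k) (R.coeff j) * x k ^ j = 0 := h2
      rw [h4, zero_div]
    have h2 : Tendsto (fun k => ∑ j ∈ R.support, (aeval (d k) (R.coeff j) / d k ^ K) * x k ^ j)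
        atTop (𝓝 (∑ j ∈ R.support, (((R.coeff j).coeff K : ℤ) : ℝ) * x₀ ^ j)) :=
      tendsto_finsetSum _ fun j _ => (tendsto_aeval_div hd (hK j)).mul (hx.pow j)
    simp only [h1] at h2
    have h3 := tendsto_nhds_unique h2 tendsto_const_nhds
    simp only [r]
    rw [map_sum, ← h3]
    refine Finset.sum_congr rfl fun j _ => ?_
    rw [aeval_monomial]
    simp

/-- The bound for the limits of critical points. -/
theorem bounded_limit {σ : Type} [Fintype σ] [DecidableEq σ] {C : ℕ} (hC : 1 ≤ C)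
    (P : σ → (σ → ℝ) → ℝ) (hP : ∀ i, IsPres 3 C (P i)) {x : ℕ → σ → ℝ} {d : ℕ → ℝ} {x₀ : σ → ℝ}
    (hd : Tendsto d atTop atTop) (hx : Tendsto x atTop (𝓝 x₀))
    (h : ∀ k i, x k i ^ 5 = d k * P i (x k)) (i : σ) :
    |x₀ i| ≤ ((1 + C ^ (4 * Fintype.card σ + 1)) ^ (5 ^ Fintype.card σ) : ℕ) := by
  obtain ⟨R, hR, hRL, hR0⟩ := exists_monic hC P hP i
  obtain ⟨r, hr, hrL, hr0⟩ := limit_root hR.ne_zero hd ((tendsto_pi_nhds.1 hx) i)
    (fun k => hR0 (x k) (d k) (h k))
  refine (cauchy_bound hr hr0).trans ?_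
  exact_mod_cast hrL.trans hRL

/-- Approximation of a zero of a nonnegative function by critical points. -/
theorem exists_approx {σ : Type} [Fintype σ] [DecidableEq σ] (F : (σ → ℝ) → ℝ)
    (hF : Continuous F) (h0 : ∀ x, 0 ≤ F x) {z : σ → ℝ} (hz : F z = 0) (D : σ → (σ → ℝ) → ℝ)
    (hD : ∀ x i, HasDerivAt (fun t => F (Function.update x i t)) (D i x) (x i)) :
    ∃ (x : ℕ → σ → ℝ) (d : ℕ → ℝ) (x₀ : σ → ℝ), Tendsto d atTop atTop ∧
      Tendsto x atTop (𝓝 x₀) ∧ F x₀ = 0 ∧ ∀ k i, x k i ^ 5 = d k * (- D i (x k)) := by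
  let S : (σ → ℝ) → ℝ := fun x => ∑ i, x i ^ 6
  have hS : Continuous S := by fun_prop
  have hS0 : ∀ x, 0 ≤ S x := fun x => Finset.sum_nonneg fun i _ => by positivity
  let K : Set (σ → ℝ) := {x | S x ≤ S z}
  have hKc : IsCompact K := by
    refine Metric.isCompact_of_isClosed_isBounded (isClosed_le hS continuous_const) ?_
    rw [isBounded_iff_forall_norm_le]
    refine ⟨1 + S z, fun x hx => ?_⟩
    rw [pi_norm_le_iff_of_nonneg (by linarith [hS0 z])]
    intro i
    rw [Real.norm_eq_abs]
    have h1 : x i ^ 6 ≤ S x := Finset.single_le_sum (f := fun i => x i ^ 6)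
      (fun i _ => by positivity) (Finset.mem_univ i)
    have h2 : x i ^ 6 ≤ S z := h1.trans hx
    by_cases h3 : |x i| ≤ 1
    · linarith [hS0 z]
    · push Not at h3
      have h4 : |x i| ≤ |x i| ^ 6 := by
        calc |x i| = |x i| ^ 1 := (pow_one _).symm
          _ ≤ |x i| ^ 6 := pow_le_pow_right₀ h3.le (by norm_num)
      have h5 : |x i| ^ 6 = x i ^ 6 := by rw [← abs_pow, abs_of_nonneg (by positivity)]
      linarith
  have hzK : z ∈ K := le_refl (S z)
  -- minimisers
  have hmin : ∀ k : ℕ, ∃ x ∈ K, ∀ y, F x + S x / (6 * (k + 1)) ≤ F y + S y / (6 * (k + 1)) := by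
    intro k
    have hk : (0 : ℝ) < 6 * (k + 1) := by positivity
    obtain ⟨x, hxK, hx⟩ := hKc.exists_isMinOn ⟨z, hzK⟩
      (f := fun x => F x + S x / (6 * (k + 1))) (by fun_prop)
    refine ⟨x, hxK, fun y => ?_⟩
    by_cases hy : y ∈ K
    · exact hx hy
    · have h1 : S z < S y := not_le.1 hy
      have h2 : F x + S x / (6 * (k + 1)) ≤ F z + S z / (6 * (k + 1)) := hx hzK
      have h3 : S z / (6 * (k + 1)) < S y / (6 * (k + 1)) := by gcongr
      linarith [h0 y]
  choose x hxK hxmin using hmin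
  obtain ⟨x₀, -, φ, hφ, hlim⟩ := hKc.tendsto_subseq hxK
  refine ⟨x ∘ φ, fun k => (φ k : ℝ) + 1, x₀, ?_, hlim, ?_, ?_⟩
  · exact tendsto_atTop_add_const_right _ _ (tendsto_natCast_atTop_atTop.comp hφ.tendsto_atTop)
  · have h1 : ∀ k, F (x (φ k)) ≤ S z / (6 * ((φ k : ℝ) + 1)) := by
      intro k
      have h2 := hxmin (φ k) z
      rw [hz, zero_add] at h2
      have h3 : 0 ≤ S (x (φ k)) / (6 * ((φ k : ℝ) + 1)) := div_nonneg (hS0 _) (by positivity)
      linarith
    have h2 : Tendsto (fun k => S z / (6 * ((φ k : ℝ) + 1))) atTop (𝓝 0) := by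
      refine Tendsto.div_atTop tendsto_const_nhds ?_
      refine Tendsto.const_mul_atTop (by norm_num) ?_
      exact tendsto_atTop_add_const_right _ _ (tendsto_natCast_atTop_atTop.comp hφ.tendsto_atTop)
    have h3 : Tendsto (fun k => F (x (φ k))) atTop (𝓝 (F x₀)) := (hF.tendsto x₀).comp hlim
    exact le_antisymm (le_of_tendsto_of_tendsto' h3 h2 h1) (h0 _)
  · intro k i
    simp only [Function.comp_apply]
    set w := x (φ k) with hw
    set e : ℝ := (φ k : ℝ) + 1 with he
    have he0 : 0 < e := by positivity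
    -- derivative of the perturbed function
    have h1 : HasDerivAt (fun t => S (Function.update w i t)) (6 * w i ^ 5) (w i) := by
      have h2 : ∀ t, S (Function.update w i t) = t ^ 6 + ∑ j ∈ Finset.univ.erase i, w j ^ 6 := by
        intro t
        simp only [S]
        rw [← Finset.add_sum_erase _ _ (Finset.mem_univ i), Function.update_self]
        congr 1
        refine Finset.sum_congr rfl fun j hj => ?_
        rw [Finset.mem_erase] at hj
        rw [Function.update_of_ne hj.1]
      simp only [h2]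
      have h3 := (hasDerivAt_pow 6 (w i)).add_const (∑ j ∈ Finset.univ.erase i, w j ^ 6)
      simpa using h3
    have h2 : HasDerivAt (fun t => F (Function.update w i t) + S (Function.update w i t) / (6 * e))
        (D i w + 6 * w i ^ 5 / (6 * e)) (w i) := (hD w i).add (h1.div_const _)
    have h3 : IsLocalMin (fun t => F (Function.update w i t) + S (Function.update w i t) / (6 * e))
        (w i) := by
      refine Filter.Eventually.of_forall fun t => ?_
      have h4 := hxmin (φ k) (Function.update w i t)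
      beta_reduce
      rw [Function.update_eq_self]
      exact h4
    have h4 := h3.hasDerivAt_eq_zero h2
    have h5 : 6 * w i ^ 5 / (6 * e) = w i ^ 5 / e := by
      rw [mul_div_mul_left _ _ (by norm_num : (6 : ℝ) ≠ 0)]
    rw [h5] at h4
    have h6 : w i ^ 5 / e = - D i w := by linarith
    rw [div_eq_iff he0.ne'] at h6
    rw [h6]
    ring

end Pool.Agent.Lib.MP_13b08e_lc
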