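import Mathlib
import Pool.Agent.Lib.MP_13b08e_lc.Defs

/-!
Graphs on `16 k + 8` vertices with rational data of bounded size, such that a certain entry of every
positive semidefinite completion is a rational number with denominator `5 ^ (2 ^ k + 2)`.
-/

namespace Pool.Agent.Lib.MP_13b08e_lc.Doubling

open Pool.Agent.Lib.MP_13b08e_lc

/-- Labels of the vectors of the plane: an orthonormal basis `e1`, `e2` and orthonormal bases
`p i`, `n i`. -/
inductive Lab (k : ℕ) : Type
  | e1 : Lab k
  | e2 : Lab k
  | p (i : Fin (k + 1)) : Lab k
  | n (i : Fin (k + 1)) : Lab k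
  deriving DecidableEq, Fintype

/-- Indices of the gadgets. -/
abbrev Gad (k : ℕ) : Type := Fin k × Fin 4

/-- The common vertex of the two pairs compared by a gadget. -/
def ga {k : ℕ} : Gad k → Lab k
  | (i, 0) => .p i.castSucc
  | (i, 1) => .n i.castSucc
  | (i, 2) => .p i.castSucc
  | (i, 3) => .n i.castSucc

/-- The other vertex of the first pair. -/
def gb {k : ℕ} : Gad k → Lab k
  | (_, 0) => .e1
  | (_, 1) => .e1
  | (_, 2) => .e2
  | (_, 3) => .e2

/-- The other vertex of the second pair. -/
def gc {k : ℕ} : Gad k → Lab k
  | (i, 0) => .p i.succ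
  | (i, 1) => .p i.succ
  | (i, 2) => .n i.succ
  | (i, 3) => .n i.succ

/-- The sign of a gadget. -/
def gs {k : ℕ} : Gad k → ℚ
  | (_, 0) => 1
  | (_, 1) => -1
  | (_, 2) => -1
  | (_, 3) => 1

lemma gs_sq {k : ℕ} (g : Gad k) : gs g * gs g = 1 := by
  obtain ⟨i, j⟩ := g
  fin_cases j <;> simp [gs]

lemma ga_ne_gb {k : ℕ} (g : Gad k) : ga g ≠ gb g := by
  obtain ⟨i, j⟩ := g
  fin_cases j <;> simp [ga, gb]

lemma ga_ne_gc {k : ℕ} (g : Gad k) : ga g ≠ gc g := by
  obtain ⟨i, j⟩ := g
  fin_cases j <;> simp [ga, gc, Fin.ext_iff]

lemma gb_ne_gc {k : ℕ} (g : Gad k) : gb g ≠ gc g := by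
  obtain ⟨i, j⟩ := g
  fin_cases j <;> simp [gb, gc]

/-- The vertices. -/
inductive Vert (k : ℕ) : Type
  | U (l : Lab k) : Vert k
  | G (l : Lab k) : Vert k
  | S (g : Gad k) : Vert k
  | K (g : Gad k) : Vert k
  | K' (g : Gad k) : Vert k
  deriving DecidableEq, Fintype

/-- The data, for directed pairs of vertices. -/
def dir {k : ℕ} : Vert k → Vert k → Option ℚ
  | .G _, .G _ => some 0
  | .U l, .G m => some (if l = m then 4 / 5 else 0)
  | .U .e1, .U .e2 => some 0
  | .U (.p i), .U .e1 => if i = 0 then some (27 / 125) else none
  | .U (.p i), .U .e2 => if i = 0 then some (36 / 125) else none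
  | .U (.n i), .U .e1 => if i = 0 then some (-36 / 125) else none
  | .U (.n i), .U .e2 => if i = 0 then some (27 / 125) else none
  | .S g, .U l => if l = gb g ∨ l = gc g then some 0 else none
  | .K g, .U l => if l = gb g then some (3 / 5) else if l = ga g then some 0 else none
  | .K g, .S g' => if g = g' then some (4 / 5) else none
  | .K' g, .U l => if l = gc g then some (3 / 5) else if l = ga g then some 0 else none
  | .K' g, .S g' => if g = g' then some (gs g * (4 / 5)) else none
  | _, _ => none

/-- The graph. -/
def graph (k : ℕ) : SimpleGraph (Vert k) :=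
  SimpleGraph.fromRel fun u v => (dir u v).isSome

/-- The data as a symmetric function. -/
def dat {k : ℕ} (u v : Vert k) : ℚ := (dir u v).getD 0 + (dir v u).getD 0

lemma dat_symm {k : ℕ} (u v : Vert k) : dat u v = dat v u := add_comm _ _

/-- The rational point. -/
def x (k : ℕ) : (graph k).edgeSet → ℚ := fun e => Sym2.lift ⟨fun u v => dat u v, dat_symm⟩ e.1

lemma x_apply {k : ℕ} (u v : Vert k) (h : (graph k).Adj u v) : x k ⟨s(u, v), h⟩ = dat u v := rfl

/-- Counting the labels. -/
def labEquiv (k : ℕ) : Lab k ≃ (Unit ⊕ Unit) ⊕ (Fin (k + 1) ⊕ Fin (k + 1)) where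
  toFun
    | .e1 => .inl (.inl ())
    | .e2 => .inl (.inr ())
    | .p i => .inr (.inl i)
    | .n i => .inr (.inr i)
  invFun
    | .inl (.inl _) => .e1
    | .inl (.inr _) => .e2
    | .inr (.inl i) => .p i
    | .inr (.inr i) => .n i
  left_inv l := by cases l <;> rfl
  right_inv l := by rcases l with (_ | _) | (_ | _) <;> rfl

lemma card_Lab (k : ℕ) : Fintype.card (Lab k) = 2 * k + 4 := by
  rw [Fintype.card_congr (labEquiv k)]
  simp
  ring

/-- Counting the vertices. -/
def vertEquiv (k : ℕ) : Vert k ≃ (Lab k ⊕ Lab k) ⊕ (Gad k ⊕ (Gad k ⊕ Gad k)) where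
  toFun
    | .U l => .inl (.inl l)
    | .G l => .inl (.inr l)
    | .S g => .inr (.inl g)
    | .K g => .inr (.inr (.inl g))
    | .K' g => .inr (.inr (.inr g))
  invFun
    | .inl (.inl l) => .U l
    | .inl (.inr l) => .G l
    | .inr (.inl g) => .S g
    | .inr (.inr (.inl g)) => .K g
    | .inr (.inr (.inr g)) => .K' g
  left_inv l := by cases l <;> rfl
  right_inv l := by rcases l with (_ | _) | (_ | (_ | _)) <;> rfl

lemma card_Vert (k : ℕ) : Fintype.card (Vert k) = 16 * k + 8 := by
  rw [Fintype.card_congr (vertEquiv k)]
  simp [card_Lab]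
  ring

/-! ### The numbers -/

/-- `cos (2 ^ i θ)` and `sin (2 ^ i θ)` for the angle `θ` with cosine `3/5` and sine `4/5`. -/
def cs : ℕ → ℚ × ℚ
  | 0 => (3 / 5, 4 / 5)
  | i + 1 => ((cs i).1 ^ 2 - (cs i).2 ^ 2, 2 * (cs i).1 * (cs i).2)

lemma cs_norm (i : ℕ) : (cs i).1 ^ 2 + (cs i).2 ^ 2 = 1 := by
  induction i with
  | zero => norm_num [cs]
  | succ i ih =>
      have : (cs (i + 1)).1 ^ 2 + (cs (i + 1)).2 ^ 2 = ((cs i).1 ^ 2 + (cs i).2 ^ 2) ^ 2 := by
        simp only [cs]; ring
      rw [this, ih, one_pow]

/-- Numerators of the cosines. -/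
def num : ℕ → ℤ
  | 0 => 3
  | i + 1 => 2 * num i ^ 2 - 5 ^ (2 ^ (i + 1))

lemma cs_fst (i : ℕ) : (cs i).1 = num i / 5 ^ (2 ^ i) := by
  induction i with
  | zero => norm_num [cs, num]
  | succ i ih =>
      have h : (cs (i + 1)).1 = 2 * (cs i).1 ^ 2 - 1 := by
        have := cs_norm i
        simp only [cs]
        linarith
      rw [h, ih]
      have h5 : (5 : ℚ) ^ (2 ^ (i + 1)) = (5 ^ (2 ^ i)) ^ 2 := by
        rw [pow_succ 2 i, pow_mul]
      simp only [num]
      push_cast
      rw [h5]
      field_simp

lemma not_five_dvd_num (i : ℕ) : ¬ (5 : ℤ) ∣ num i := by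
  induction i with
  | zero => simp only [num]; omega
  | succ i ih =>
      intro h
      apply ih
      have h1 : (5 : ℤ) ∣ 5 ^ (2 ^ (i + 1)) := dvd_pow_self 5 (by positivity)
      have h2 : (5 : ℤ) ∣ 2 * num i ^ 2 := by
        have := dvd_add h h1
        simpa [num] using this
      have h5 : Prime (5 : ℤ) := by norm_num
      rcases h5.dvd_or_dvd h2 with h3 | h3
      · omega
      · exact h5.dvd_of_dvd_pow h3

/-- The forced entry. -/
def q (k : ℕ) : ℚ := 9 / 25 * (cs k).1

lemma q_den (k : ℕ) : (q k).den = 5 ^ (2 ^ k + 2) := by
  have h1 : q k = (9 * num k : ℤ) / ((5 ^ (2 ^ k + 2) : ℕ) : ℤ) := by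
    rw [q, cs_fst]
    push_cast
    rw [pow_add]
    field_simp
    norm_num
    ring
  have hcop : Nat.Coprime (9 * num k).natAbs (5 ^ (2 ^ k + 2)) := by
    apply Nat.Coprime.pow_right
    rw [Nat.coprime_comm, Nat.Prime.coprime_iff_not_dvd (by norm_num)]
    intro h
    have h2 : (5 : ℤ) ∣ 9 * num k := Int.natCast_dvd.2 h
    have h5 : Prime (5 : ℤ) := by norm_num
    rcases h5.dvd_or_dvd h2 with h3 | h3
    · omega
    · exact not_five_dvd_num k h3
  rw [h1]
  have h3 := Rat.den_div_eq_of_coprime (a := 9 * num k) (b := ((5 ^ (2 ^ k + 2) : ℕ) : ℤ))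
    (by positivity) (by simpa using hcop)
  exact_mod_cast h3

/-! ### The completion -/

noncomputable section

/-- Real values of the cosines and sines. -/
def c (i : ℕ) : ℝ := ((cs i).1 : ℝ)

/-- Real values of the cosines and sines. -/
def s (i : ℕ) : ℝ := ((cs i).2 : ℝ)

lemma c_succ (i : ℕ) : c (i + 1) = c i ^ 2 - s i ^ 2 := by simp [c, s, cs]

lemma s_succ (i : ℕ) : s (i + 1) = 2 * c i * s i := by simp [c, s, cs]

lemma cs_sq (i : ℕ) : c i ^ 2 + s i ^ 2 = 1 := by
  have := cs_norm i
  simp only [c, s]
  exact_mod_cast this

/-- The vectors of the plane. -/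
def pl {k : ℕ} : Lab k → ℝ × ℝ
  | .e1 => (1, 0)
  | .e2 => (0, 1)
  | .p i => (c i, s i)
  | .n i => (-s i, c i)

/-- Inner products of the vectors of the plane. -/
def ip {k : ℕ} (l m : Lab k) : ℝ := (pl l).1 * (pl m).1 + (pl l).2 * (pl m).2

lemma ip_self {k : ℕ} (l : Lab k) : ip l l = 1 := by
  cases l with
  | e1 => simp [ip, pl]
  | e2 => simp [ip, pl]
  | p i => have := cs_sq i; simp only [ip, pl]; linarith
  | n i => have := cs_sq i; simp only [ip, pl]; linarith

lemma ip_comm {k : ℕ} (l m : Lab k) : ip l m = ip m l := by simp only [ip]; ring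

lemma ip_sq_le {k : ℕ} (l m : Lab k) : ip l m ^ 2 ≤ 1 := by
  have h1 := ip_self l
  have h2 := ip_self m
  simp only [ip] at *
  nlinarith [sq_nonneg ((pl l).1 * (pl m).2 - (pl l).2 * (pl m).1)]

lemma ip_gadget {k : ℕ} (g : Gad k) : ip (ga g) (gc g) = gs g * ip (ga g) (gb g) := by
  obtain ⟨i, j⟩ := g
  have h := cs_sq i
  fin_cases j
  · simp only [ip, ga, gb, gc, gs, pl, Fin.val_succ, Fin.val_castSucc, c_succ, s_succ]
    push_cast
    linear_combination c i * h
  · simp only [ip, ga, gb, gc, gs, pl, Fin.val_succ, Fin.val_castSucc, c_succ, s_succ]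
    push_cast
    linear_combination s i * h
  · simp only [ip, ga, gb, gc, gs, pl, Fin.val_succ, Fin.val_castSucc, c_succ, s_succ]
    push_cast
    linear_combination (-s i) * h
  · simp only [ip, ga, gb, gc, gs, pl, Fin.val_succ, Fin.val_castSucc, c_succ, s_succ]
    push_cast
    linear_combination c i * h

/-- Component of the vector of `S g` along that of `G (ga g)`. -/
def tau {k : ℕ} (g : Gad k) : ℝ := -(27 / 80) * ip (ga g) (gb g)

/-- The remaining component of the vector of `S g`. -/
def rho {k : ℕ} (g : Gad k) : ℝ := √(1 - tau g ^ 2)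

lemma tau_rho {k : ℕ} (g : Gad k) : tau g ^ 2 + rho g ^ 2 = 1 := by
  have h : 0 ≤ 1 - tau g ^ 2 := by
    have := ip_sq_le (ga g) (gb g)
    simp only [tau]
    nlinarith [sq_nonneg (ip (ga g) (gb g))]
  rw [rho, Real.sq_sqrt h]
  ring

/-- Coordinates. -/
abbrev Co (k : ℕ) : Type := Fin 2 ⊕ (Lab k ⊕ Gad k)

/-- The vector of `U l`. -/
def wU {k : ℕ} (l : Lab k) : Co k → ℝ
  | .inl i => 3 / 5 * (if i = 0 then (pl l).1 else (pl l).2)
  | .inr (.inl m) => if m = l then 4 / 5 else 0
  | .inr (.inr _) => 0

/-- The vector of `G l`. -/
def wG {k : ℕ} (l : Lab k) : Co k → ℝ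
  | .inl _ => 0
  | .inr (.inl m) => if m = l then 1 else 0
  | .inr (.inr _) => 0

/-- The vector of `S g`. -/
def wS {k : ℕ} (g : Gad k) : Co k → ℝ
  | .inl _ => 0
  | .inr (.inl m) => if m = ga g then tau g else 0
  | .inr (.inr g') => if g' = g then rho g else 0

/-- The vectors of the completion. -/
def w {k : ℕ} : Vert k → Co k → ℝ
  | .U l => wU l
  | .G l => wG l
  | .S g => wS g
  | .K g => (3 / 5 : ℝ) • wU (gb g) + (4 / 5 : ℝ) • wS g
  | .K' g => (3 / 5 : ℝ) • wU (gc g) + ((gs g : ℝ) * (4 / 5)) • wS g

/-- Inner product of coordinate vectors. -/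
def dot {k : ℕ} (a b : Co k → ℝ) : ℝ := ∑ z, a z * b z

lemma dot_comm {k : ℕ} (a b : Co k → ℝ) : dot a b = dot b a := by
  simp only [dot, mul_comm]

lemma dot_add_left {k : ℕ} (a b d : Co k → ℝ) : dot (a + b) d = dot a d + dot b d := by
  simp only [dot, Pi.add_apply, add_mul, Finset.sum_add_distrib]

lemma dot_smul_left {k : ℕ} (r : ℝ) (a d : Co k → ℝ) : dot (r • a) d = r * dot a d := by
  simp only [dot, Pi.smul_apply, smul_eq_mul, Finset.mul_sum, mul_assoc]

lemma dot_add_right {k : ℕ} (a b d : Co k → ℝ) : dot d (a + b) = dot d a + dot d b := by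
  rw [dot_comm, dot_add_left, dot_comm a, dot_comm b]

lemma dot_smul_right {k : ℕ} (r : ℝ) (a d : Co k → ℝ) : dot d (r • a) = r * dot d a := by
  rw [dot_comm, dot_smul_left, dot_comm a]

lemma dot_UU {k : ℕ} (l m : Lab k) :
    dot (wU l) (wU m) = 9 / 25 * ip l m + if l = m then 16 / 25 else 0 := by
  simp only [dot, Fintype.sum_sum_type, wU, Fin.sum_univ_two, Fin.isValue, if_true,
    one_ne_zero, if_false, mul_zero, Finset.sum_const_zero, add_zero, ite_mul, zero_mul, ip]
  rw [Finset.sum_ite_eq' Finset.univ l, if_pos (Finset.mem_univ _)]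
  by_cases h : l = m
  · simp only [h, if_true]; ring
  · simp only [h, if_false]; ring

lemma dot_UG {k : ℕ} (l m : Lab k) : dot (wU l) (wG m) = if l = m then 4 / 5 else 0 := by
  simp only [dot, Fintype.sum_sum_type, wU, wG, mul_zero, Finset.sum_const_zero, zero_add,
    add_zero, ite_mul, zero_mul]
  rw [Finset.sum_ite_eq' Finset.univ l, if_pos (Finset.mem_univ _)]
  by_cases h : l = m <;> simp [h]

lemma dot_GG {k : ℕ} (l m : Lab k) : dot (wG l) (wG m) = if l = m then 1 else 0 := by
  simp only [dot, Fintype.sum_sum_type, wG, mul_zero, Finset.sum_const_zero, zero_add,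
    add_zero, ite_mul, zero_mul, one_mul]
  rw [Finset.sum_ite_eq' Finset.univ l, if_pos (Finset.mem_univ _)]

lemma dot_SU {k : ℕ} (g : Gad k) (l : Lab k) :
    dot (wS g) (wU l) = if l = ga g then tau g * (4 / 5) else 0 := by
  simp only [dot, Fintype.sum_sum_type, wU, wS, mul_zero, Finset.sum_const_zero, zero_add,
    add_zero, ite_mul, zero_mul]
  rw [Finset.sum_ite_eq' Finset.univ (ga g), if_pos (Finset.mem_univ _)]
  by_cases h : l = ga g
  · simp [h]
  · have h' : ¬ ga g = l := fun e => h e.symm
    simp [h, h']

lemma dot_SS {k : ℕ} (g : Gad k) : dot (wS g) (wS g) = 1 := by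
  simp only [dot, Fintype.sum_sum_type, wS, mul_zero, Finset.sum_const_zero, zero_add,
    ite_mul, zero_mul]
  rw [Finset.sum_ite_eq' Finset.univ (ga g), if_pos (Finset.mem_univ _),
    Finset.sum_ite_eq' Finset.univ g, if_pos (Finset.mem_univ _)]
  simp only [if_true]
  have := tau_rho g
  linarith

lemma dot_ww_diag {k : ℕ} (v : Vert k) : dot (w v) (w v) = 1 := by
  cases v with
  | U l => simp only [w, dot_UU, ip_self, if_true]; norm_num
  | G l => simp only [w, dot_GG, if_true]
  | S g => exact dot_SS g
  | K g =>
      simp only [w, dot_add_left, dot_add_right, dot_smul_left, dot_smul_right, dot_UU, dot_SS,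
        dot_SU, dot_comm (wU _) (wS _), (ga_ne_gb g).symm, ip_self, if_true, if_false]
      norm_num
  | K' g =>
      have h : (gs g : ℝ) * gs g = 1 := by exact_mod_cast gs_sq g
      simp only [w, dot_add_left, dot_add_right, dot_smul_left, dot_smul_right, dot_UU, dot_SS,
        dot_SU, dot_comm (wU _) (wS _), (ga_ne_gc g).symm, ip_self, if_true, if_false]
      linear_combination (16 / 25) * h

lemma dir_other {k : ℕ} (u v : Vert k) (a : ℚ) (h : dir u v = some a) :
    (dir v u).getD 0 = 0 := by
  cases u with
  | U l =>
      cases v with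
      | U m => cases l <;> cases m <;> simp_all [dir]
      | G m => simp [dir]
      | S g => simp [dir] at h
      | K g => simp [dir] at h
      | K' g => simp [dir] at h
  | G l =>
      cases v with
      | G m => simp [dir]
      | U m => simp [dir] at h
      | S g => simp [dir] at h
      | K g => simp [dir] at h
      | K' g => simp [dir] at h
  | S g =>
      cases v <;> simp_all [dir]
  | K g =>
      cases v <;> simp_all [dir]
  | K' g =>
      cases v <;> simp_all [dir]

lemma dot_eq_dir {k : ℕ} (u v : Vert k) (huv : u ≠ v) (a : ℚ) (h : dir u v = some a) :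
    dot (w u) (w v) = a := by
  cases u with
  | U l =>
      cases v with
      | U m =>
          rw [w, w, dot_UU]
          cases l with
          | e1 =>
              cases m with
              | e2 => simp only [dir, Option.some.injEq] at h; subst h; simp [ip, pl]
              | e1 => simp [dir] at h
              | p i => simp [dir] at h
              | n i => simp [dir] at h
          | e2 => cases m <;> simp [dir] at h
          | p i =>
              cases m with
              | e1 =>
                  simp only [dir] at h
                  split_ifs at h with hi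
                  simp only [Option.some.injEq] at h
                  subst h hi
                  simp [ip, pl, c, cs]
                  norm_num
              | e2 =>
                  simp only [dir] at h
                  split_ifs at h with hi
                  simp only [Option.some.injEq] at h
                  subst h hi
                  simp [ip, pl, s, cs]
                  norm_num
              | p j => simp [dir] at h
              | n j => simp [dir] at h
          | n i =>
              cases m with
              | e1 =>
                  simp only [dir] at h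
                  split_ifs at h with hi
                  simp only [Option.some.injEq] at h
                  subst h hi
                  simp [ip, pl, s, cs]
                  norm_num
              | e2 =>
                  simp only [dir] at h
                  split_ifs at h with hi
                  simp only [Option.some.injEq] at h
                  subst h hi
                  simp [ip, pl, c, cs]
                  norm_num
              | p j => simp [dir] at h
              | n j => simp [dir] at h
      | G m =>
          rw [w, w, dot_UG]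
          simp only [dir, Option.some.injEq] at h
          subst h
          by_cases hlm : l = m <;> simp [hlm]
      | S g => simp [dir] at h
      | K g => simp [dir] at h
      | K' g => simp [dir] at h
  | G l =>
      cases v with
      | G m =>
          rw [w, w, dot_GG]
          simp only [dir, Option.some.injEq] at h
          subst h
          have : l ≠ m := fun e => huv (by rw [e])
          simp [this]
      | U m => simp [dir] at h
      | S g => simp [dir] at h
      | K g => simp [dir] at h
      | K' g => simp [dir] at h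
  | S g =>
      cases v with
      | U l =>
          rw [w, w, dot_SU]
          simp only [dir] at h
          split_ifs at h with hl
          simp only [Option.some.injEq] at h
          subst h
          have : l ≠ ga g := by
            rcases hl with rfl | rfl
            · exact (ga_ne_gb g).symm
            · exact (ga_ne_gc g).symm
          simp [this]
      | G m => simp [dir] at h
      | S g => simp [dir] at h
      | K g => simp [dir] at h
      | K' g => simp [dir] at h
  | K g =>
      cases v with
      | U l =>
          simp only [w, dot_add_left, dot_smul_left, dot_UU, dot_SU]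
          simp only [dir] at h
          split_ifs at h with h1 h2
          · simp only [Option.some.injEq] at h
            subst h h1
            simp only [ip_self, if_true, (ga_ne_gb g).symm, if_false]
            norm_num
          · simp only [Option.some.injEq] at h
            subst h h2
            have h3 : ¬ gb g = ga g := (ga_ne_gb g).symm
            simp only [h3, if_true, if_false, tau, ip_comm (gb g) (ga g)]
            push_cast
            ring
      | S g' =>
          simp only [w, dot_add_left, dot_smul_left]
          simp only [dir] at h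
          split_ifs at h with h1
          simp only [Option.some.injEq] at h
          subst h h1
          rw [dot_comm (wU _) (wS _), dot_SU, dot_SS, if_neg (ga_ne_gb g).symm]
          push_cast
          ring
      | G m => simp [dir] at h
      | K g => simp [dir] at h
      | K' g => simp [dir] at h
  | K' g =>
      cases v with
      | U l =>
          simp only [w, dot_add_left, dot_smul_left, dot_UU, dot_SU]
          simp only [dir] at h
          split_ifs at h with h1 h2
          · simp only [Option.some.injEq] at h
            subst h h1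
            simp only [ip_self, if_true, (ga_ne_gc g).symm, if_false]
            norm_num
          · simp only [Option.some.injEq] at h
            subst h h2
            have h3 : ¬ gc g = ga g := (ga_ne_gc g).symm
            simp only [h3, if_true, if_false, tau, ip_comm (gc g) (ga g), ip_gadget g]
            push_cast
            ring
      | S g' =>
          simp only [w, dot_add_left, dot_smul_left]
          simp only [dir] at h
          split_ifs at h with h1
          simp only [Option.some.injEq] at h
          subst h h1
          rw [dot_comm (wU _) (wS _), dot_SU, dot_SS, if_neg (ga_ne_gc g).symm]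
          push_cast
          ring
      | G m => simp [dir] at h
      | K g => simp [dir] at h
      | K' g => simp [dir] at h

/-- The completion. -/
def X (k : ℕ) : Matrix (Vert k) (Vert k) ℝ := Matrix.of fun u v => dot (w u) (w v)

theorem completion (k : ℕ) : IsCompletion (graph k) (x k) (X k) where
  psd := by
    have h := posSemidef_of_sum (fun _ : Co k => (1 : ℝ)) (fun z (v : Vert k) => w v z)
      (fun _ => zero_le_one)
    have : X k = Matrix.of fun u v => ∑ z : Co k, 1 * w u z * w v z := by
      ext u v
      simp only [X, dot, Matrix.of_apply, one_mul]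
    rw [this]
    exact h
  diag := fun v => dot_ww_diag v
  edge := fun u v h => by
    rw [x_apply]
    have h' := h
    unfold graph at h'
    rw [SimpleGraph.fromRel_adj] at h'
    obtain ⟨hne, h1 | h1⟩ := h'
    · obtain ⟨a, ha⟩ := Option.isSome_iff_exists.1 h1
      have h2 := dot_eq_dir u v hne a ha
      have h3 := dir_other u v a ha
      simp only [X, Matrix.of_apply, dat, ha, h3, h2, Option.getD_some, add_zero]
    · obtain ⟨a, ha⟩ := Option.isSome_iff_exists.1 h1
      have h2 := dot_eq_dir v u hne.symm a ha
      have h3 := dir_other v u a ha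
      rw [dot_comm] at h2
      simp only [X, Matrix.of_apply, dat, ha, h3, h2, Option.getD_some, zero_add]

end

end Pool.Agent.Lib.MP_13b08e_lc.Doubling
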