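import Mathlib
import Pool.Agent.Lib.MP_13b08e_lc.Doubling

/-!
The forced entry of the completions of the graphs of the file `Doubling`.
-/

namespace Pool.Agent.Lib.MP_13b08e_lc

section Factor

open scoped MatrixOrder

/-- A positive semidefinite matrix factors. -/
theorem exists_factor {V : Type} [Fintype V] [DecidableEq V] {X : Matrix V V ℝ}
    (hX : X.PosSemidef) : ∃ B : Matrix V V ℝ, X = B.conjTranspose * B := by
  have h0 : 0 ≤ X := hX.nonneg
  refine ⟨CFC.sqrt X, ?_⟩
  have h1 : (CFC.sqrt X).conjTranspose = CFC.sqrt X :=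
    (IsSelfAdjoint.of_nonneg (CFC.sqrt_nonneg X)).star_eq
  rw [h1, CFC.sqrt_mul_sqrt_self X h0]

end Factor

/-- A positive semidefinite matrix is a Gram matrix. -/
theorem exists_gram {V : Type} [Fintype V] [DecidableEq V] {X : Matrix V V ℝ} (hX : X.PosSemidef) :
    ∃ w : V → EuclideanSpace ℝ V, ∀ i j, inner ℝ (w i) (w j) = X i j := by
  obtain ⟨B, hB⟩ := exists_factor hX
  refine ⟨fun i => WithLp.toLp 2 (fun k => B k i), fun i j => ?_⟩
  rw [hB, PiLp.inner_apply, Matrix.mul_apply]
  refine Finset.sum_congr rfl fun k _ => ?_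
  simp [mul_comm]

section Hilbert

variable {H : Type*} [NormedAddCommGroup H] [InnerProductSpace ℝ H]

/-- A vector whose components along two orthogonal vectors exhaust its norm. -/
lemma eq_combination {f g v : H} {r a b : ℝ} (hf : inner ℝ f f = r) (hg : inner ℝ g g = r)
    (hfg : inner ℝ f g = 0) (hv : inner ℝ v v = r) (hvf : inner ℝ v f = r * a)
    (hvg : inner ℝ v g = r * b) (hab : a ^ 2 + b ^ 2 = 1) : v = a • f + b • g := by
  have h : inner ℝ (v - (a • f + b • g)) (v - (a • f + b • g)) = 0 := by
    have hgf : inner ℝ g f = 0 := by rw [real_inner_comm]; exact hfg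
    have hfv : inner ℝ f v = r * a := by rw [real_inner_comm]; exact hvf
    have hgv : inner ℝ g v = r * b := by rw [real_inner_comm]; exact hvg
    simp only [inner_sub_left, inner_sub_right, inner_add_left, inner_add_right,
      real_inner_smul_left, real_inner_smul_right, hf, hg, hfg, hgf, hv, hvf, hvg, hfv, hgv]
    linear_combination (-r) * hab
  rw [inner_self_eq_zero] at h
  exact sub_eq_zero.1 h

end Hilbert

namespace Doubling

variable {k : ℕ}

lemma entry {Y : Matrix (Vert k) (Vert k) ℝ} (hY : IsCompletion (graph k) (x k) Y)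
    (u v : Vert k) (a : ℚ) (h : dir u v = some a) (huv : u ≠ v) : Y u v = a := by
  have hadj : (graph k).Adj u v := by
    unfold graph
    rw [SimpleGraph.fromRel_adj]
    exact ⟨huv, Or.inl (by rw [h]; rfl)⟩
  rw [hY.edge u v hadj, x_apply, dat, h, dir_other u v a h]
  simp

/-- The forced value of the entry at `U (p k)`, `U e1`. -/
theorem forced {Y : Matrix (Vert k) (Vert k) ℝ} (hY : IsCompletion (graph k) (x k) Y) :
    Y (.U (.p (Fin.last k))) (.U .e1) = q k := by
  obtain ⟨w, hw⟩ := exists_gram hY.psd
  have hunit : ∀ v, inner ℝ (w v) (w v) = (1 : ℝ) := fun v => by rw [hw, hY.diag]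
  have hent : ∀ u v a, dir u v = some a → u ≠ v → inner ℝ (w u) (w v) = (a : ℝ) :=
    fun u v a h huv => by rw [hw]; exact entry hY u v a h huv
  -- the gadgets
  have hgad : ∀ g : Gad k, inner ℝ (w (.U (gc g))) (w (.U (ga g))) =
      (gs g : ℝ) * inner ℝ (w (.U (gb g))) (w (.U (ga g))) := by
    intro g
    have hb : inner ℝ (w (.U (gb g))) (w (.S g)) = (0 : ℝ) := by
      rw [real_inner_comm, hent (.S g) (.U (gb g)) 0 (by simp [dir]) (by simp)]; simp
    have hc : inner ℝ (w (.U (gc g))) (w (.S g)) = (0 : ℝ) := by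
      rw [real_inner_comm, hent (.S g) (.U (gc g)) 0 (by simp [dir]) (by simp)]; simp
    have hK : w (.K g) = (3 / 5 : ℝ) • w (.U (gb g)) + (4 / 5 : ℝ) • w (.S g) := by
      refine eq_combination (r := 1) (hunit _) (hunit _) hb (hunit _) ?_ ?_ (by norm_num)
      · rw [hent (.K g) (.U (gb g)) (3 / 5) (by simp [dir]) (by simp)]; norm_num
      · rw [hent (.K g) (.S g) (4 / 5) (by simp [dir]) (by simp)]; norm_num
    have hs : (gs g : ℝ) * gs g = 1 := by exact_mod_cast gs_sq g
    have hK' : w (.K' g) = (3 / 5 : ℝ) • w (.U (gc g)) + ((gs g : ℝ) * (4 / 5)) • w (.S g) := by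
      refine eq_combination (r := 1) (hunit _) (hunit _) hc (hunit _) ?_ ?_ (by
        linear_combination (16 / 25) * hs)
      · rw [hent (.K' g) (.U (gc g)) (3 / 5) (by simp [dir]) (by simp)]; norm_num
      · rw [hent (.K' g) (.S g) (gs g * (4 / 5)) (by simp [dir]) (by simp)]; push_cast; ring
    have h1 : inner ℝ (w (.K g)) (w (.U (ga g))) = (0 : ℝ) := by
      rw [hent (.K g) (.U (ga g)) 0 (by simp [dir, ga_ne_gb g]) (by simp)]; simp
    have h2 : inner ℝ (w (.K' g)) (w (.U (ga g))) = (0 : ℝ) := by
      rw [hent (.K' g) (.U (ga g)) 0 (by simp [dir, ga_ne_gc g]) (by simp)]; simp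
    rw [hK, inner_add_left, real_inner_smul_left, real_inner_smul_left] at h1
    rw [hK', inner_add_left, real_inner_smul_left, real_inner_smul_left] at h2
    linear_combination (5 / 3) * h2 - (5 / 3) * (gs g : ℝ) * h1
  -- the residual vectors
  set r : Lab k → EuclideanSpace ℝ (Vert k) := fun l => w (.U l) - (4 / 5 : ℝ) • w (.G l) with hr
  have hUG : ∀ l m : Lab k, inner ℝ (w (.U l)) (w (.G m)) = if l = m then (4 / 5 : ℝ) else 0 := by
    intro l m
    rw [hent (.U l) (.G m) (if l = m then 4 / 5 else 0) (by simp [dir]) (by simp)]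
    by_cases h : l = m <;> simp [h]
  have hGG : ∀ l m : Lab k, l ≠ m → inner ℝ (w (.G l)) (w (.G m)) = (0 : ℝ) := by
    intro l m hlm
    rw [hent (.G l) (.G m) 0 (by simp [dir]) (by simpa using hlm)]; simp
  have hr_self : ∀ l, inner ℝ (r l) (r l) = (9 / 25 : ℝ) := by
    intro l
    simp only [hr, inner_sub_left, inner_sub_right, real_inner_smul_left, real_inner_smul_right,
      hunit, hUG, real_inner_comm (w (.U l)) (w (.G l)), if_true]
    norm_num
  have hr_ne : ∀ l m, l ≠ m → inner ℝ (r l) (r m) = (inner ℝ (w (.U l)) (w (.U m)) : ℝ) := by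
    intro l m hlm
    have h1 : inner ℝ (w (.G l)) (w (.U m)) = (0 : ℝ) := by
      rw [real_inner_comm, hUG, if_neg hlm.symm]
    simp only [hr, inner_sub_left, inner_sub_right, real_inner_smul_left, real_inner_smul_right,
      hUG, hGG l m hlm, h1, if_neg hlm]
    ring
  have hr_gad : ∀ g : Gad k, inner ℝ (r (gc g)) (r (ga g)) =
      (gs g : ℝ) * inner ℝ (r (gb g)) (r (ga g)) := by
    intro g
    rw [hr_ne _ _ (ga_ne_gc g).symm, hr_ne _ _ (ga_ne_gb g).symm, hgad]
  have h12 : inner ℝ (r .e1) (r .e2) = (0 : ℝ) := by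
    rw [hr_ne _ _ (by simp), hent (.U .e1) (.U .e2) 0 (by simp [dir]) (by simp)]; simp
  have h21 : inner ℝ (r .e2) (r .e1) = (0 : ℝ) := by rw [real_inner_comm]; exact h12
  -- induction
  have key : ∀ (i : ℕ) (hi : i < k + 1), r (.p ⟨i, hi⟩) = c i • r .e1 + s i • r .e2 ∧
      r (.n ⟨i, hi⟩) = (-s i) • r .e1 + c i • r .e2 := by
    intro i
    induction i with
    | zero =>
        intro hi
        have c0 : c 0 = 3 / 5 := by simp [c, cs]
        have s0 : s 0 = 4 / 5 := by simp [s, cs]
        have hz : (⟨0, hi⟩ : Fin (k + 1)) = 0 := rfl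
        rw [hz]
        constructor
        · refine eq_combination (hr_self _) (hr_self _) h12 (hr_self _) ?_ ?_ (cs_sq 0)
          · rw [hr_ne _ _ (by simp), hent (.U (.p 0)) (.U .e1) (27 / 125) (by simp [dir])
              (by simp), c0]
            norm_num
          · rw [hr_ne _ _ (by simp), hent (.U (.p 0)) (.U .e2) (36 / 125) (by simp [dir])
              (by simp), s0]
            norm_num
        · refine eq_combination (hr_self _) (hr_self _) h12 (hr_self _) ?_ ?_ (by
            have := cs_sq 0
            linarith)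
          · rw [hr_ne _ _ (by simp), hent (.U (.n 0)) (.U .e1) (-36 / 125) (by simp [dir])
              (by simp), s0]
            norm_num
          · rw [hr_ne _ _ (by simp), hent (.U (.n 0)) (.U .e2) (27 / 125) (by simp [dir])
              (by simp), c0]
            norm_num
    | succ i ih =>
        intro hi
        have hik : i < k := by omega
        obtain ⟨hp, hn⟩ := ih (by omega)
        set P := r (.p ⟨i, by omega⟩) with hP
        set N := r (.n ⟨i, by omega⟩) with hN
        have hPN : inner ℝ P N = (0 : ℝ) := by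
          rw [hp, hn]
          simp only [inner_add_left, inner_add_right, real_inner_smul_left, real_inner_smul_right,
            hr_self, h12, h21]
          ring
        have e1P : inner ℝ (r .e1) P = 9 / 25 * c i := by
          rw [hp, inner_add_right, real_inner_smul_right, real_inner_smul_right, hr_self, h12]
          ring
        have e2P : inner ℝ (r .e2) P = 9 / 25 * s i := by
          rw [hp, inner_add_right, real_inner_smul_right, real_inner_smul_right, hr_self, h21]
          ring
        have e1N : inner ℝ (r .e1) N = 9 / 25 * (-s i) := by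
          rw [hn, inner_add_right, real_inner_smul_right, real_inner_smul_right, hr_self, h12]
          ring
        have e2N : inner ℝ (r .e2) N = 9 / 25 * c i := by
          rw [hn, inner_add_right, real_inner_smul_right, real_inner_smul_right, hr_self, h21]
          ring
        have g0 := hr_gad (⟨i, hik⟩, 0)
        have g1 := hr_gad (⟨i, hik⟩, 1)
        have g2 := hr_gad (⟨i, hik⟩, 2)
        have g3 := hr_gad (⟨i, hik⟩, 3)
        simp only [ga, gb, gc, gs] at g0 g1 g2 g3
        have hcast : (Fin.castSucc ⟨i, hik⟩ : Fin (k + 1)) = ⟨i, by omega⟩ := rfl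
        have hsucc : (Fin.succ ⟨i, hik⟩ : Fin (k + 1)) = ⟨i + 1, hi⟩ := rfl
        rw [hcast, hsucc] at g0 g1 g2 g3
        rw [← hP, e1P] at g0
        rw [← hN, e1N] at g1
        rw [← hP, e2P] at g2
        rw [← hN, e2N] at g3
        have hp' : r (.p ⟨i + 1, hi⟩) = c i • P + s i • N := by
          refine eq_combination (hr_self _) (hr_self _) hPN (hr_self _) ?_ ?_ (cs_sq i)
          · rw [g0]; push_cast; ring
          · rw [g1]; push_cast; ring
        have hn' : r (.n ⟨i + 1, hi⟩) = (-s i) • P + c i • N := by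
          refine eq_combination (hr_self _) (hr_self _) hPN (hr_self _) ?_ ?_ (by
            have := cs_sq i
            linarith)
          · rw [g2]; push_cast; ring
          · rw [g3]; push_cast; ring
        constructor
        · rw [hp', hp, hn, c_succ, s_succ]
          module
        · rw [hn', hp, hn, c_succ, s_succ]
          module
  have hlast := (key k (by omega)).1
  have hfin : inner ℝ (r (.p (Fin.last k))) (r .e1) = 9 / 25 * c k := by
    have hl : (Fin.last k) = ⟨k, by omega⟩ := rfl
    rw [hl, hlast, inner_add_left, real_inner_smul_left, real_inner_smul_left, hr_self, h21]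
    ring
  rw [hr_ne _ _ (by simp), hw] at hfin
  rw [hfin, q]
  push_cast
  rfl

lemma gs_mem (g : Gad k) : gs g = 1 ∨ gs g = -1 := by
  obtain ⟨i, j⟩ := g
  fin_cases j <;> simp [gs]

/-- The values of the data. -/
lemma dir_mem (u v : Vert k) (a : ℚ) (h : dir u v = some a) :
    a ∈ ({0, 3 / 5, 4 / 5, -4 / 5, 27 / 125, 36 / 125, -36 / 125} : Set ℚ) := by
  have hg : ∀ g : Gad k, gs g * (4 / 5) ∈
      ({0, 3 / 5, 4 / 5, -4 / 5, 27 / 125, 36 / 125, -36 / 125} : Set ℚ) := by
    intro g
    rcases gs_mem g with h1 | h1 <;> rw [h1] <;> norm_num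
  unfold dir at h
  split at h <;> (try split_ifs at h) <;>
    first
      | (simp only [Option.some.injEq] at h; subst h; first | exact hg _ | simp)
      | simp at h

end Doubling

end Pool.Agent.Lib.MP_13b08e_lc
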