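import Mathlib
import Pool.Agent.Lib.MP_13b08e_lc.Forced

/-!
# The gadget: linear relations between the entries of a contraction, by unit vectors

Vertices `e a`, `f a` (two orthonormal families) and, for every linear relation
`∑ ± B(a, b) = 0` with four terms, two further vertices.
-/

namespace Pool.Agent.Lib.MP_13b08e_lc

set_option autoImplicit false

/-- The values used as specified entries. -/
inductive Val : Type
  | zero : Val
  | half : Val
  | nhalf : Val
  | one : Val
  deriving DecidableEq, Fintype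

/-- The rational number meant by a value. -/
def Val.toRat : Val → ℚ
  | .zero => 0
  | .half => 1 / 2
  | .nhalf => -1 / 2
  | .one => 1

/-- A term `± B(a, b)` (`true` is the sign minus). -/
abbrev Term (ι : Type) : Type := Bool × ι × ι

/-- A relation: the sum of the terms is zero. -/
abbrev Rel (ι : Type) : Type := List (Term ι)

/-- Vertices: `e a`, `f a`, `u r`, `w r`. -/
abbrev Vtx (ι : Type) : Type := (ι ⊕ ι) ⊕ (Rel ι ⊕ Rel ι)

/-- The sign of a term. -/
def sg (b : Bool) : ℝ := if b then -1 else 1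

lemma sg_sq (b : Bool) : sg b * sg b = 1 := by cases b <;> simp [sg]

section

variable {ι κ : Type} [DecidableEq ι] [DecidableEq κ]

/-- The specified part of `B`. -/
def crossEnt (cls : ι → κ) (cst : ι → Option Val) (a b : ι) : Option Val :=
  if cls a = cls b then cst a else some .zero

/-- The entries between `u r` and `e a`. -/
def uEnt (r : Rel ι) (a : ι) : Option Val :=
  if r.any (fun t => decide (t.2.1 = a)) then some .half else none

/-- The entries between `w r` and `f b`. -/
def wEnt (r : Rel ι) (b : ι) : Option Val :=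
  if r.any (fun t => decide (t.2.2 = b) && !t.1) then some .half
  else if r.any (fun t => decide (t.2.2 = b)) then some .nhalf else none

/-- The specified entries. -/
def ent (cls : ι → κ) (cst : ι → Option Val) : Vtx ι → Vtx ι → Option Val
  | .inl (.inl _), .inl (.inl _) => some .zero
  | .inl (.inr _), .inl (.inr _) => some .zero
  | .inl (.inl a), .inl (.inr b) => crossEnt cls cst a b
  | .inl (.inr b), .inl (.inl a) => crossEnt cls cst a b
  | .inl (.inl a), .inr (.inl r) => uEnt r a
  | .inr (.inl r), .inl (.inl a) => uEnt r a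
  | .inl (.inr b), .inr (.inr r) => wEnt r b
  | .inr (.inr r), .inl (.inr b) => wEnt r b
  | .inr (.inl r), .inr (.inr r') => if r = r' then some .zero else none
  | .inr (.inr r'), .inr (.inl r) => if r = r' then some .zero else none
  | _, _ => none

lemma ent_symm (cls : ι → κ) (cst : ι → Option Val) (v w : Vtx ι) :
    ent cls cst v w = ent cls cst w v := by
  rcases v with (a | a) | (a | a) <;> rcases w with (b | b) | (b | b) <;> simp [ent]

/-- Well-formed relations: four terms in different classes. -/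
structure Rel.WF (cls : ι → κ) (r : Rel ι) : Prop where
  len : r.length = 4
  nodup : (r.map fun t => cls t.2.1).Nodup
  same : ∀ t ∈ r, cls t.2.1 = cls t.2.2

section Hilbert

variable {H : Type*} [NormedAddCommGroup H] [InnerProductSpace ℝ H]

/-- A unit vector whose components along orthonormal vectors exhaust its norm. -/
lemma eq_sum_of_components {τ : Type*} [DecidableEq τ] (R : Finset τ) (g : τ → H) (c : τ → ℝ)
    (hg : ∀ s ∈ R, ∀ t ∈ R, inner ℝ (g s) (g t) = if s = t then (1 : ℝ) else 0) (u : H)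
    (hu : inner ℝ u u = (1 : ℝ)) (hc : ∀ t ∈ R, inner ℝ u (g t) = c t)
    (hsum : ∑ t ∈ R, c t * c t = 1) : u = ∑ t ∈ R, c t • g t := by
  have h1 : inner ℝ u (∑ t ∈ R, c t • g t) = (1 : ℝ) := by
    rw [inner_sum, ← hsum]
    refine Finset.sum_congr rfl fun t ht => ?_
    rw [real_inner_smul_right, hc t ht]
  have h2 : inner ℝ (∑ t ∈ R, c t • g t) (∑ t ∈ R, c t • g t) = (1 : ℝ) := by
    rw [sum_inner, ← hsum]
    refine Finset.sum_congr rfl fun s hs => ?_
    rw [real_inner_smul_left, inner_sum, Finset.sum_eq_single_of_mem s hs]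
    · rw [real_inner_smul_right, hg s hs s hs, if_pos rfl, mul_one]
    · intro t ht hts
      rw [real_inner_smul_right, hg s hs t ht, if_neg (Ne.symm hts), mul_zero]
  have h : inner ℝ (u - ∑ t ∈ R, c t • g t) (u - ∑ t ∈ R, c t • g t) = (0 : ℝ) := by
    rw [inner_sub_left, inner_sub_right, inner_sub_right, hu, h1, h2, real_inner_comm, h1]
    norm_num
  rw [inner_self_eq_zero] at h
  exact sub_eq_zero.1 h

/-- Data of vectors realizing a contraction with the specified entries and relations. -/
structure Real (cls : ι → κ) (cst : ι → Option Val) (S : Set ι) (R : List (Rel ι))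
    (E F : ι → H) : Prop where
  ee : ∀ a ∈ S, ∀ b ∈ S, inner ℝ (E a) (E b) = if a = b then (1 : ℝ) else 0
  ff : ∀ a ∈ S, ∀ b ∈ S, inner ℝ (F a) (F b) = if a = b then (1 : ℝ) else 0
  off : ∀ a ∈ S, ∀ b ∈ S, cls a ≠ cls b → inner ℝ (E a) (F b) = (0 : ℝ)
  con : ∀ a ∈ S, ∀ b ∈ S, cls a = cls b → ∀ v, cst a = some v →
    inner ℝ (E a) (F b) = (v.toRat : ℝ)
  rel : ∀ r ∈ R, (r.map fun t => sg t.1 * inner ℝ (E t.2.1) (F t.2.2)).sum = (0 : ℝ)

variable {cls : ι → κ} {cst : ι → Option Val}

omit [DecidableEq ι] [DecidableEq κ] in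
lemma Rel.WF.nodup' {r : Rel ι} (h : r.WF cls) : r.Nodup := h.nodup.of_map _

omit [DecidableEq ι] [DecidableEq κ] in
lemma Rel.WF.cls_inj {r : Rel ι} (h : r.WF cls) {s t : Term ι} (hs : s ∈ r) (ht : t ∈ r)
    (hst : cls s.2.1 = cls t.2.1) : s = t :=
  List.inj_on_of_nodup_map h.nodup hs ht hst

omit [DecidableEq κ] in
lemma Rel.WF.card {r : Rel ι} (h : r.WF cls) : r.toFinset.card = 4 := by
  rw [List.toFinset_card_of_nodup h.nodup', h.len]

omit [DecidableEq κ] in
/-- The relation between the vectors: the inner product is a quarter of the sum of the terms. -/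
lemma inner_uw {S : Set ι} {E F : ι → H} {r : Rel ι} (hr : r.WF cls)
    (hS : ∀ t ∈ r, t.2.1 ∈ S ∧ t.2.2 ∈ S)
    (off : ∀ a ∈ S, ∀ b ∈ S, cls a ≠ cls b → inner ℝ (E a) (F b) = (0 : ℝ)) :
    inner ℝ (∑ t ∈ r.toFinset, (1 / 2 : ℝ) • E t.2.1)
      (∑ t ∈ r.toFinset, (sg t.1 / 2) • F t.2.2) =
    (1 / 4 : ℝ) * (r.map fun t => sg t.1 * inner ℝ (E t.2.1) (F t.2.2)).sum := by
  rw [← List.sum_toFinset _ hr.nodup', sum_inner, Finset.mul_sum]
  refine Finset.sum_congr rfl fun s hs => ?_
  rw [List.mem_toFinset] at hs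
  rw [real_inner_smul_left, inner_sum, Finset.sum_eq_single_of_mem s (List.mem_toFinset.2 hs)]
  · rw [real_inner_smul_right]; ring
  · intro t ht hts
    rw [List.mem_toFinset] at ht
    rw [real_inner_smul_right, off _ (hS s hs).1 _ (hS t ht).2, mul_zero]
    rw [← hr.same t ht]
    exact fun h => hts (hr.cls_inj ht hs h.symm)

/-- Soundness of the gadget. -/
theorem real_of_vectors {S : Set ι} {R : List (Rel ι)} (hwf : ∀ r ∈ R, r.WF cls)
    (hS : ∀ r ∈ R, ∀ t ∈ r, t.2.1 ∈ S ∧ t.2.2 ∈ S) (φ : Vtx ι → H)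
    (V : Set (Vtx ι)) (hV1 : ∀ a ∈ S, .inl (.inl a) ∈ V ∧ .inl (.inr a) ∈ V)
    (hV2 : ∀ r ∈ R, .inr (.inl r) ∈ V ∧ .inr (.inr r) ∈ V)
    (hdiag : ∀ v ∈ V, inner ℝ (φ v) (φ v) = (1 : ℝ))
    (hent : ∀ v ∈ V, ∀ w ∈ V, v ≠ w → ∀ x, ent cls cst v w = some x →
      inner ℝ (φ v) (φ w) = (x.toRat : ℝ)) :
    Real cls cst S R (fun a => φ (.inl (.inl a))) (fun a => φ (.inl (.inr a))) := by
  have hee : ∀ a ∈ S, ∀ b ∈ S, inner ℝ (φ (.inl (.inl a))) (φ (.inl (.inl b))) =
      if a = b then (1 : ℝ) else 0 := by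
    intro a ha b hb
    by_cases hab : a = b
    · subst hab; rw [if_pos rfl]; exact hdiag _ (hV1 a ha).1
    · rw [if_neg hab, hent _ (hV1 a ha).1 _ (hV1 b hb).1 (by simpa using hab) .zero rfl]
      simp [Val.toRat]
  have hff : ∀ a ∈ S, ∀ b ∈ S, inner ℝ (φ (.inl (.inr a))) (φ (.inl (.inr b))) =
      if a = b then (1 : ℝ) else 0 := by
    intro a ha b hb
    by_cases hab : a = b
    · subst hab; rw [if_pos rfl]; exact hdiag _ (hV1 a ha).2
    · rw [if_neg hab, hent _ (hV1 a ha).2 _ (hV1 b hb).2 (by simpa using hab) .zero rfl]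
      simp [Val.toRat]
  have hoff : ∀ a ∈ S, ∀ b ∈ S, cls a ≠ cls b →
      inner ℝ (φ (.inl (.inl a))) (φ (.inl (.inr b))) = (0 : ℝ) := by
    intro a ha b hb hab
    rw [hent _ (hV1 a ha).1 _ (hV1 b hb).2 (by simp) .zero (by simp [ent, crossEnt, hab])]
    simp [Val.toRat]
  refine ⟨hee, hff, hoff, ?_, ?_⟩
  · intro a ha b hb hab v hv
    exact hent _ (hV1 a ha).1 _ (hV1 b hb).2 (by simp) v (by simp [ent, crossEnt, hab, hv])
  · intro r hr
    have hw := hwf r hr
    have hm : ∀ {t}, t ∈ r.toFinset → t ∈ r := fun h => List.mem_toFinset.1 h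
    have hu : φ (.inr (.inl r)) = ∑ t ∈ r.toFinset, (1 / 2 : ℝ) • φ (.inl (.inl t.2.1)) := by
      refine eq_sum_of_components r.toFinset (fun t => φ (.inl (.inl t.2.1))) (fun _ => 1 / 2) ?_
        _ (hdiag _ (hV2 r hr).1) ?_ ?_
      · intro s hs t ht
        rw [hee _ (hS r hr s (hm hs)).1 _ (hS r hr t (hm ht)).1]
        by_cases hst : s = t
        · simp [hst]
        · rw [if_neg hst, if_neg]
          exact fun h => hst (hw.cls_inj (hm hs) (hm ht) (congrArg cls h))
      · intro t ht
        rw [hent _ (hV2 r hr).1 _ (hV1 _ (hS r hr t (hm ht)).1).1 (by simp) .half ?_]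
        · simp [Val.toRat]
        · have : r.any (fun t' => decide (t'.2.1 = t.2.1)) = true := by
            rw [List.any_eq_true]; exact ⟨t, hm ht, by simp⟩
          simp only [ent, uEnt, this, if_true]
      · rw [Finset.sum_const, hw.card]; norm_num
    have hw' : φ (.inr (.inr r)) =
        ∑ t ∈ r.toFinset, (sg t.1 / 2) • φ (.inl (.inr t.2.2)) := by
      refine eq_sum_of_components r.toFinset (fun t => φ (.inl (.inr t.2.2)))
        (fun t => sg t.1 / 2) ?_ _ (hdiag _ (hV2 r hr).2) ?_ ?_
      · intro s hs t ht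
        rw [hff _ (hS r hr s (hm hs)).2 _ (hS r hr t (hm ht)).2]
        by_cases hst : s = t
        · simp [hst]
        · rw [if_neg hst, if_neg]
          intro h
          refine hst (hw.cls_inj (hm hs) (hm ht) ?_)
          rw [hw.same s (hm hs), hw.same t (hm ht), h]
      · intro t ht
        have hany : r.any (fun t' => decide (t'.2.2 = t.2.2)) = true := by
          rw [List.any_eq_true]; exact ⟨t, hm ht, by simp⟩
        have huniq : ∀ t' ∈ r, t'.2.2 = t.2.2 → t' = t := by
          intro t' ht' h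
          refine hw.cls_inj ht' (hm ht) ?_
          rw [hw.same t' ht', hw.same t (hm ht), h]
        by_cases hs : t.1 = true
        · have hf : r.any (fun t' => decide (t'.2.2 = t.2.2) && !t'.1) = false := by
            rw [List.any_eq_false]
            intro t' ht'
            by_cases h : t'.2.2 = t.2.2
            · rw [huniq t' ht' h]; simp [hs]
            · simp [h]
          rw [hent _ (hV2 r hr).2 _ (hV1 _ (hS r hr t (hm ht)).2).2 (by simp) .nhalf ?_]
          · simp [Val.toRat, sg, hs]
          · simp only [ent, wEnt, hf, hany, if_true]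
            simp
        · have hs' : t.1 = false := by simpa using hs
          have hf : r.any (fun t' => decide (t'.2.2 = t.2.2) && !t'.1) = true := by
            rw [List.any_eq_true]
            exact ⟨t, hm ht, by simp [hs']⟩
          rw [hent _ (hV2 r hr).2 _ (hV1 _ (hS r hr t (hm ht)).2).2 (by simp) .half ?_]
          · simp [Val.toRat, sg, hs']
          · simp only [ent, wEnt, hf, if_true]
      · have : ∀ t ∈ r.toFinset, sg t.1 / 2 * (sg t.1 / 2) = 1 / 4 := by
          intro t _
          have := sg_sq t.1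
          linarith
        rw [Finset.sum_congr rfl this, Finset.sum_const, hw.card]; norm_num
    have h0 : inner ℝ (φ (.inr (.inl r))) (φ (.inr (.inr r))) = (0 : ℝ) := by
      rw [hent _ (hV2 r hr).1 _ (hV2 r hr).2 (by simp) .zero (by simp [ent])]
      simp [Val.toRat]
    rw [hu, hw', inner_uw hw (hS r hr) hoff] at h0
    linarith

/-- The vectors of a realization. -/
noncomputable def vecs (E F : ι → H) : Vtx ι → H
  | .inl (.inl a) => E a
  | .inl (.inr a) => F a
  | .inr (.inl r) => ∑ t ∈ r.toFinset, (1 / 2 : ℝ) • E t.2.1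
  | .inr (.inr r) => ∑ t ∈ r.toFinset, (sg t.1 / 2) • F t.2.2

/-- Completeness of the gadget. -/
theorem vectors_of_real {S : Set ι} {R : List (Rel ι)} (hwf : ∀ r ∈ R, r.WF cls)
    (hS : ∀ r ∈ R, ∀ t ∈ r, t.2.1 ∈ S ∧ t.2.2 ∈ S) {E F : ι → H}
    (h : Real cls cst S R E F) (V : Set (Vtx ι))
    (hV1 : ∀ a, .inl (.inl a) ∈ V → a ∈ S) (hV1' : ∀ a, .inl (.inr a) ∈ V → a ∈ S)
    (hV2 : ∀ r, .inr (.inl r) ∈ V → r ∈ R) (hV2' : ∀ r, .inr (.inr r) ∈ V → r ∈ R) :
    (∀ v ∈ V, inner ℝ (vecs E F v) (vecs E F v) = (1 : ℝ)) ∧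
    (∀ v ∈ V, ∀ w ∈ V, v ≠ w → ∀ x, ent cls cst v w = some x →
      inner ℝ (vecs E F v) (vecs E F w) = (x.toRat : ℝ)) := by
  -- inner products of the sums
  have hm : ∀ {r : Rel ι} {t : Term ι}, t ∈ r.toFinset → t ∈ r := fun h => List.mem_toFinset.1 h
  have hue : ∀ r ∈ R, ∀ a ∈ S, inner ℝ (∑ t ∈ r.toFinset, (1 / 2 : ℝ) • E t.2.1) (E a) =
      if r.any (fun t => decide (t.2.1 = a)) then (1 / 2 : ℝ) else 0 := by
    intro r hr a ha
    rw [sum_inner]
    split_ifs with hany
    · rw [List.any_eq_true] at hany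
      obtain ⟨t, ht, hta⟩ := hany
      rw [decide_eq_true_eq] at hta
      rw [Finset.sum_eq_single_of_mem t (List.mem_toFinset.2 ht)]
      · rw [real_inner_smul_left, h.ee _ (hS r hr t ht).1 _ ha, if_pos hta, mul_one]
      · intro s hs hst
        rw [real_inner_smul_left, h.ee _ (hS r hr s (hm hs)).1 _ ha, if_neg, mul_zero]
        intro hsa
        exact hst ((hwf r hr).cls_inj (hm hs) ht (congrArg cls (hsa.trans hta.symm)))
    · refine Finset.sum_eq_zero fun s hs => ?_
      rw [real_inner_smul_left, h.ee _ (hS r hr s (hm hs)).1 _ ha, if_neg, mul_zero]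
      intro hsa
      apply hany
      rw [List.any_eq_true]
      exact ⟨s, hm hs, by simp [hsa]⟩
  have hwf' : ∀ r ∈ R, ∀ a ∈ S, ∀ x, wEnt r a = some x →
      inner ℝ (∑ t ∈ r.toFinset, (sg t.1 / 2) • F t.2.2) (F a) = (x.toRat : ℝ) := by
    intro r hr a ha x hx
    have hkey : ∀ t ∈ r, t.2.2 = a →
        inner ℝ (∑ t ∈ r.toFinset, (sg t.1 / 2) • F t.2.2) (F a) = sg t.1 / 2 := by
      intro t ht hta
      rw [sum_inner, Finset.sum_eq_single_of_mem t (List.mem_toFinset.2 ht)]
      · rw [real_inner_smul_left, h.ff _ (hS r hr t ht).2 _ ha, if_pos hta, mul_one]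
      · intro s hs hst
        rw [real_inner_smul_left, h.ff _ (hS r hr s (hm hs)).2 _ ha, if_neg, mul_zero]
        intro hsa
        refine hst ((hwf r hr).cls_inj (hm hs) ht ?_)
        rw [(hwf r hr).same s (hm hs), (hwf r hr).same t ht, hsa, hta]
    unfold wEnt at hx
    split_ifs at hx with h1 h2
    · rw [List.any_eq_true] at h1
      obtain ⟨t, ht, hta⟩ := h1
      simp only [Bool.and_eq_true, decide_eq_true_eq, Bool.not_eq_true'] at hta
      rw [hkey t ht hta.1]
      simp only [Option.some.injEq] at hx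
      subst hx
      simp [sg, hta.2, Val.toRat]
    · rw [List.any_eq_true] at h2
      obtain ⟨t, ht, hta⟩ := h2
      simp only [decide_eq_true_eq] at hta
      have hs : t.1 = true := by
        by_contra hs
        apply h1
        rw [List.any_eq_true]
        exact ⟨t, ht, by simp [hta, hs]⟩
      rw [hkey t ht hta]
      simp only [Option.some.injEq] at hx
      subst hx
      simp [sg, hs, Val.toRat]
  constructor
  · rintro ((a | a) | (r | r)) hv
    · have := h.ee a (hV1 a hv) a (hV1 a hv)
      rwa [if_pos rfl] at this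
    · have := h.ff a (hV1' a hv) a (hV1' a hv)
      rwa [if_pos rfl] at this
    · have hr := hV2 r hv
      change inner ℝ (∑ t ∈ r.toFinset, (1 / 2 : ℝ) • E t.2.1)
        (∑ t ∈ r.toFinset, (1 / 2 : ℝ) • E t.2.1) = (1 : ℝ)
      rw [inner_sum]
      have : ∀ t ∈ r.toFinset, inner ℝ (∑ t ∈ r.toFinset, (1 / 2 : ℝ) • E t.2.1)
          ((1 / 2 : ℝ) • E t.2.1) = 1 / 4 := by
        intro t ht
        have hany : r.any (fun t' => decide (t'.2.1 = t.2.1)) = true := by
          rw [List.any_eq_true]; exact ⟨t, hm ht, by simp⟩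
        rw [real_inner_smul_right, hue r hr _ (hS r hr t (hm ht)).1, if_pos hany]
        norm_num
      rw [Finset.sum_congr rfl this, Finset.sum_const, (hwf r hr).card]
      norm_num
    · have hr := hV2' r hv
      change inner ℝ (∑ t ∈ r.toFinset, (sg t.1 / 2) • F t.2.2)
        (∑ t ∈ r.toFinset, (sg t.1 / 2) • F t.2.2) = (1 : ℝ)
      rw [sum_inner]
      have : ∀ t ∈ r.toFinset, inner ℝ ((sg t.1 / 2) • F t.2.2)
          (∑ t ∈ r.toFinset, (sg t.1 / 2) • F t.2.2) = 1 / 4 := by
        intro t ht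
        rw [real_inner_smul_left, inner_sum, Finset.sum_eq_single_of_mem t ht]
        · rw [real_inner_smul_right, h.ff _ (hS r hr t (hm ht)).2 _ (hS r hr t (hm ht)).2,
            if_pos rfl]
          have := sg_sq t.1
          linarith
        · intro s hs hst
          rw [real_inner_smul_right, h.ff _ (hS r hr t (hm ht)).2 _ (hS r hr s (hm hs)).2,
            if_neg, mul_zero]
          intro hts
          refine hst ((hwf r hr).cls_inj (hm hs) (hm ht) ?_)
          rw [(hwf r hr).same s (hm hs), (hwf r hr).same t (hm ht), hts]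
      rw [Finset.sum_congr rfl this, Finset.sum_const, (hwf r hr).card]
      norm_num
  · have huE : ∀ r ∈ R, ∀ a ∈ S, ∀ x, uEnt r a = some x →
        inner ℝ (∑ t ∈ r.toFinset, (1 / 2 : ℝ) • E t.2.1) (E a) = (x.toRat : ℝ) := by
      intro r hr a ha x hx
      rw [hue r hr a ha]
      unfold uEnt at hx
      split_ifs at hx with h1
      simp only [Option.some.injEq] at hx
      subst hx
      rw [if_pos h1]
      simp [Val.toRat]
    have hcross : ∀ a ∈ S, ∀ b ∈ S, ∀ x, crossEnt cls cst a b = some x →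
        inner ℝ (E a) (F b) = (x.toRat : ℝ) := by
      intro a ha b hb x hx
      unfold crossEnt at hx
      split_ifs at hx with h1
      · exact h.con a ha b hb h1 x hx
      · simp only [Option.some.injEq] at hx
        subst hx
        rw [h.off a ha b hb h1]
        simp [Val.toRat]
    have huw : ∀ r ∈ R, inner ℝ (∑ t ∈ r.toFinset, (1 / 2 : ℝ) • E t.2.1)
        (∑ t ∈ r.toFinset, (sg t.1 / 2) • F t.2.2) = (0 : ℝ) := by
      intro r hr
      rw [inner_uw (hwf r hr) (hS r hr) h.off, h.rel r hr, mul_zero]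
    rintro ((a | a) | (r | r)) hv ((b | b) | (r' | r')) hw hvw x hx
    · simp only [ent, Option.some.injEq] at hx
      subst hx
      have := h.ee a (hV1 a hv) b (hV1 b hw)
      rw [if_neg (fun hab => hvw (by rw [hab]))] at this
      simpa [Val.toRat, vecs] using this
    · exact hcross a (hV1 a hv) b (hV1' b hw) x hx
    · have := huE r' (hV2 r' hw) a (hV1 a hv) x hx
      rw [real_inner_comm] at this
      exact this
    · simp [ent] at hx
    · have := hcross b (hV1 b hw) a (hV1' a hv) x hx
      rw [real_inner_comm] at this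
      exact this
    · simp only [ent, Option.some.injEq] at hx
      subst hx
      have := h.ff a (hV1' a hv) b (hV1' b hw)
      rw [if_neg (fun hab => hvw (by rw [hab]))] at this
      simpa [Val.toRat, vecs] using this
    · simp [ent] at hx
    · have := hwf' r' (hV2' r' hw) a (hV1' a hv) x hx
      rw [real_inner_comm] at this
      exact this
    · exact huE r (hV2 r hv) b (hV1 b hw) x hx
    · simp [ent] at hx
    · simp [ent] at hx
    · simp only [ent] at hx
      split_ifs at hx with hrr
      subst hrr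
      simp only [Option.some.injEq] at hx
      subst hx
      have := huw r (hV2 r hv)
      simpa [Val.toRat, vecs] using this
    · simp [ent] at hx
    · exact hwf' r (hV2' r hv) b (hV1' b hw) x hx
    · simp only [ent] at hx
      split_ifs at hx with hrr
      subst hrr
      simp only [Option.some.injEq] at hx
      subst hx
      have := huw r' (hV2 r' hw)
      rw [real_inner_comm] at this
      simpa [Val.toRat, vecs] using this
    · simp [ent] at hx

end Hilbert

end

end Pool.Agent.Lib.MP_13b08e_lc
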