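import Mathlib
import Pool.Agent.Lib.MP_13b08e_lc.Gadget

/-!
# Contractions and pairs of orthonormal families
-/

namespace Pool.Agent.Lib.MP_13b08e_lc

set_option autoImplicit false

section

variable {ι κ : Type} [DecidableEq ι] [DecidableEq κ]

/-- A block diagonal matrix is positive semidefinite if its blocks are. -/
theorem posSemidef_of_blocks (cls : ι → κ) (S : Finset ι) (M : ι → ι → ℝ)
    (hsymm : ∀ a b, M a b = M b a) (off : ∀ a b, cls a ≠ cls b → M a b = 0)
    (h : ∀ (c : κ) (x : ι → ℝ),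
      0 ≤ ∑ a ∈ S with cls a = c, ∑ b ∈ S with cls b = c, x a * M a b * x b) :
    (Matrix.of fun a b : S => M a b).PosSemidef := by
  refine Matrix.PosSemidef.of_dotProduct_mulVec_nonneg ?_ fun x => ?_
  · ext a b
    simp [Matrix.conjTranspose_apply, hsymm]
  · let y : ι → ℝ := fun a => if ha : a ∈ S then x ⟨a, ha⟩ else 0
    have hy : ∀ a : S, x a = y a := fun a => by simp [y]
    have h1 : star x ⬝ᵥ (Matrix.of fun a b : S => M a b).mulVec x =
        ∑ a ∈ S, ∑ b ∈ S, y a * M a b * y b := by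
      simp only [dotProduct, Matrix.mulVec, Pi.star_apply, star_trivial, Matrix.of_apply]
      rw [← Finset.sum_coe_sort S (fun a => ∑ b ∈ S, y a * M a b * y b)]
      refine Finset.sum_congr rfl fun a _ => ?_
      rw [← Finset.sum_coe_sort S (fun b => y a * M a b * y b), Finset.mul_sum]
      refine Finset.sum_congr rfl fun b _ => ?_
      rw [hy, hy]; ring
    rw [h1]
    have h2 : ∑ a ∈ S, ∑ b ∈ S, y a * M a b * y b = ∑ c ∈ S.image cls,
        ∑ a ∈ S with cls a = c, ∑ b ∈ S with cls b = c, y a * M a b * y b := by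
      rw [← Finset.sum_fiberwise_of_maps_to (g := cls) (t := S.image cls)
        (fun a ha => Finset.mem_image_of_mem _ ha)]
      refine Finset.sum_congr rfl fun c _ => Finset.sum_congr rfl fun a ha => ?_
      rw [Finset.mem_filter] at ha
      rw [Finset.sum_filter]
      refine Finset.sum_congr rfl fun b _ => ?_
      split_ifs with hb
      · rfl
      · rw [off a b (fun h => hb (by rw [← h, ha.2])), mul_zero, zero_mul]
    rw [h2]
    exact Finset.sum_nonneg fun c _ => h c y

/-- A symmetric contraction is the matrix of inner products of two orthonormal families. -/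
theorem exists_families (S : Finset ι) (B : ι → ι → ℝ)
    (hp : (Matrix.of fun a b : S => ((if (a : ι) = b then (1 : ℝ) else 0) + B a b)).PosSemidef)
    (hm : (Matrix.of fun a b : S => ((if (a : ι) = b then (1 : ℝ) else 0) - B a b)).PosSemidef) :
    ∃ (E F : ι → WithLp 2 (EuclideanSpace ℝ S × EuclideanSpace ℝ S)),
      (∀ a ∈ S, ∀ b ∈ S, inner ℝ (E a) (E b) = if a = b then (1 : ℝ) else 0) ∧
      (∀ a ∈ S, ∀ b ∈ S, inner ℝ (F a) (F b) = if a = b then (1 : ℝ) else 0) ∧
      (∀ a ∈ S, ∀ b ∈ S, inner ℝ (E a) (F b) = B a b) := by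
  obtain ⟨g, hg⟩ := exists_gram (hp.smul (a := (1 / 2 : ℝ)) (by norm_num))
  obtain ⟨h, hh⟩ := exists_gram (hm.smul (a := (1 / 2 : ℝ)) (by norm_num))
  let g' : ι → EuclideanSpace ℝ S := fun a => if ha : a ∈ S then g ⟨a, ha⟩ else 0
  let h' : ι → EuclideanSpace ℝ S := fun a => if ha : a ∈ S then h ⟨a, ha⟩ else 0
  have hg' : ∀ a ∈ S, ∀ b ∈ S, inner ℝ (g' a) (g' b) =
      (1 / 2 : ℝ) * ((if a = b then (1 : ℝ) else 0) + B a b) := by
    intro a ha b hb
    simp only [g', dif_pos ha, dif_pos hb]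
    rw [hg]
    simp
  have hh' : ∀ a ∈ S, ∀ b ∈ S, inner ℝ (h' a) (h' b) =
      (1 / 2 : ℝ) * ((if a = b then (1 : ℝ) else 0) - B a b) := by
    intro a ha b hb
    simp only [h', dif_pos ha, dif_pos hb]
    rw [hh]
    simp
  refine ⟨fun a => WithLp.toLp 2 (g' a, h' a), fun a => WithLp.toLp 2 (g' a, -h' a), ?_, ?_, ?_⟩
  · intro a ha b hb
    rw [WithLp.prod_inner_apply]
    simp only
    rw [hg' a ha b hb, hh' a ha b hb]
    ring
  · intro a ha b hb
    rw [WithLp.prod_inner_apply]
    simp only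
    rw [inner_neg_neg, hg' a ha b hb, hh' a ha b hb]
    ring
  · intro a ha b hb
    rw [WithLp.prod_inner_apply]
    simp only
    rw [inner_neg_right, hg' a ha b hb, hh' a ha b hb]
    ring

section Hilbert

variable {H : Type*} [NormedAddCommGroup H] [InnerProductSpace ℝ H]

omit [DecidableEq ι] in
/-- Two orthonormal families give a contraction. -/
theorem quad_le {n : ℕ} (E F : ι → H) (idx : Fin n → ι)
    (hE : ∀ i j, inner ℝ (E (idx i)) (E (idx j)) = if i = j then (1 : ℝ) else 0)
    (hF : ∀ i j, inner ℝ (F (idx i)) (F (idx j)) = if i = j then (1 : ℝ) else 0)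
    (z : Fin n → ℝ) :
    ∑ i, ∑ j, z i * inner ℝ (E (idx i)) (F (idx j)) * z j ≤ ∑ i, z i * z i := by
  have hnorm : ∀ (G : ι → H), (∀ i j, inner ℝ (G (idx i)) (G (idx j)) =
      if i = j then (1 : ℝ) else 0) → inner ℝ (∑ i, z i • G (idx i)) (∑ i, z i • G (idx i)) =
      ∑ i, z i * z i := by
    intro G hG
    rw [sum_inner]
    refine Finset.sum_congr rfl fun i _ => ?_
    rw [real_inner_smul_left, inner_sum, Finset.sum_eq_single i]
    · rw [real_inner_smul_right, hG, if_pos rfl]; ring
    · intro j _ hji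
      rw [real_inner_smul_right, hG, if_neg hji.symm, mul_zero]
    · intro h; exact absurd (Finset.mem_univ i) h
  have h1 : ∑ i, ∑ j, z i * inner ℝ (E (idx i)) (F (idx j)) * z j =
      inner ℝ (∑ i, z i • E (idx i)) (∑ i, z i • F (idx i)) := by
    rw [sum_inner]
    refine Finset.sum_congr rfl fun i _ => ?_
    rw [real_inner_smul_left, inner_sum, Finset.mul_sum]
    refine Finset.sum_congr rfl fun j _ => ?_
    rw [real_inner_smul_right]; ring
  rw [h1]
  have h2 := real_inner_le_norm (∑ i, z i • E (idx i)) (∑ i, z i • F (idx i))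
  have h3 := hnorm E hE
  have h4 := hnorm F hF
  rw [real_inner_self_eq_norm_sq] at h3 h4
  nlinarith [sq_nonneg (‖∑ i, z i • E (idx i)‖ - ‖∑ i, z i • F (idx i)‖)]

end Hilbert

end

end Pool.Agent.Lib.MP_13b08e_lc
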