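import Mathlib
import Pool.Agent.Lib.MP_13b08e_lc.BdLimit

set_option autoImplicit false

/-!
# A bound for the smallest solutions of semidefinite programs

If `A₀ + y₁ A₁ + ... + y_m A_m` is positive semidefinite for some real `y`, then this is so for some
`y` of size at most doubly exponential in the size of the input (Porkolab and Khachiyan).  The
proof is elementary: the solutions are the zeros of a sum of squares `F`; the minima of
`F + ε ∑ x_i^6 / 6` satisfy `x_i^5 = - ε⁻¹ ∂F/∂x_i`, from which a monic equation for every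
coordinate is obtained, and `ε ⟶ 0`.
-/

namespace Pool.Agent.Lib.MP_13b08e_lc

open Polynomial Filter Topology Matrix

section Factor

open scoped MatrixOrder

/-- A positive semidefinite matrix factors. -/
theorem bd_exists_factor {V : Type} [Fintype V] [DecidableEq V] {X : Matrix V V ℝ}
    (hX : X.PosSemidef) : ∃ B : Matrix V V ℝ, X = B.conjTranspose * B := by
  have h0 : 0 ≤ X := hX.nonneg
  refine ⟨CFC.sqrt X, ?_⟩
  have h1 : (CFC.sqrt X).conjTranspose = CFC.sqrt X :=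
    (IsSelfAdjoint.of_nonneg (CFC.sqrt_nonneg X)).star_eq
  rw [h1, CFC.sqrt_mul_sqrt_self X h0]

end Factor

section Int

variable {n m : ℕ} (B : Fin (m + 1) → Matrix (Fin n) (Fin n) ℤ)

/-- the variables: `y` and the entries of `Z` -/
abbrev Vars (n m : ℕ) : Type := Fin m ⊕ (Fin n × Fin n)

/-- the entries of `B(y) - Z Zᵀ` -/
def Ent (i j : Fin n) (x : Vars n m → ℝ) : ℝ :=
  (B 0 i j : ℝ) + (∑ l : Fin m, (B l.succ i j : ℝ) * x (Sum.inl l) +
    - ∑ k : Fin n, x (Sum.inr (i, k)) * x (Sum.inr (j, k)))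

/-- the partial derivatives of the entries -/
def dEnt (i j : Fin n) (s : Vars n m) (x : Vars n m → ℝ) : ℝ :=
  (∑ l : Fin m, (B l.succ i j : ℝ) * (if Sum.inl l = s then 1 else 0) +
    - ∑ k : Fin n, ((if Sum.inr (i, k) = s then 1 else 0) * x (Sum.inr (j, k)) +
      x (Sum.inr (i, k)) * (if Sum.inr (j, k) = s then 1 else 0)))

theorem hasDerivAt_coord (x : Vars n m → ℝ) (s r : Vars n m) :
    HasDerivAt (fun t => Function.update x s t r) (if r = s then (1 : ℝ) else 0) (x s) := by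
  by_cases h : r = s
  · subst h
    simp only [Function.update_self, if_true]
    exact hasDerivAt_id _
  · simp only [Function.update_of_ne h, if_neg h]
    exact hasDerivAt_const _ _

theorem hasDerivAt_Ent (i j : Fin n) (x : Vars n m → ℝ) (s : Vars n m) :
    HasDerivAt (fun t => Ent B i j (Function.update x s t)) (dEnt B i j s x) (x s) := by
  unfold Ent dEnt
  have h1 : HasDerivAt (fun t => ∑ l : Fin m, (B l.succ i j : ℝ) * Function.update x s t (Sum.inl l))
      (∑ l : Fin m, (B l.succ i j : ℝ) * (if Sum.inl l = s then 1 else 0)) (x s) :=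
    HasDerivAt.fun_sum fun l _ => (hasDerivAt_coord x s (Sum.inl l)).const_mul _
  have h2 : HasDerivAt (fun t => ∑ k : Fin n, Function.update x s t (Sum.inr (i, k)) *
      Function.update x s t (Sum.inr (j, k)))
      (∑ k : Fin n, ((if Sum.inr (i, k) = s then 1 else 0) * x (Sum.inr (j, k)) +
      x (Sum.inr (i, k)) * (if Sum.inr (j, k) = s then 1 else 0))) (x s) := by
    refine HasDerivAt.fun_sum fun k _ => ?_
    have h3 := (hasDerivAt_coord x s (Sum.inr (i, k))).mul (hasDerivAt_coord x s (Sum.inr (j, k)))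
    simp only [Function.update_eq_self] at h3
    exact h3
  exact (h1.add h2.neg).const_add _

theorem isPres_Ent {H : ℕ} (hB : ∀ l i j, (B l i j).natAbs ≤ H) (i j : Fin n) :
    IsPres 2 ((m + 1) * H + n) (Ent B i j) := by
  have h1 : IsPres (σ := Vars n m) 2 H (fun _ => (B 0 i j : ℝ)) :=
    (IsPres.const (B 0 i j)).mono (by norm_num) (hB 0 i j)
  have h2 : IsPres (σ := Vars n m) 2 (∑ l : Fin m, H)
      (fun x => ∑ l : Fin m, (B l.succ i j : ℝ) * x (Sum.inl l)) := by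
    refine IsPres.sum _ fun l _ => ?_
    refine ((IsPres.const (B l.succ i j)).mul (IsPres.coord (Sum.inl l))).mono (by norm_num) ?_
    rw [mul_one]
    exact hB _ _ _
  have h3 : IsPres (σ := Vars n m) 2 (∑ k : Fin n, 1)
      (fun x => ∑ k : Fin n, x (Sum.inr (i, k)) * x (Sum.inr (j, k))) := by
    refine IsPres.sum _ fun k _ => ?_
    exact ((IsPres.coord (Sum.inr (i, k))).mul (IsPres.coord (Sum.inr (j, k)))).mono
      (by norm_num) (by norm_num)
  refine (h1.add (h2.add h3.neg)).mono le_rfl ?_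
  simp only [Finset.sum_const, Finset.card_univ, Fintype.card_fin, smul_eq_mul, mul_one]
  nlinarith

theorem isPres_ite (p : Prop) [Decidable p] :
    IsPres (σ := Vars n m) 0 1 (fun _ => (if p then (1 : ℝ) else 0)) := by
  split_ifs with h
  · simpa using (IsPres.const (σ := Vars n m) 1)
  · simpa using (IsPres.const (σ := Vars n m) 0).mono (k' := 0) (C' := 1) le_rfl (by norm_num)

theorem isPres_dEnt {H : ℕ} (hB : ∀ l i j, (B l i j).natAbs ≤ H) (i j : Fin n) (s : Vars n m) :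
    IsPres 1 (m * H + 2 * n) (dEnt B i j s) := by
  have h2 : IsPres (σ := Vars n m) 1 (∑ l : Fin m, H)
      (fun _ => ∑ l : Fin m, (B l.succ i j : ℝ) * (if Sum.inl l = s then 1 else 0)) := by
    refine IsPres.sum _ fun l _ => ?_
    refine ((IsPres.const (B l.succ i j)).mul (isPres_ite _)).mono (by norm_num) ?_
    rw [mul_one]
    exact hB _ _ _
  have h3 : IsPres (σ := Vars n m) 1 (∑ k : Fin n, 2)
      (fun x => ∑ k : Fin n, ((if Sum.inr (i, k) = s then 1 else 0) * x (Sum.inr (j, k)) +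
      x (Sum.inr (i, k)) * (if Sum.inr (j, k) = s then 1 else 0))) := by
    refine IsPres.sum _ fun k _ => ?_
    exact (((isPres_ite _).mul (IsPres.coord (Sum.inr (j, k)))).mono (k' := 1) (C' := 1)
      (by norm_num) (by norm_num)).add (((IsPres.coord (Sum.inr (i, k))).mul
      (isPres_ite _)).mono (k' := 1) (C' := 1) (by norm_num) (by norm_num))
  refine (h2.add h3.neg).mono le_rfl ?_
  simp only [Finset.sum_const, Finset.card_univ, Fintype.card_fin, smul_eq_mul]
  nlinarith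

/-- the sum of squares -/
def SqF (x : Vars n m → ℝ) : ℝ := ∑ i : Fin n, ∑ j : Fin n, Ent B i j x * Ent B i j x

/-- its partial derivatives -/
def dSqF (s : Vars n m) (x : Vars n m → ℝ) : ℝ :=
  ∑ i : Fin n, ∑ j : Fin n, (dEnt B i j s x * Ent B i j x + Ent B i j x * dEnt B i j s x)

theorem hasDerivAt_SqF (x : Vars n m → ℝ) (s : Vars n m) :
    HasDerivAt (fun t => SqF B (Function.update x s t)) (dSqF B s x) (x s) := by
  unfold SqF dSqF
  refine HasDerivAt.fun_sum fun i _ => HasDerivAt.fun_sum fun j _ => ?_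
  have h := (hasDerivAt_Ent B i j x s).mul (hasDerivAt_Ent B i j x s)
  simp only [Function.update_eq_self] at h
  exact h

theorem isPres_dSqF {H : ℕ} (hB : ∀ l i j, (B l i j).natAbs ≤ H) (s : Vars n m) :
    IsPres 3 (2 * n ^ 2 * ((m * H + 2 * n) * ((m + 1) * H + n)) + 1) (fun x => - dSqF B s x) := by
  have h1 : IsPres (σ := Vars n m) 3 (∑ i : Fin n, ∑ j : Fin n,
      ((m * H + 2 * n) * ((m + 1) * H + n) + ((m + 1) * H + n) * (m * H + 2 * n)))
      (fun x => dSqF B s x) := by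
    unfold dSqF
    refine IsPres.sum _ fun i _ => IsPres.sum _ fun j _ => ?_
    exact (((isPres_dEnt B hB i j s).mul (isPres_Ent B hB i j)).mono (k' := 3)
      (by norm_num) le_rfl).add (((isPres_Ent B hB i j).mul (isPres_dEnt B hB i j s)).mono
      (k' := 3) (by norm_num) le_rfl)
  refine h1.neg.mono le_rfl ?_
  simp only [Finset.sum_const, Finset.card_univ, Fintype.card_fin, smul_eq_mul]
  nlinarith

theorem continuous_SqF : Continuous (SqF B (n := n) (m := m)) := by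
  unfold SqF Ent
  fun_prop

theorem SqF_nonneg (x : Vars n m → ℝ) : 0 ≤ SqF B x :=
  Finset.sum_nonneg fun _ _ => Finset.sum_nonneg fun _ _ => mul_self_nonneg _

/-- the matrix `B₀ + y₁ B₁ + ... + y_m B_m` -/
noncomputable def matB (y : Fin m → ℝ) : Matrix (Fin n) (Fin n) ℝ :=
  (B 0).map (Int.cast : ℤ → ℝ) + ∑ l, y l • (B l.succ).map (Int.cast : ℤ → ℝ)

theorem matB_apply (y : Fin m → ℝ) (i j : Fin n) :
    matB B y i j = (B 0 i j : ℝ) + ∑ l : Fin m, (B l.succ i j : ℝ) * y l := by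
  unfold matB
  rw [Matrix.add_apply, Matrix.sum_apply, Matrix.map_apply]
  congr 1
  refine Finset.sum_congr rfl fun l _ => ?_
  rw [Matrix.smul_apply, Matrix.map_apply, smul_eq_mul, mul_comm]

/-- The bound for integer matrices. -/
theorem exists_bounded_int {H : ℕ} (hB : ∀ l i j, (B l i j).natAbs ≤ H)
    (hf : ∃ y : Fin m → ℝ, (matB B y).PosSemidef) :
    ∃ y : Fin m → ℝ, (matB B y).PosSemidef ∧ ∀ l, |y l| ≤
      ((1 + (2 * n ^ 2 * ((m * H + 2 * n) * ((m + 1) * H + n)) + 1) ^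
        (4 * (m + n * n) + 1)) ^ (5 ^ (m + n * n)) : ℕ) := by
  obtain ⟨y, hy⟩ := hf
  obtain ⟨Z, hZ⟩ := bd_exists_factor hy
  let z : Vars n m → ℝ := Sum.elim y fun p => Z p.2 p.1
  have hz : SqF B z = 0 := by
    unfold SqF
    refine Finset.sum_eq_zero fun i _ => Finset.sum_eq_zero fun j _ => ?_
    have h1 : Ent B i j z = 0 := by
      unfold Ent
      have h2 := congrFun (congrFun hZ i) j
      rw [matB_apply, Matrix.mul_apply] at h2
      simp only [Matrix.conjTranspose_apply, star_trivial] at h2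
      simp only [z, Sum.elim_inl, Sum.elim_inr]
      rw [← add_assoc, h2]
      ring
    rw [h1, mul_zero]
  obtain ⟨x, d, x₀, hd, hx, hx₀, hcrit⟩ := exists_approx (SqF B) (continuous_SqF B)
    (SqF_nonneg B) hz (dSqF B) (hasDerivAt_SqF B)
  have hbound := bounded_limit (C := 2 * n ^ 2 * ((m * H + 2 * n) * ((m + 1) * H + n)) + 1)
    (by omega) (fun s x => - dSqF B s x) (isPres_dSqF B hB) hd hx hcrit
  refine ⟨fun l => x₀ (Sum.inl l), ?_, fun l => ?_⟩
  · have h0 : ∀ i j, Ent B i j x₀ = 0 := by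
      intro i j
      unfold SqF at hx₀
      have h1 := (Finset.sum_eq_zero_iff_of_nonneg (fun i _ => Finset.sum_nonneg fun j _ =>
        mul_self_nonneg _)).1 hx₀ i (Finset.mem_univ i)
      have h2 := (Finset.sum_eq_zero_iff_of_nonneg (fun j _ => mul_self_nonneg _)).1 h1 j
        (Finset.mem_univ j)
      exact mul_self_eq_zero.1 h2
    have hfac : matB B (fun l => x₀ (Sum.inl l)) =
        (Matrix.of fun k i => x₀ (Sum.inr (i, k)) : Matrix (Fin n) (Fin n) ℝ).conjTranspose *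
          (Matrix.of fun k i => x₀ (Sum.inr (i, k)) : Matrix (Fin n) (Fin n) ℝ) := ?_
    · rw [hfac]
      exact Matrix.posSemidef_conjTranspose_mul_self _
    ext i j
    rw [matB_apply, Matrix.mul_apply]
    simp only [Matrix.conjTranspose_apply, star_trivial, Matrix.of_apply]
    have h1 := h0 i j
    unfold Ent at h1
    linarith
  · have h1 := hbound (Sum.inl l)
    have h2 : Fintype.card (Vars n m) = m + n * n := by
      simp [Vars, Fintype.card_sum, Fintype.card_prod]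
    rw [h2] at h1
    exact h1

end Int

theorem numeric_bound (n m L : ℕ) :
    (1 + (2 * n ^ 2 * ((m * 2 ^ (2 * L) + 2 * n) * ((m + 1) * 2 ^ (2 * L) + n)) + 1) ^
        (4 * (m + n * n) + 1)) ^ (5 ^ (m + n * n)) ≤ 2 ^ (2 ^ (50 * (n + m + L + 1) ^ 2)) := by
  obtain ⟨s, hs⟩ : ∃ s, s = n + m + L + 1 := ⟨_, rfl⟩
  rw [← hs]
  have hs1 : 1 ≤ s := by omega
  have hss : s ≤ 2 ^ s := Nat.lt_two_pow_self.le
  have hn : n ≤ 2 ^ s := le_trans (by omega) hss
  have hm : m + 1 ≤ 2 ^ s := le_trans (by omega) hss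
  have hH : 2 ^ (2 * L) ≤ 2 ^ (2 * s) := Nat.pow_le_pow_right (by norm_num) (by omega)
  have h1s : 1 ≤ 2 ^ (2 * s) := Nat.one_le_two_pow
  have e3 : 2 ^ (3 * s) = 2 ^ s * 2 ^ (2 * s) := by rw [← pow_add]; congr 1; ring
  have a1 : m * 2 ^ (2 * L) + 2 * n ≤ 2 ^ (3 * s + 2) := by
    have h1 : m * 2 ^ (2 * L) ≤ 2 ^ s * 2 ^ (2 * s) := Nat.mul_le_mul (by omega) hH
    have h2 : 2 * n ≤ 2 * (2 ^ s * 2 ^ (2 * s)) := by
      have := Nat.mul_le_mul hn h1s
      omega
    rw [pow_add, e3]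
    omega
  have a2 : (m + 1) * 2 ^ (2 * L) + n ≤ 2 ^ (3 * s + 1) := by
    have h1 : (m + 1) * 2 ^ (2 * L) ≤ 2 ^ s * 2 ^ (2 * s) := Nat.mul_le_mul hm hH
    have h2 : n ≤ 2 ^ s * 2 ^ (2 * s) := by
      have := Nat.mul_le_mul hn h1s
      omega
    rw [pow_add, e3]
    omega
  have a3 : 2 * n ^ 2 ≤ 2 ^ (2 * s + 1) := by
    have : n ^ 2 ≤ (2 ^ s) ^ 2 := Nat.pow_le_pow_left hn 2
    rw [pow_add, mul_comm 2 s, pow_mul]
    omega
  have a4 : 2 * n ^ 2 * ((m * 2 ^ (2 * L) + 2 * n) * ((m + 1) * 2 ^ (2 * L) + n)) + 1 ≤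
      2 ^ (13 * s) := by
    have h1 := Nat.mul_le_mul a3 (Nat.mul_le_mul a1 a2)
    rw [← pow_add, ← pow_add] at h1
    have h2 : 2 ^ (2 * s + 1 + (3 * s + 2 + (3 * s + 1))) + 1 ≤ 2 ^ (13 * s) := by
      calc 2 ^ (2 * s + 1 + (3 * s + 2 + (3 * s + 1))) + 1
          ≤ 2 ^ (2 * s + 1 + (3 * s + 2 + (3 * s + 1))) +
            2 ^ (2 * s + 1 + (3 * s + 2 + (3 * s + 1))) := Nat.add_le_add_left Nat.one_le_two_pow _
        _ = 2 ^ (2 * s + 1 + (3 * s + 2 + (3 * s + 1)) + 1) := by rw [pow_succ 2]; ring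
        _ ≤ 2 ^ (13 * s) := Nat.pow_le_pow_right (by norm_num) (by omega)
    omega
  have a5 : m + n * n ≤ s ^ 2 := by rw [hs]; nlinarith
  have a6 : 4 * (m + n * n) + 1 ≤ 5 * s ^ 2 := by nlinarith
  have a7 : 1 + (2 * n ^ 2 * ((m * 2 ^ (2 * L) + 2 * n) * ((m + 1) * 2 ^ (2 * L) + n)) + 1) ^
      (4 * (m + n * n) + 1) ≤ 2 ^ (66 * s ^ 3) := by
    calc 1 + (2 * n ^ 2 * ((m * 2 ^ (2 * L) + 2 * n) * ((m + 1) * 2 ^ (2 * L) + n)) + 1) ^
        (4 * (m + n * n) + 1)
        ≤ 1 + (2 ^ (13 * s)) ^ (5 * s ^ 2) := by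
          refine Nat.add_le_add_left ((Nat.pow_le_pow_left a4 _).trans ?_) _
          exact Nat.pow_le_pow_right Nat.one_le_two_pow a6
      _ = 1 + 2 ^ (65 * s ^ 3) := by rw [← pow_mul]; congr 2; ring
      _ ≤ 2 ^ (65 * s ^ 3) + 2 ^ (65 * s ^ 3) := Nat.add_le_add_right Nat.one_le_two_pow _
      _ = 2 ^ (65 * s ^ 3 + 1) := by rw [pow_succ 2]; ring
      _ ≤ 2 ^ (66 * s ^ 3) := Nat.pow_le_pow_right (by norm_num)
          (by have : 1 ≤ s ^ 3 := Nat.one_le_pow _ _ hs1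
              omega)
  refine (Nat.pow_le_pow_left a7 _).trans ?_
  rw [← pow_mul]
  refine Nat.pow_le_pow_right (by norm_num) ?_
  have a8 : 5 ^ (m + n * n) ≤ 2 ^ (3 * s ^ 2) := by
    calc 5 ^ (m + n * n) ≤ 8 ^ (m + n * n) := Nat.pow_le_pow_left (by norm_num) _
      _ = 2 ^ (3 * (m + n * n)) := by rw [pow_mul]; norm_num
      _ ≤ 2 ^ (3 * s ^ 2) := Nat.pow_le_pow_right (by norm_num) (by omega)
  have a9 : s ^ 3 ≤ 2 ^ (3 * s ^ 2) := by
    calc s ^ 3 ≤ (2 ^ s) ^ 3 := Nat.pow_le_pow_left hss 3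
      _ = 2 ^ (3 * s) := by rw [← pow_mul]; congr 1; ring
      _ ≤ 2 ^ (3 * s ^ 2) := Nat.pow_le_pow_right (by norm_num) (by nlinarith)
  calc 66 * s ^ 3 * 5 ^ (m + n * n) ≤ 2 ^ 7 * 2 ^ (3 * s ^ 2) * 2 ^ (3 * s ^ 2) :=
        Nat.mul_le_mul (Nat.mul_le_mul (by norm_num) a9) a8
    _ = 2 ^ (7 + 3 * s ^ 2 + 3 * s ^ 2) := by rw [pow_add, pow_add]
    _ ≤ 2 ^ (50 * s ^ 2) := Nat.pow_le_pow_right (by norm_num) (by nlinarith)

/-- **Bounded solutions of semidefinite feasibility.**  If the linear matrix inequality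
`A₀ + y₁ A₁ + ... + y_m A_m ≽ 0` with rational data of size `L` has a real solution, it has one of
size at most doubly exponential in the size of the input. -/
theorem exists_bounded_feasible {n m L : ℕ} (A : Fin (m + 1) → Matrix (Fin n) (Fin n) ℚ)
    (hnum : ∀ l i j, (A l i j).num.natAbs ≤ 2 ^ L)
    (hden : ∏ l, ∏ i, ∏ j, (A l i j).den ≤ 2 ^ L)
    (hf : ∃ y : Fin m → ℝ, ((A 0).map (Rat.cast : ℚ → ℝ) +
      ∑ l, y l • (A l.succ).map (Rat.cast : ℚ → ℝ)).PosSemidef) :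
    ∃ y : Fin m → ℝ, ((A 0).map (Rat.cast : ℚ → ℝ) +
      ∑ l, y l • (A l.succ).map (Rat.cast : ℚ → ℝ)).PosSemidef ∧
      ∀ l, |y l| ≤ 2 ^ (2 ^ (50 * (n + m + L + 1) ^ 2)) := by
  classical
  set D : ℕ := ∏ l, ∏ i, ∏ j, (A l i j).den with hD
  have hdvd : ∀ l i j, (A l i j).den ∣ D := by
    intro l i j
    refine (Finset.dvd_prod_of_mem (fun j => (A l i j).den) (Finset.mem_univ j)).trans ?_
    refine (Finset.dvd_prod_of_mem (fun i => ∏ j, (A l i j).den) (Finset.mem_univ i)).trans ?_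
    exact Finset.dvd_prod_of_mem (fun l => ∏ i, ∏ j, (A l i j).den) (Finset.mem_univ l)
  have hD0 : 0 < D := Finset.prod_pos fun l _ => Finset.prod_pos fun i _ =>
    Finset.prod_pos fun j _ => (A l i j).den_pos
  let B : Fin (m + 1) → Matrix (Fin n) (Fin n) ℤ := fun l => Matrix.of fun i j =>
    (A l i j).num * ((D / (A l i j).den : ℕ) : ℤ)
  have hB : ∀ l i j, ((B l i j : ℤ) : ℝ) = (D : ℝ) * (A l i j : ℝ) := by
    intro l i j
    simp only [B, Matrix.of_apply]
    obtain ⟨e, he⟩ := hdvd l i j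
    have hd : (A l i j).den ≠ 0 := (A l i j).den_nz
    rw [he, Nat.mul_div_cancel_left _ (Nat.pos_of_ne_zero hd)]
    have h1 : ((A l i j : ℚ) : ℝ) = ((A l i j).num : ℝ) / ((A l i j).den : ℝ) := by
      conv_lhs => rw [← Rat.num_div_den (A l i j)]
      push_cast
      rfl
    have hd' : ((A l i j).den : ℝ) ≠ 0 := by exact_mod_cast hd
    rw [h1]
    push_cast
    field_simp
  have hBH : ∀ l i j, (B l i j).natAbs ≤ 2 ^ (2 * L) := by
    intro l i j
    simp only [B, Matrix.of_apply]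
    rw [Int.natAbs_mul, Int.natAbs_natCast, two_mul, pow_add]
    exact Nat.mul_le_mul (hnum l i j) ((Nat.div_le_self _ _).trans hden)
  have hmat : ∀ y : Fin m → ℝ, matB B y = (D : ℝ) • ((A 0).map (Rat.cast : ℚ → ℝ) +
      ∑ l, y l • (A l.succ).map (Rat.cast : ℚ → ℝ)) := by
    intro y
    ext i j
    rw [matB_apply, Matrix.smul_apply, Matrix.add_apply, Matrix.sum_apply, Matrix.map_apply,
      smul_eq_mul, mul_add, hB, Finset.mul_sum]
    congr 1
    refine Finset.sum_congr rfl fun l _ => ?_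
    rw [hB, Matrix.smul_apply, Matrix.map_apply, smul_eq_mul]
    ring
  have hDR : (0 : ℝ) < D := by exact_mod_cast hD0
  have hiff : ∀ y : Fin m → ℝ, (matB B y).PosSemidef ↔ ((A 0).map (Rat.cast : ℚ → ℝ) +
      ∑ l, y l • (A l.succ).map (Rat.cast : ℚ → ℝ)).PosSemidef := by
    intro y
    rw [hmat]
    constructor
    · intro h
      have h2 := h.smul (inv_nonneg.2 hDR.le)
      rwa [smul_smul, inv_mul_cancel₀ hDR.ne', one_smul] at h2
    · intro h
      exact h.smul hDR.le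
  obtain ⟨y, hy⟩ := hf
  obtain ⟨y', hy', hb⟩ := exists_bounded_int B hBH ⟨y, (hiff y).2 hy⟩
  refine ⟨y', (hiff y').1 hy', fun l => (hb l).trans ?_⟩
  exact_mod_cast numeric_bound n m L

end Pool.Agent.Lib.MP_13b08e_lc
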