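import Mathlib
import Pool.Agent.Lib.MP_13b08e_lc.Blocks

/-!
# The relations expressing a linear matrix inequality
-/

namespace Pool.Agent.Lib.MP_13b08e_lc

set_option autoImplicit false

/-- Base scalars: a variable `t r`, or a multiple `c q (t r)`. -/
abbrev Base : Type := ℕ ⊕ (ℚ × ℕ)

/-- Names of the classes (blocks). All classes but `main` and `chain r` have size one. -/
inductive Cls : Type
  | zero (i : ℕ) : Cls
  | one : Cls
  | s (p : Bool) (r : ℕ) : Cls
  | V (b : Base) : Cls
  | F (p : Bool) (b : Base) (bits : List Bool) : Cls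
  | H (cs : List ℚ) : Cls
  | main : Cls
  | chain (r : ℕ) : Cls
  deriving DecidableEq

/-- Indices: a class and a position. -/
abbrev Idx : Type := Cls × ℕ

/-- A scalar as a term. -/
def tm (σ : Bool) (c : Cls) : Term Idx := (σ, (c, 0), (c, 0))

/-- An entry of a block as a term. -/
def cell (σ : Bool) (c : Cls) (i j : ℕ) : Term Idx := (σ, (c, i), (c, j))

/-- The specified scalars. -/
def cst (a : Idx) : Option Val :=
  if a.1 = .one then some .one
  else if a.1 = .zero 0 ∨ a.1 = .zero 1 ∨ a.1 = .zero 2 then some .zero else none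

/-- A list of bits (least significant first) as a binary fraction of length `P`, most significant
bit first. -/
def pad (P : ℕ) (bits : List Bool) : List Bool :=
  List.replicate (P - bits.length) false ++ bits.reverse

/-- The value of a binary fraction. -/
noncomputable def frac : List Bool → ℝ
  | [] => 0
  | β :: bs => ((if β then 1 else 0) + frac bs) / 2

/-- Relations for `F b bits = frac bits * V b`, one step. -/
def bitRel (b : Base) : List Bool → List (Rel Idx)
  | [] => [[tm false (.F false b []), tm false (.zero 0), tm false (.zero 1), tm false (.zero 2)]]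
  | β :: bs =>
    [[tm false (.F false b (β :: bs)), tm false (.F true b (β :: bs)), tm true (.F false b bs),
      tm true (if β then .V b else .zero 0)],
     [tm false (.F false b (β :: bs)), tm true (.F true b (β :: bs)), tm false (.zero 0),
      tm false (.zero 1)]]

/-- Relations for `F b bits = frac bits * V b`. -/
def bitsRels (b : Base) (bits : List Bool) : List (Rel Idx) := bits.tails.flatMap (bitRel b)

/-- Relations for `H cs` and for the multiples of the variables. -/
def coefRels (P Q : ℕ) : List ℚ → List (Rel Idx)
  | [] => [[tm false (.H []), tm false (.zero 0), tm false (.zero 1), tm false (.zero 2)]]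
  | q :: cs =>
    [[tm false (.H (q :: cs)), tm true (.H cs), tm true (.V (.inr (q, cs.length))),
      tm false (.zero 0)],
     [tm (decide (q.num < 0)) (.F false (.inl cs.length) (pad P q.num.natAbs.bits)),
      tm true (.F false (.inr (q, cs.length)) (pad Q q.den.bits)), tm false (.zero 0),
      tm false (.zero 1)]] ++
    (bitsRels (.inl cs.length) (pad P q.num.natAbs.bits) ++
      bitsRels (.inr (q, cs.length)) (pad Q q.den.bits))

/-- Relations for the entry `(i, j)` of the main block. -/
def entRels (P Q i j : ℕ) (cs : List ℚ) : List (Rel Idx) :=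
  [cell false .main i j, tm false (.H cs), tm true (if i = j then .one else .zero 0),
    tm false (.zero 1)] :: cs.tails.flatMap (coefRels P Q)

/-- Relations for the block `chain r`. -/
def chainRels (r : ℕ) : List (Rel Idx) :=
  [[cell false (.chain r) 0 0, tm false (.s false (r + 1)), tm true .one, tm false (.zero 0)],
   [cell false (.chain r) 0 1, tm false (.s false r), tm false (.zero 0), tm false (.zero 1)],
   [cell false (.chain r) 1 0, tm false (.s false r), tm false (.zero 0), tm false (.zero 1)],
   [cell false (.chain r) 1 1, tm false (.zero 0), tm false (.zero 1), tm false (.zero 2)]]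

/-- Relations for `s 0 = 1/2` and `t m = s k`. -/
def baseRels (k m : ℕ) : List (Rel Idx) :=
  [[tm false (.s false 0), tm false (.s true 0), tm true .one, tm false (.zero 0)],
   [tm false (.s false 0), tm true (.s true 0), tm false (.zero 0), tm false (.zero 1)],
   [tm false (.V (.inl m)), tm true (.s false k), tm false (.zero 0), tm false (.zero 1)]]

/-- All the relations. -/
def allRels (P Q k m : ℕ) (tbl : List (List (List ℚ))) : List (Rel Idx) :=
  baseRels k m ++ ((List.range k).flatMap chainRels ++
    tbl.zipIdx.flatMap fun row => row.1.zipIdx.flatMap fun cs => entRels P Q row.2 cs.2 cs.1)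

/-- The indices which occur in the relations. -/
def indices (R : List (Rel Idx)) : List Idx :=
  R.flatMap fun r => r.flatMap fun t => [t.2.1, t.2.2]

lemma mem_indices {R : List (Rel Idx)} {r : Rel Idx} (hr : r ∈ R) {t : Term Idx} (ht : t ∈ r) :
    t.2.1 ∈ indices R ∧ t.2.2 ∈ indices R := by
  unfold indices
  simp only [List.mem_flatMap]
  exact ⟨⟨r, hr, t, ht, by simp⟩, ⟨r, hr, t, ht, by simp⟩⟩

/-! ### Membership in the lists of relations -/

lemma bitsRels_cons (b : Base) (β : Bool) (bs : List Bool) :
    bitsRels b (β :: bs) = bitRel b (β :: bs) ++ bitsRels b bs := by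
  simp [bitsRels]

lemma mem_allRels_base {P Q k m : ℕ} {tbl : List (List (List ℚ))} {r : Rel Idx}
    (h : r ∈ baseRels k m) : r ∈ allRels P Q k m tbl := by
  simp only [allRels, List.mem_append]
  exact Or.inl h

lemma mem_allRels_chain {P Q k m : ℕ} {tbl : List (List (List ℚ))} {r : Rel Idx} {i : ℕ}
    (hi : i < k) (h : r ∈ chainRels i) : r ∈ allRels P Q k m tbl := by
  simp only [allRels, List.mem_append, List.mem_flatMap, List.mem_range]
  exact Or.inr (Or.inl ⟨i, hi, h⟩)

lemma mem_allRels_ent {P Q k m : ℕ} {tbl : List (List (List ℚ))} {r : Rel Idx} {i j : ℕ}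
    {row : List (List ℚ)} {cs : List ℚ} (hi : tbl[i]? = some row) (hj : row[j]? = some cs)
    (h : r ∈ entRels P Q i j cs) : r ∈ allRels P Q k m tbl := by
  simp only [allRels, List.mem_append, List.mem_flatMap]
  refine Or.inr (Or.inr ⟨(row, i), ?_, (cs, j), ?_, h⟩)
  · rw [List.mem_zipIdx_iff_getElem?]; exact hi
  · rw [List.mem_zipIdx_iff_getElem?]; exact hj

lemma forall_allRels {P Q k m : ℕ} {tbl : List (List (List ℚ))} {p : Rel Idx → Prop}
    (h1 : ∀ r ∈ baseRels k m, p r) (h2 : ∀ i < k, ∀ r ∈ chainRels i, p r)
    (h3 : ∀ i j row cs, tbl[i]? = some row → row[j]? = some cs → ∀ r ∈ entRels P Q i j cs, p r) :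
    ∀ r ∈ allRels P Q k m tbl, p r := by
  intro r hr
  simp only [allRels, List.mem_append, List.mem_flatMap, List.mem_range] at hr
  rcases hr with hr | ⟨i, hi, hr⟩ | ⟨⟨row, i⟩, hrow, ⟨cs, j⟩, hcs, hr⟩
  · exact h1 r hr
  · exact h2 i hi r hr
  · rw [List.mem_zipIdx_iff_getElem?] at hrow hcs
    exact h3 i j row cs hrow hcs r hr

lemma forall_bitsRels {p : Rel Idx → Prop} {b : Base}
    (h : ∀ bits, ∀ r ∈ bitRel b bits, p r) (bits : List Bool) : ∀ r ∈ bitsRels b bits, p r := by
  intro r hr
  simp only [bitsRels, List.mem_flatMap] at hr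
  obtain ⟨t, -, hr⟩ := hr
  exact h t r hr

/-! ### Well-formedness -/

lemma wf_bitRel (b : Base) (bits : List Bool) : ∀ r ∈ bitRel b bits, r.WF Prod.fst := by
  intro r hr
  cases bits with
  | nil =>
    simp only [bitRel, List.mem_singleton] at hr
    subst hr
    exact ⟨rfl, by simp [tm], by simp [tm]⟩
  | cons β bs =>
    simp only [bitRel, List.mem_cons, List.not_mem_nil, or_false] at hr
    have hne : bs ≠ β :: bs := fun h => by simpa using congrArg List.length h
    rcases hr with rfl | rfl
    · refine ⟨rfl, ?_, by simp [tm]⟩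
      cases β <;> simp [tm]
    · exact ⟨rfl, by simp [tm], by simp [tm]⟩

lemma wf_coefRels (P Q : ℕ) (cs : List ℚ) : ∀ r ∈ coefRels P Q cs, r.WF Prod.fst := by
  intro r hr
  cases cs with
  | nil =>
    simp only [coefRels, List.mem_singleton] at hr
    subst hr
    exact ⟨rfl, by simp [tm], by simp [tm]⟩
  | cons q cs =>
    simp only [coefRels, List.mem_append, List.mem_cons, List.not_mem_nil, or_false] at hr
    rcases hr with (rfl | rfl) | hr | hr
    · exact ⟨rfl, by simp [tm], by simp [tm]⟩
    · exact ⟨rfl, by simp [tm], by simp [tm]⟩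
    · exact forall_bitsRels (fun bits => wf_bitRel _ bits) _ r hr
    · exact forall_bitsRels (fun bits => wf_bitRel _ bits) _ r hr

lemma wf_entRels (P Q i j : ℕ) (cs : List ℚ) : ∀ r ∈ entRels P Q i j cs, r.WF Prod.fst := by
  intro r hr
  simp only [entRels, List.mem_cons, List.mem_flatMap] at hr
  rcases hr with rfl | ⟨t, -, hr⟩
  · refine ⟨rfl, ?_, by simp [tm, cell]⟩
    by_cases hij : i = j <;> simp [tm, cell, hij]
  · exact wf_coefRels P Q t r hr

lemma wf_chainRels (i : ℕ) : ∀ r ∈ chainRels i, r.WF Prod.fst := by
  intro r hr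
  simp only [chainRels, List.mem_cons, List.not_mem_nil, or_false] at hr
  rcases hr with rfl | rfl | rfl | rfl <;> exact ⟨rfl, by simp [tm, cell], by simp [tm, cell]⟩

lemma wf_baseRels (k m : ℕ) : ∀ r ∈ baseRels k m, r.WF Prod.fst := by
  intro r hr
  simp only [baseRels, List.mem_cons, List.not_mem_nil, or_false] at hr
  rcases hr with rfl | rfl | rfl <;> exact ⟨rfl, by simp [tm], by simp [tm]⟩

theorem wf_allRels (P Q k m : ℕ) (tbl : List (List (List ℚ))) :
    ∀ r ∈ allRels P Q k m tbl, r.WF Prod.fst :=
  forall_allRels (wf_baseRels k m) (fun i _ => wf_chainRels i)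
    (fun i j _ cs _ _ => wf_entRels P Q i j cs)

/-! ### Values -/

/-- The scaled value of the linear form with coefficients `cs` (the last coefficient belongs to the
variable `t 0`). -/
noncomputable def hv (c : ℝ) (t : ℕ → ℝ) : List ℚ → ℝ
  | [] => 0
  | q :: cs => hv c t cs + c * (q : ℝ) * t cs.length

lemma frac_nonneg (bits : List Bool) : 0 ≤ frac bits := by
  induction bits with
  | nil => simp [frac]
  | cons β bs ih => simp only [frac]; split_ifs <;> positivity

lemma frac_le_one (bits : List Bool) : frac bits ≤ 1 := by
  induction bits with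
  | nil => simp [frac]
  | cons β bs ih => simp only [frac]; split_ifs <;> linarith

/-- The number with given bits, least significant bit first. -/
def num : List Bool → ℕ
  | [] => 0
  | β :: bs => (if β then 1 else 0) + 2 * num bs

lemma num_bits (n : ℕ) : num n.bits = n := by
  induction n using Nat.binaryRec' with
  | zero => simp [num]
  | bit b n h ih =>
    rw [Nat.bits_append_bit _ _ h, num, ih]
    cases b <;> simp [Nat.bit, add_comm]

lemma frac_append_bit (bs : List Bool) (β : Bool) :
    frac (bs ++ [β]) = frac bs + (if β then 1 else 0) / 2 ^ (bs.length + 1) := by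
  induction bs with
  | nil => cases β <;> simp [frac]
  | cons γ bs ih =>
    rw [List.cons_append, frac, ih, frac, List.length_cons, pow_succ _ (bs.length + 1)]
    have h2 : (2 : ℝ) ^ (bs.length + 1) ≠ 0 := by positivity
    field_simp
    ring

lemma frac_reverse (bits : List Bool) : frac bits.reverse = (num bits : ℝ) / 2 ^ bits.length := by
  induction bits with
  | nil => simp [frac, num]
  | cons β bs ih =>
    rw [List.reverse_cons, frac_append_bit, ih, num, List.length_cons, List.length_reverse]
    push_cast
    have h2 : (2 : ℝ) ^ bs.length ≠ 0 := by positivity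
    rw [pow_succ]
    field_simp
    ring

lemma frac_replicate (z : ℕ) (bits : List Bool) :
    frac (List.replicate z false ++ bits) = frac bits / 2 ^ z := by
  induction z with
  | zero => simp
  | succ z ih =>
    rw [List.replicate_succ, List.cons_append, frac, ih, pow_succ]
    have h2 : (2 : ℝ) ^ z ≠ 0 := by positivity
    field_simp
    simp

lemma frac_pad {P : ℕ} {bits : List Bool} (h : bits.length ≤ P) :
    frac (pad P bits) = (num bits : ℝ) / 2 ^ P := by
  rw [pad, frac_replicate, frac_reverse, div_div, ← pow_add, Nat.add_sub_cancel' h]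

end Pool.Agent.Lib.MP_13b08e_lc
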