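import Mathlib
import Pool.Agent.Lib.PolyTime
import Pool.Agent.Lib.PolyTime.Lists
import Pool.Agent.Lib.MP_13b08e_lc.Problems
import Pool.Agent.Lib.MP_13b08e_lc.Relations

/-!
# The relations are computable in polynomial time
-/

namespace Pool.Agent.Lib.MP_13b08e_lc

set_option autoImplicit false

open Pool.Agent.Lib.PolyTime

/-- Code of the names. -/
def Cls.toPair : Cls → ℕ × BT
  | .zero i => (0, enc i)
  | .one => (1, .leaf)
  | .s p r => (2, enc (p, r))
  | .V b => (3, enc b)
  | .F p b bits => (4, enc (p, (b, bits)))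
  | .H cs => (5, enc cs)
  | .main => (6, .leaf)
  | .chain r => (7, enc r)

lemma Cls.toPair_injective : Function.Injective Cls.toPair := by
  intro a b h
  cases a <;> cases b <;> simp only [Cls.toPair, Prod.mk.injEq] at h <;>
    first
    | rfl
    | (exfalso; omega)
    | (have h2 := Enc.inj h.2; rw [h2])
    | (have h2 := Enc.inj h.2; simp only [Prod.mk.injEq] at h2; simp [h2])

instance encCls : Enc Cls := Enc.ofInj Cls.toPair Cls.toPair_injective

section

variable {α β γ : Type} [Enc α] [Enc β] [Enc γ]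

theorem PT.enc' {f : α → β} (hf : PT f) : PT (fun a => enc (f a)) :=
  PT.comp (g := fun b : β => enc b) (PT.of_enc_eq (β := BT) fun _ => rfl) hf

theorem pt_zero (i : ℕ) : PT (fun _ : α => Cls.zero i) := PT.const _

theorem pt_one : PT (fun _ : α => Cls.one) := PT.const _

theorem pt_main : PT (fun _ : α => Cls.main) := PT.const _

theorem pt_s {p : α → Bool} {r : α → ℕ} (hp : PT p) (hr : PT r) :
    PT (fun a => Cls.s (p a) (r a)) :=
  PT.congr_enc (g := fun a => ((2 : ℕ), enc (p a, r a))) ((PT.const 2).pair (PT.enc' (hp.pair hr)))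
    (fun _ => rfl)

theorem pt_V {b : α → Base} (hb : PT b) : PT (fun a => Cls.V (b a)) :=
  PT.congr_enc (g := fun a => ((3 : ℕ), enc (b a))) ((PT.const 3).pair (PT.enc' hb)) (fun _ => rfl)

theorem pt_F {p : α → Bool} {b : α → Base} {l : α → List Bool} (hp : PT p) (hb : PT b)
    (hl : PT l) : PT (fun a => Cls.F (p a) (b a) (l a)) :=
  PT.congr_enc (g := fun a => ((4 : ℕ), enc (p a, (b a, l a))))
    ((PT.const 4).pair (PT.enc' (hp.pair (hb.pair hl)))) (fun _ => rfl)

theorem pt_H {l : α → List ℚ} (hl : PT l) : PT (fun a => Cls.H (l a)) :=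
  PT.congr_enc (g := fun a => ((5 : ℕ), enc (l a))) ((PT.const 5).pair (PT.enc' hl)) (fun _ => rfl)

theorem pt_chain {r : α → ℕ} (hr : PT r) : PT (fun a => Cls.chain (r a)) :=
  PT.congr_enc (g := fun a => ((7 : ℕ), enc (r a))) ((PT.const 7).pair (PT.enc' hr)) (fun _ => rfl)

theorem pt_tm {σ : α → Bool} {c : α → Cls} (hσ : PT σ) (hc : PT c) :
    PT (fun a => tm (σ a) (c a)) :=
  hσ.pair ((hc.pair (PT.const 0)).pair (hc.pair (PT.const 0)))

theorem pt_cell {σ : α → Bool} {c : α → Cls} {i j : α → ℕ} (hσ : PT σ) (hc : PT c) (hi : PT i)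
    (hj : PT j) : PT (fun a => cell (σ a) (c a) (i a) (j a)) :=
  hσ.pair ((hc.pair hi).pair (hc.pair hj))

theorem pt_list4 {x y z w : α → β} (hx : PT x) (hy : PT y) (hz : PT z) (hw : PT w) :
    PT (fun a => [x a, y a, z a, w a]) := hx.cons (hy.cons (hz.cons (hw.cons (PT.const []))))

theorem pt_z (i : ℕ) : PT (fun _ : α => tm false (Cls.zero i)) := PT.const _

theorem pt_replicate {f : α → ℕ} (hf : PT f) (b : β) : PT (fun a => List.replicate (f a) b) := by
  refine (PT.map (f := fun a => List.range (f a)) (g := fun _ _ => b) (PT.range hf)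
    (PT.const b)).congr fun a => ?_
  rw [List.map_const', List.length_range]

theorem pt_pad {P : α → ℕ} {l : α → List Bool} (hP : PT P) (hl : PT l) :
    PT (fun a => pad (P a) (l a)) :=
  (pt_replicate (PT.sub hP hl.length) false).append hl.reverse

omit [Enc β] in
lemma tails_eq (l : List β) : l.tails = (List.range (l.length + 1)).map fun i => l.drop i := by
  induction l with
  | nil => simp
  | cons b l ih =>
    rw [List.tails_cons, ih, List.length_cons, List.range_succ_eq_map (n := l.length + 1),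
      List.map_cons, List.map_map]
    rfl

theorem pt_tails {f : α → List β} (hf : PT f) : PT (fun a => (f a).tails) := by
  refine (PT.map (f := fun a => List.range ((f a).length + 1)) (g := fun a i => (f a).drop i)
    (PT.range hf.length.succ) (PT.drop PT.snd (hf.comp PT.fst))).congr fun a => ?_
  rw [tails_eq]

theorem pt_bitRel {b : α → Base} {l : α → List Bool} (hb : PT b) (hl : PT l) :
    PT (fun a => bitRel (b a) (l a)) := by
  have hb' : PT (fun x : α × (Bool × List Bool) => b x.1) := hb.comp PT.fst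
  have hβ : PT (fun x : α × (Bool × List Bool) => x.2.1) := PT.snd.fst'
  have hbs : PT (fun x : α × (Bool × List Bool) => x.2.2) := PT.snd.snd'
  refine (PT.listCases (f := l)
    (g := fun a => [[tm false (.F false (b a) []), tm false (.zero 0), tm false (.zero 1),
      tm false (.zero 2)]])
    (h := fun a β bs =>
      [[tm false (.F false (b a) (β :: bs)), tm false (.F true (b a) (β :: bs)),
        tm true (.F false (b a) bs), tm true (if β then .V (b a) else .zero 0)],
       [tm false (.F false (b a) (β :: bs)), tm true (.F true (b a) (β :: bs)),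
        tm false (.zero 0), tm false (.zero 1)]]) hl ?_ ?_).congr fun a => ?_
  · exact PT.list1 (pt_list4 (pt_tm (PT.const _) (pt_F (PT.const _) hb (PT.const _)))
      (pt_z 0) (pt_z 1) (pt_z 2))
  · have hF : ∀ σ p : Bool, PT (fun x : α × (Bool × List Bool) =>
        tm σ (.F p (b x.1) (x.2.1 :: x.2.2))) := fun σ p =>
      pt_tm (PT.const _) (pt_F (PT.const _) hb' (hβ.cons hbs))
    have hF' : ∀ σ p : Bool, PT (fun x : α × (Bool × List Bool) =>
        tm σ (.F p (b x.1) x.2.2)) := fun σ p =>
      pt_tm (PT.const _) (pt_F (PT.const _) hb' hbs)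
    have hi : PT (fun x : α × (Bool × List Bool) =>
        tm true (if x.2.1 then .V (b x.1) else .zero 0)) := by
      refine pt_tm (PT.const _) ?_
      exact PT.ite (hβ.congr fun a => by simp) (pt_V hb') (pt_zero 0)
    exact (pt_list4 (hF false false) (hF false true) (hF' true false) hi).cons
      (PT.list1 (pt_list4 (hF false false) (hF true true) (pt_z 0) (pt_z 1)))
  · cases l a <;> rfl

theorem pt_bitsRels {b : α → Base} {l : α → List Bool} (hb : PT b) (hl : PT l) :
    PT (fun a => bitsRels (b a) (l a)) :=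
  PT.flatMap (f := fun a => (l a).tails) (g := fun a t => bitRel (b a) t) (pt_tails hl)
    (pt_bitRel (hb.comp PT.fst) PT.snd)

/-- The parts of a rational number. -/
theorem pt_neg {q : α → ℚ} (hq : PT q) : PT (fun a => decide ((q a).num < 0)) :=
  (PT.congr_enc (f := fun a => ratCode (q a)) (g := q) hq (fun _ => rfl)).fst'

theorem pt_num {q : α → ℚ} (hq : PT q) : PT (fun a => (q a).num.natAbs.bits) :=
  (PT.congr_enc (f := fun a => ratCode (q a)) (g := q) hq (fun _ => rfl)).snd'.fst'

theorem pt_den {q : α → ℚ} (hq : PT q) : PT (fun a => (q a).den.bits) :=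
  (PT.congr_enc (f := fun a => ratCode (q a)) (g := q) hq (fun _ => rfl)).snd'.snd'

theorem pt_coefRels {P Q : α → ℕ} {l : α → List ℚ} (hP : PT P) (hQ : PT Q) (hl : PT l) :
    PT (fun a => coefRels (P a) (Q a) (l a)) := by
  have hP' : PT (fun x : α × (ℚ × List ℚ) => P x.1) := hP.comp PT.fst
  have hQ' : PT (fun x : α × (ℚ × List ℚ) => Q x.1) := hQ.comp PT.fst
  have hq : PT (fun x : α × (ℚ × List ℚ) => x.2.1) := PT.snd.fst'
  have hcs : PT (fun x : α × (ℚ × List ℚ) => x.2.2) := PT.snd.snd'
  have hT : PT (fun x : α × (ℚ × List ℚ) => (Sum.inl x.2.2.length : Base)) := hcs.length.inl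
  have hZ : PT (fun x : α × (ℚ × List ℚ) => (Sum.inr (x.2.1, x.2.2.length) : Base)) :=
    (hq.pair hcs.length).inr
  have hn : PT (fun x : α × (ℚ × List ℚ) => pad (P x.1) x.2.1.num.natAbs.bits) :=
    pt_pad hP' (pt_num hq)
  have hd : PT (fun x : α × (ℚ × List ℚ) => pad (Q x.1) x.2.1.den.bits) :=
    pt_pad hQ' (pt_den hq)
  refine (PT.listCases (f := l)
    (g := fun _ => [[tm false (.H []), tm false (.zero 0), tm false (.zero 1),
      tm false (.zero 2)]])
    (h := fun a q cs => coefRels (P a) (Q a) (q :: cs)) hl (PT.const _) ?_).congr fun a => ?_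
  · refine PT.append (pt_list4 (pt_tm (PT.const _) (pt_H (hq.cons hcs)))
      (pt_tm (PT.const _) (pt_H hcs)) (pt_tm (PT.const _) (pt_V hZ)) (pt_z 0) |>.cons
      (PT.list1 (pt_list4 (pt_tm (pt_neg hq) (pt_F (PT.const _) hT hn))
        (pt_tm (PT.const _) (pt_F (PT.const _) hZ hd)) (pt_z 0) (pt_z 1))))
      (PT.append (pt_bitsRels hT hn) (pt_bitsRels hZ hd))
  · cases l a <;> rfl

theorem pt_entRels {P Q i j : α → ℕ} {l : α → List ℚ} (hP : PT P) (hQ : PT Q) (hi : PT i)
    (hj : PT j) (hl : PT l) : PT (fun a => entRels (P a) (Q a) (i a) (j a) (l a)) := by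
  refine PT.cons (pt_list4 (pt_cell (PT.const _) pt_main hi hj) (pt_tm (PT.const _) (pt_H hl))
    (pt_tm (PT.const _) (PT.ite (PT.eq hi hj) pt_one (pt_zero 0))) (pt_z 1)) ?_
  exact PT.flatMap (f := fun a => (l a).tails) (g := fun a t => coefRels (P a) (Q a) t)
    (pt_tails hl) (pt_coefRels (hP.comp PT.fst) (hQ.comp PT.fst) PT.snd)

theorem pt_chainRels {r : α → ℕ} (hr : PT r) : PT (fun a => chainRels (r a)) := by
  have hcell : ∀ i j : ℕ, PT (fun a => cell false (.chain (r a)) i j) := fun i j =>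
    pt_cell (PT.const _) (pt_chain hr) (PT.const _) (PT.const _)
  have hs : PT (fun a => tm false (.s false (r a))) := pt_tm (PT.const _) (pt_s (PT.const _) hr)
  have hs' : PT (fun a => tm false (.s false (r a + 1))) :=
    pt_tm (PT.const _) (pt_s (PT.const _) hr.succ)
  exact (pt_list4 (hcell 0 0) hs' (PT.const _) (pt_z 0)).cons
    ((pt_list4 (hcell 0 1) hs (pt_z 0) (pt_z 1)).cons
    ((pt_list4 (hcell 1 0) hs (pt_z 0) (pt_z 1)).cons
    (PT.list1 (pt_list4 (hcell 1 1) (pt_z 0) (pt_z 1) (pt_z 2)))))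

theorem pt_baseRels {k m : α → ℕ} (hk : PT k) (hm : PT m) :
    PT (fun a => baseRels (k a) (m a)) := by
  have h1 : PT (fun a => [tm false (.V (.inl (m a))), tm true (.s false (k a)),
      tm false (.zero 0), tm false (.zero 1)]) :=
    pt_list4 (pt_tm (PT.const _) (pt_V hm.inl)) (pt_tm (PT.const _) (pt_s (PT.const _) hk))
      (pt_z 0) (pt_z 1)
  exact (PT.const _).cons ((PT.const _).cons (PT.list1 h1))

theorem pt_allRels {P Q k m : α → ℕ} {tbl : α → List (List (List ℚ))} (hP : PT P) (hQ : PT Q)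
    (hk : PT k) (hm : PT m) (ht : PT tbl) :
    PT (fun a => allRels (P a) (Q a) (k a) (m a) (tbl a)) := by
  refine (pt_baseRels hk hm).append (PT.append ?_ ?_)
  · exact PT.flatMap (f := fun a => List.range (k a)) (g := fun _ r => chainRels r)
      (PT.range hk) (pt_chainRels PT.snd)
  · refine PT.flatMap (f := fun a => (tbl a).zipIdx) (g := fun a row =>
      row.1.zipIdx.flatMap fun cs => entRels (P a) (Q a) row.2 cs.2 cs.1) (PT.zipIdx ht) ?_
    refine PT.flatMap (f := fun x : α × (List (List ℚ) × ℕ) => x.2.1.zipIdx)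
      (g := fun x cs => entRels (P x.1) (Q x.1) x.2.2 cs.2 cs.1) (PT.zipIdx PT.snd.fst') ?_
    exact pt_entRels (hP.comp PT.fst.fst') (hQ.comp PT.fst.fst') PT.fst.snd'.snd' PT.snd.snd'
      PT.snd.fst'

end

end Pool.Agent.Lib.MP_13b08e_lc
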