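import Mathlib
import Pool.Agent.Lib.MP_13b08e_lc.RelPT

/-!
# From relations to a graph and a vector
-/

namespace Pool.Agent.Lib.MP_13b08e_lc

set_option autoImplicit false

open Pool.Agent.Lib.PolyTime

instance decRel : DecidableEq (Rel Idx) := inferInstance
instance decRel2 : DecidableEq (Rel Idx ⊕ Rel Idx) := instDecidableEqSum
instance decVtx : DecidableEq (Vtx Idx) := instDecidableEqSum

section

variable {α β γ δ : Type} [Enc α] [Enc β] [Enc γ] [Enc δ]

/-! ### Removing duplicates -/

/-- Add an element to a list unless it is there already. -/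
def addNew [DecidableEq β] (acc : List β) (b : β) : List β :=
  if acc.any (fun c => decide (c = b)) then acc else b :: acc

/-- Remove duplicates. -/
def undup [DecidableEq β] (l : List β) : List β := l.foldl addNew []

omit [Enc β] in
lemma addNew_eq [DecidableEq β] (acc : List β) (b : β) :
    addNew acc b = if b ∈ acc then acc else b :: acc := by
  unfold addNew
  by_cases h : b ∈ acc
  · rw [if_pos h, if_pos]
    rw [List.any_eq_true]
    exact ⟨b, h, by simp⟩
  · rw [if_neg h, if_neg]
    rw [List.any_eq_true]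
    rintro ⟨c, hc, hcb⟩
    rw [decide_eq_true_eq] at hcb
    exact h (hcb ▸ hc)

omit [Enc β] in
lemma foldl_addNew [DecidableEq β] (l acc : List β) (h : acc.Nodup) :
    (l.foldl addNew acc).Nodup ∧ ∀ b, b ∈ l.foldl addNew acc ↔ b ∈ acc ∨ b ∈ l := by
  induction l generalizing acc with
  | nil => simp [h]
  | cons c l ih =>
    rw [List.foldl_cons]
    have h1 : (addNew acc c).Nodup := by
      rw [addNew_eq]
      split_ifs with hc
      · exact h
      · exact List.nodup_cons.2 ⟨hc, h⟩
    obtain ⟨h2, h3⟩ := ih _ h1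
    refine ⟨h2, fun b => ?_⟩
    rw [h3, addNew_eq, List.mem_cons]
    split_ifs with hc
    · constructor
      · rintro (hb | hb)
        · exact Or.inl hb
        · exact Or.inr (Or.inr hb)
      · rintro (hb | rfl | hb)
        · exact Or.inl hb
        · exact Or.inl hc
        · exact Or.inr hb
    · rw [List.mem_cons]; tauto

omit [Enc β] in
lemma nodup_undup [DecidableEq β] (l : List β) : (undup l).Nodup :=
  (foldl_addNew l [] List.nodup_nil).1

omit [Enc β] in
lemma mem_undup [DecidableEq β] (l : List β) (b : β) : b ∈ undup l ↔ b ∈ l := by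
  have := (foldl_addNew l [] List.nodup_nil).2 b
  simpa [undup] using this

theorem pt_undup [DecidableEq β] {f : α → List β} (hf : PT f) : PT (fun a => undup (f a)) := by
  obtain ⟨p, hp⟩ := hf.size_le
  refine PT.foldl_add (f := f) (init := fun _ => ([] : List β)) (step := fun _ acc b => addNew acc b)
    hf (PT.const _) ?_ (C := fun n => p.eval n + 1) ((PB.poly p).add (PB.const 1)) ?_
  · refine PT.cond (c := fun x : α × (List β × β) => x.2.1.any (fun c => decide (c = x.2.2)))
      ?_ PT.snd.fst' (PT.snd.snd'.cons PT.snd.fst') |>.congr fun x => ?_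
    · exact PT.any (f := fun x : α × (List β × β) => x.2.1) (p := fun x c => decide (c = x.2.2))
        PT.snd.fst' (PT.eq PT.snd PT.fst.snd'.snd')
    · unfold addNew
      cases h : x.2.1.any (fun c => decide (c = x.2.2)) <;> simp
  · intro a s b hb
    unfold addNew
    have h1 := size_mem_lt hb
    have h2 := hp a
    split_ifs
    · omega
    · have : size (b :: s) = size b + size s + 1 := by
        simp [size, enc, encList]
      omega

/-! ### Case distinction on a double sum -/

theorem pt_sum4 {β₁ β₂ β₃ β₄ : Type} [Enc β₁] [Enc β₂] [Enc β₃] [Enc β₄]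
    {f : α → (β₁ ⊕ β₂) ⊕ (β₃ ⊕ β₄)} {g₁ : α → β₁ → γ} {g₂ : α → β₂ → γ} {g₃ : α → β₃ → γ}
    {g₄ : α → β₄ → γ} (hf : PT f) (h₁ : PT (fun x : α × β₁ => g₁ x.1 x.2))
    (h₂ : PT (fun x : α × β₂ => g₂ x.1 x.2)) (h₃ : PT (fun x : α × β₃ => g₃ x.1 x.2))
    (h₄ : PT (fun x : α × β₄ => g₄ x.1 x.2)) :
    PT (fun a => match f a with
      | .inl (.inl b) => g₁ a b
      | .inl (.inr b) => g₂ a b
      | .inr (.inl b) => g₃ a b
      | .inr (.inr b) => g₄ a b) := by
  refine (PT.sumCases (f := f)
    (g := fun a b => match b with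
      | .inl b => g₁ a b
      | .inr b => g₂ a b)
    (h := fun a b => match b with
      | .inl b => g₃ a b
      | .inr b => g₄ a b) hf ?_ ?_).congr fun a => ?_
  · exact PT.sumCases (f := fun x : α × (β₁ ⊕ β₂) => x.2) (g := fun x b => g₁ x.1 b)
      (h := fun x b => g₂ x.1 b) PT.snd (h₁.comp (PT.fst.fst'.pair PT.snd))
      (h₂.comp (PT.fst.fst'.pair PT.snd))
  · exact PT.sumCases (f := fun x : α × (β₃ ⊕ β₄) => x.2) (g := fun x b => g₃ x.1 b)
      (h := fun x b => g₄ x.1 b) PT.snd (h₃.comp (PT.fst.fst'.pair PT.snd))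
      (h₄.comp (PT.fst.fst'.pair PT.snd))
  · rcases f a with (b | b) | (b | b) <;> rfl

end

/-! ### The entries -/

/-- Values are encoded by two bits. -/
instance encVal : Enc Val := Enc.ofInj
  (fun v => match v with
    | .zero => (false, false)
    | .half => (false, true)
    | .nhalf => (true, false)
    | .one => (true, true))
  (by intro a b; cases a <;> cases b <;> simp)

section

variable {α : Type} [Enc α]

theorem pt_cst {a : α → Idx} (ha : PT a) : PT (fun x => cst (a x)) := by
  unfold cst
  refine PT.ite (c := fun x => (a x).1 = .one) (PT.eq ha.fst' (PT.const _)) (PT.const _) ?_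
  refine PT.ite (c := fun x => (a x).1 = .zero 0 ∨ (a x).1 = .zero 1 ∨ (a x).1 = .zero 2) ?_
    (PT.const _) (PT.const _)
  refine ((PT.eq ha.fst' (PT.const (Cls.zero 0))).or
    ((PT.eq ha.fst' (PT.const (Cls.zero 1))).or (PT.eq ha.fst' (PT.const (Cls.zero 2))))).congr
    fun x => ?_
  simp

theorem pt_crossEnt {a b : α → Idx} (ha : PT a) (hb : PT b) :
    PT (fun x => crossEnt Prod.fst cst (a x) (b x)) :=
  PT.ite (c := fun x => (a x).1 = (b x).1) (PT.eq ha.fst' hb.fst') (pt_cst ha) (PT.const _)

theorem pt_uEnt {r : α → Rel Idx} {a : α → Idx} (hr : PT r) (ha : PT a) :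
    PT (fun x => uEnt (r x) (a x)) := by
  refine (PT.cond (c := fun x => (r x).any (fun t => decide (t.2.1 = a x)))
    (f := fun _ => some Val.half) (g := fun _ => none) ?_ (PT.const _) (PT.const _)).congr
    fun x => ?_
  · exact PT.any (f := r) (p := fun x t => decide (t.2.1 = a x)) hr
      (PT.eq PT.snd.snd'.fst' (ha.comp PT.fst))
  · unfold uEnt
    cases (r x).any (fun t => decide (t.2.1 = a x)) <;> simp

theorem pt_wEnt {r : α → Rel Idx} {b : α → Idx} (hr : PT r) (hb : PT b) :
    PT (fun x => wEnt (r x) (b x)) := by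
  refine (PT.cond (c := fun x => (r x).any (fun t => decide (t.2.2 = b x) && !t.1))
    (f := fun _ => some Val.half)
    (g := fun x => if (r x).any (fun t => decide (t.2.2 = b x)) then some Val.nhalf else none)
    ?_ (PT.const _) ?_).congr fun x => ?_
  · exact PT.any (f := r) (p := fun x t => decide (t.2.2 = b x) && !t.1) hr
      ((PT.eq PT.snd.snd'.snd' (hb.comp PT.fst)).and (PT.not PT.snd.fst'))
  · exact PT.cond (c := fun x => (r x).any (fun t => decide (t.2.2 = b x)))
      (f := fun _ => some Val.nhalf) (g := fun _ => none)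
      (PT.any (f := r) (p := fun x t => decide (t.2.2 = b x)) hr
        (PT.eq PT.snd.snd'.snd' (hb.comp PT.fst))) (PT.const _) (PT.const _)
  · unfold wEnt
    cases h1 : (r x).any (fun t => decide (t.2.2 = b x) && !t.1) <;>
      cases h2 : (r x).any (fun t => decide (t.2.2 = b x)) <;> simp

theorem pt_relEq {r r' : α → Rel Idx} (hr : PT r) (hr' : PT r') :
    PT (fun x => if r x = r' x then some Val.zero else none) :=
  PT.ite (c := fun x => r x = r' x) (PT.eq hr hr') (PT.const _) (PT.const _)

theorem pt_ent {v w : α → Vtx Idx} (hv : PT v) (hw : PT w) :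
    PT (fun x => ent Prod.fst cst (v x) (w x)) := by
  have hw' : ∀ {β : Type} [Enc β], PT (fun x : α × β => w x.1) := hw.comp PT.fst
  have a1 : ∀ {β γ : Type} [Enc β] [Enc γ], PT (fun x : (α × β) × γ => x.1.2) := PT.fst.snd'
  have a2 : ∀ {β γ : Type} [Enc β] [Enc γ], PT (fun x : (α × β) × γ => x.2) := PT.snd
  have h1 : PT (fun x : α × Idx => ent Prod.fst cst (.inl (.inl x.2)) (w x.1)) := by
    refine (pt_sum4 (f := fun x : α × Idx => w x.1)
      (g₁ := fun _ _ => some Val.zero) (g₂ := fun x b => crossEnt Prod.fst cst x.2 b)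
      (g₃ := fun x r => uEnt r x.2) (g₄ := fun _ _ => none) hw' (PT.const _)
      (pt_crossEnt a1 a2) (pt_uEnt a2 a1) (PT.const _)).congr fun x => ?_
    rcases w x.1 with (b | b) | (b | b) <;> rfl
  have h2 : PT (fun x : α × Idx => ent Prod.fst cst (.inl (.inr x.2)) (w x.1)) := by
    refine (pt_sum4 (f := fun x : α × Idx => w x.1)
      (g₁ := fun x b => crossEnt Prod.fst cst b x.2) (g₂ := fun _ _ => some Val.zero)
      (g₃ := fun _ _ => none) (g₄ := fun x r => wEnt r x.2) hw'
      (pt_crossEnt a2 a1) (PT.const _) (PT.const _) (pt_wEnt a2 a1)).congr fun x => ?_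
    rcases w x.1 with (b | b) | (b | b) <;> rfl
  have h3 : PT (fun x : α × Rel Idx => ent Prod.fst cst (.inr (.inl x.2)) (w x.1)) := by
    refine (pt_sum4 (f := fun x : α × Rel Idx => w x.1)
      (g₁ := fun x b => uEnt x.2 b) (g₂ := fun _ _ => none)
      (g₃ := fun _ _ => none) (g₄ := fun x r => if x.2 = r then some Val.zero else none) hw'
      (pt_uEnt a1 a2) (PT.const _) (PT.const _) (pt_relEq a1 a2)).congr fun x => ?_
    rcases w x.1 with (b | b) | (b | b) <;> rfl
  have h4 : PT (fun x : α × Rel Idx => ent Prod.fst cst (.inr (.inr x.2)) (w x.1)) := by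
    refine (pt_sum4 (f := fun x : α × Rel Idx => w x.1)
      (g₁ := fun _ _ => none) (g₂ := fun x b => wEnt x.2 b)
      (g₃ := fun x r => if r = x.2 then some Val.zero else none) (g₄ := fun _ _ => none) hw'
      (PT.const _) (pt_wEnt a1 a2) (pt_relEq a2 a1) (PT.const _)).congr fun x => ?_
    rcases w x.1 with (b | b) | (b | b) <;> rfl
  refine (pt_sum4 (f := v)
    (g₁ := fun x a => ent Prod.fst cst (.inl (.inl a)) (w x))
    (g₂ := fun x a => ent Prod.fst cst (.inl (.inr a)) (w x))
    (g₃ := fun x a => ent Prod.fst cst (.inr (.inl a)) (w x))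
    (g₄ := fun x a => ent Prod.fst cst (.inr (.inr a)) (w x)) hv h1 h2 h3 h4).congr fun x => ?_
  rcases v x with (b | b) | (b | b) <;> rfl

end

/-! ### The vertices and the table -/

/-- The vertices. -/
def verts (R : List (Rel Idx)) : List (Vtx Idx) :=
  undup ((indices R).flatMap (fun a => [.inl (.inl a), .inl (.inr a)]) ++
    R.flatMap fun r => [.inr (.inl r), .inr (.inr r)])

lemma mem_verts_e {R : List (Rel Idx)} {a : Idx} : .inl (.inl a) ∈ verts R ↔ a ∈ indices R := by
  simp [verts, mem_undup]

lemma mem_verts_f {R : List (Rel Idx)} {a : Idx} : .inl (.inr a) ∈ verts R ↔ a ∈ indices R := by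
  simp [verts, mem_undup]

lemma mem_verts_u {R : List (Rel Idx)} {r : Rel Idx} : .inr (.inl r) ∈ verts R ↔ r ∈ R := by
  simp [verts, mem_undup]

lemma mem_verts_w {R : List (Rel Idx)} {r : Rel Idx} : .inr (.inr r) ∈ verts R ↔ r ∈ R := by
  simp [verts, mem_undup]

/-- The entry of two vertices. -/
def entQ (v w : Vtx Idx) : Option ℚ :=
  if v = w then none else (ent Prod.fst cst v w).map Val.toRat

lemma entQ_symm (v w : Vtx Idx) : entQ v w = entQ w v := by
  unfold entQ
  rw [ent_symm]
  simp [eq_comm]

lemma entQ_self (v : Vtx Idx) : entQ v v = none := by simp [entQ]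

/-- The instance of elliptope membership defined by a list of vertices. -/
def ellOf (L : List (Vtx Idx)) : Ell where
  n := L.length
  G :=
    { Adj := fun i j => (entQ L[i] L[j]).isSome
      symm := ⟨fun i j h => by rw [entQ_symm]; exact h⟩
      loopless := ⟨fun i h => by rw [entQ_self] at h; exact absurd h (by simp)⟩ }
  x := fun e => Sym2.lift ⟨fun i j => (entQ L[i] L[j]).getD 0, fun i j => by simp only [entQ_symm]⟩ e.1

lemma ellOf_entry (L : List (Vtx Idx)) (i j : Fin L.length) :
    (ellOf L).entry i j = entQ L[i] L[j] := by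
  unfold Ell.entry
  by_cases h : (entQ L[i] L[j]).isSome = true
  · have h' : (ellOf L).G.Adj i j := h
    rw [dif_pos h']
    change some ((entQ L[i] L[j]).getD 0) = _
    obtain ⟨q, hq⟩ := Option.isSome_iff_exists.1 h
    rw [hq]; rfl
  · have h' : ¬ (ellOf L).G.Adj i j := h
    rw [dif_neg h']
    rw [Option.not_isSome_iff_eq_none] at h
    exact h.symm

lemma ellOf_table (L : List (Vtx Idx)) :
    (ellOf L).table = L.map fun v => L.map fun w => entQ v w := by
  unfold Ell.table
  refine List.ext_getElem (by simp [ellOf]) fun i h1 h2 => ?_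
  rw [List.getElem_ofFn, List.getElem_map]
  refine List.ext_getElem (by simp [ellOf]) fun j h3 h4 => ?_
  rw [List.getElem_ofFn, List.getElem_map]
  exact ellOf_entry L _ _

section

variable {α : Type} [Enc α]

theorem pt_indices {R : α → List (Rel Idx)} (hR : PT R) : PT (fun a => indices (R a)) := by
  refine PT.flatMap (f := R) (g := fun _ r => r.flatMap fun t => [t.2.1, t.2.2]) hR ?_
  exact PT.flatMap (f := fun x : α × Rel Idx => x.2) (g := fun _ t => [t.2.1, t.2.2]) PT.snd
    (PT.cons PT.snd.snd'.fst' (PT.list1 PT.snd.snd'.snd'))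

theorem pt_verts {R : α → List (Rel Idx)} (hR : PT R) : PT (fun a => verts (R a)) := by
  refine pt_undup (PT.append ?_ ?_)
  · exact PT.flatMap (f := fun a => indices (R a))
      (g := fun _ a => ([.inl (.inl a), .inl (.inr a)] : List (Vtx Idx))) (pt_indices hR)
      (PT.cons PT.snd.inl.inl (PT.list1 PT.snd.inr.inl))
  · exact PT.flatMap (f := R)
      (g := fun _ r => ([.inr (.inl r), .inr (.inr r)] : List (Vtx Idx))) hR
      (PT.cons PT.snd.inl.inr (PT.list1 PT.snd.inr.inr))

theorem pt_toRat {v : α → Option Val} (hv : PT v) : PT (fun a => (v a).map Val.toRat) := by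
  refine (PT.optCases (f := v) (g := fun _ => none) (h := fun _ x => some x.toRat) hv (PT.const _)
    (PT.some ((PT.ofFintype Val.toRat).comp PT.snd))).congr fun a => ?_
  cases v a <;> rfl

theorem pt_entQ {v w : α → Vtx Idx} (hv : PT v) (hw : PT w) :
    PT (fun x => entQ (v x) (w x)) :=
  PT.ite (c := fun x => v x = w x) (PT.eq hv hw) (PT.const _) (pt_toRat (pt_ent hv hw))

theorem pt_ellOf {L : α → List (Vtx Idx)} (hL : PT L) : PT (fun a => ellOf (L a)) := by
  refine PT.congr_enc (g := fun a => (L a).map fun v => (L a).map fun w => entQ v w) ?_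
    (fun a => ?_)
  · refine PT.map (f := L) (g := fun a v => (L a).map fun w => entQ v w) hL ?_
    exact PT.map (f := fun x : α × Vtx Idx => L x.1) (g := fun x w => entQ x.2 w)
      (hL.comp PT.fst) (pt_entQ PT.fst.snd' PT.snd)
  · rw [← ellOf_table]; rfl

end

end Pool.Agent.Lib.MP_13b08e_lc
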