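import Mathlib
import Pool.Agent.Lib.MP_13b08e_lc.Relations

/-!
# Completeness: a solution of the linear matrix inequality gives a realization of the relations
-/

namespace Pool.Agent.Lib.MP_13b08e_lc

set_option autoImplicit false

/-- The values of the base scalars. -/
noncomputable def bval (c : ℝ) (t : ℕ → ℝ) : Base → ℝ
  | .inl r => t r
  | .inr x => c * (x.1 : ℝ) * t x.2

/-- The blocks of the contraction. -/
noncomputable def blk (c : ℝ) (t : ℕ → ℝ) (C : ℕ → ℕ → List ℚ) : Cls → ℕ → ℕ → ℝ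
  | .zero _, _, _ => 0
  | .one, _, _ => 1
  | .s _ r, _, _ => (1 / 2) ^ 2 ^ r
  | .V b, _, _ => bval c t b
  | .F _ b bits, _, _ => frac bits * bval c t b
  | .H cs, _, _ => hv c t cs
  | .main, i, j => (if i = j then 1 else 0) - hv c t (C i j)
  | .chain r, i, j => if i = 0 ∧ j = 0 then 1 - (1 / 2) ^ 2 ^ (r + 1)
      else if i = 1 ∧ j = 1 then 0 else - (1 / 2) ^ 2 ^ r

/-- The contraction. -/
noncomputable def con (c : ℝ) (t : ℕ → ℝ) (C : ℕ → ℕ → List ℚ) (a b : Idx) : ℝ :=
  if a.1 = b.1 then blk c t C a.1 a.2 b.2 else 0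

/-- The admissible indices. -/
def Valid (c : ℝ) (t : ℕ → ℝ) (C : ℕ → ℕ → List ℚ) (n : ℕ) (a : Idx) : Prop :=
  (a.1 = .main ∧ a.2 < n) ∨ ((∃ r, a.1 = .chain r) ∧ a.2 < 2) ∨
    (a.1 ≠ .main ∧ (∀ r, a.1 ≠ .chain r) ∧ a.2 = 0 ∧ |blk c t C a.1 0 0| ≤ 1)

lemma block_nonneg (S : Finset Idx) (c : Cls) (p : ℕ) (hS : ∀ a ∈ S, a.1 = c ∧ a.2 < p)
    (M : Idx → Idx → ℝ)
    (h : ∀ z : ℕ → ℝ, 0 ≤ ∑ i ∈ Finset.range p, ∑ j ∈ Finset.range p, z i * M (c, i) (c, j) * z j)
    (x : Idx → ℝ) : 0 ≤ ∑ a ∈ S, ∑ b ∈ S, x a * M a b * x b := by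
  have key : ∀ f : Idx → ℝ, ∑ a ∈ S, f a =
      ∑ i ∈ Finset.range p, if (c, i) ∈ S then f (c, i) else 0 := by
    intro f
    rw [← Finset.sum_filter]
    refine Finset.sum_nbij' (fun a => a.2) (fun i => (c, i)) ?_ ?_ ?_ ?_ ?_
    · intro a ha
      rw [Finset.mem_filter, Finset.mem_range]
      obtain ⟨h1, h2⟩ := hS a ha
      refine ⟨h2, ?_⟩
      rw [← h1]
      exact ha
    · intro i hi
      rw [Finset.mem_filter] at hi
      exact hi.2
    · intro a ha
      obtain ⟨h1, h2⟩ := hS a ha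
      rw [← h1]
    · intro i hi; rfl
    · intro a ha
      obtain ⟨h1, h2⟩ := hS a ha
      rw [← h1]
  have h1 := h fun i => if (c, i) ∈ S then x (c, i) else 0
  rw [key]
  refine h1.trans (le_of_eq ?_)
  refine Finset.sum_congr rfl fun i _ => ?_
  split_ifs with hi
  · rw [key]
    refine Finset.sum_congr rfl fun j _ => ?_
    split_ifs with hj
    · rfl
    · rw [mul_zero]
  · simp

lemma pow_half_le_one (r : ℕ) : (1 / 2 : ℝ) ^ 2 ^ r ≤ 1 :=
  pow_le_one₀ (by norm_num) (by norm_num)

lemma pow_half_pos (r : ℕ) : 0 < (1 / 2 : ℝ) ^ 2 ^ r := by positivity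

lemma pow_half_succ (r : ℕ) : (1 / 2 : ℝ) ^ 2 ^ (r + 1) = ((1 / 2 : ℝ) ^ 2 ^ r) ^ 2 := by
  rw [← pow_mul, pow_succ]

section

variable {c : ℝ} {t : ℕ → ℝ} {C : ℕ → ℕ → List ℚ} {n : ℕ}

lemma blk_symm (hC : ∀ i j, C i j = C j i) (k : Cls) (i j : ℕ) :
    blk c t C k i j = blk c t C k j i := by
  cases k <;> simp only [blk]
  · rw [hC i j]; simp [eq_comm]
  · simp only [and_comm]

lemma con_symm (hC : ∀ i j, C i j = C j i) (a b : Idx) : con c t C a b = con c t C b a := by
  unfold con
  by_cases hab : a.1 = b.1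
  · rw [if_pos hab, if_pos hab.symm, hab, blk_symm hC]
  · rw [if_neg hab, if_neg fun h => hab h.symm]

/-- The two quadratic forms are positive semidefinite. -/
lemma psd_con (S : Finset Idx) (hS : ∀ a ∈ S, Valid c t C n a)
    (hC : ∀ i j, C i j = C j i)
    (h1 : ∀ z : ℕ → ℝ, 0 ≤ ∑ i ∈ Finset.range n, ∑ j ∈ Finset.range n, z i * hv c t (C i j) * z j)
    (h2 : ∀ z : ℕ → ℝ, ∑ i ∈ Finset.range n, ∑ j ∈ Finset.range n, z i * hv c t (C i j) * z j ≤
      2 * ∑ i ∈ Finset.range n, z i * z i) (σ : ℝ) (hσ : σ = 1 ∨ σ = -1) :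
    (Matrix.of fun a b : S => ((if (a : Idx) = b then (1 : ℝ) else 0) + σ * con c t C a b)).PosSemidef := by
  refine posSemidef_of_blocks Prod.fst S
    (fun a b => (if a = b then (1 : ℝ) else 0) + σ * con c t C a b) ?_ ?_ ?_
  · intro a b
    rw [con_symm hC a b]
    simp [eq_comm]
  · intro a b hab
    have : a ≠ b := fun h => hab (by rw [h])
    simp [this, con, hab]
  · intro k x
    have hk : ∀ a ∈ S.filter (fun a => a.1 = k), a.1 = k ∧ Valid c t C n a := by
      intro a ha
      rw [Finset.mem_filter] at ha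
      exact ⟨ha.2, hS a ha.1⟩
    have hM : ∀ i j, (if ((k, i) : Idx) = (k, j) then (1 : ℝ) else 0) + σ * con c t C (k, i) (k, j)
        = (if i = j then (1 : ℝ) else 0) + σ * blk c t C k i j := by
      intro i j
      simp [con]
    have hxx : ∀ z : ℕ → ℝ, ∑ i ∈ Finset.range n, ∑ j ∈ Finset.range n,
        z i * (if i = j then (1 : ℝ) else 0) * z j = ∑ i ∈ Finset.range n, z i * z i := by
      intro z
      refine Finset.sum_congr rfl fun i hi => ?_
      rw [Finset.sum_eq_single_of_mem i hi]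
      · simp
      · intro j _ hji
        simp [hji.symm]
    by_cases hmain : k = .main
    · refine block_nonneg _ k n (fun a ha => ⟨(hk a ha).1, ?_⟩)
        (fun a b => (if a = b then (1 : ℝ) else 0) + σ * con c t C a b) ?_ x
      · obtain ⟨e, hv | ⟨⟨r, hv⟩, -⟩ | hv⟩ := hk a ha
        · exact hv.2
        · rw [e, hmain] at hv; cases hv
        · exact absurd (e.trans hmain) hv.1
      · intro z
        simp only [hM]
        subst hmain
        have e1 : ∑ i ∈ Finset.range n, ∑ j ∈ Finset.range n,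
            z i * ((if i = j then (1 : ℝ) else 0) + σ * blk c t C .main i j) * z j =
            (1 + σ) * ∑ i ∈ Finset.range n, z i * z i -
              σ * ∑ i ∈ Finset.range n, ∑ j ∈ Finset.range n, z i * hv c t (C i j) * z j := by
          rw [← hxx z, Finset.mul_sum, Finset.mul_sum, ← Finset.sum_sub_distrib]
          refine Finset.sum_congr rfl fun i _ => ?_
          rw [Finset.mul_sum, Finset.mul_sum, ← Finset.sum_sub_distrib]
          refine Finset.sum_congr rfl fun j _ => ?_
          simp only [blk]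
          ring
        rw [e1]
        have h3 := h1 z
        have h4 := h2 z
        rcases hσ with rfl | rfl <;> linarith
    · by_cases hchain : ∃ r, k = .chain r
      · obtain ⟨r, rfl⟩ := hchain
        refine block_nonneg _ (.chain r) 2 (fun a ha => ⟨(hk a ha).1, ?_⟩)
          (fun a b => (if a = b then (1 : ℝ) else 0) + σ * con c t C a b) ?_ x
        · obtain ⟨e, hv | hv | hv⟩ := hk a ha
          · exact absurd (e.symm.trans hv.1) hmain
          · exact hv.2
          · exact absurd e (hv.2.1 r)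
        · intro z
          simp only [hM]
          simp only [Finset.sum_range_succ, Finset.sum_range_zero, zero_add, blk]
          norm_num
          rw [pow_half_succ]
          have h3 := pow_half_le_one r
          have h4 := pow_half_pos r
          set s : ℝ := (1 / 2 : ℝ) ^ 2 ^ r with hs
          have h5 : 0 ≤ 1 - s ^ 2 := by nlinarith
          rcases hσ with rfl | rfl
          · nlinarith [sq_nonneg (z 1 - z 0 * s), mul_nonneg h5 (sq_nonneg (z 0))]
          · nlinarith [sq_nonneg (z 1 + z 0 * s)]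
      · have hsc : ∀ a ∈ S.filter (fun a => a.1 = k), a.1 = k ∧ a.2 = 0 ∧ |blk c t C k 0 0| ≤ 1 := by
          intro a ha
          obtain ⟨e, hv | hv | hv⟩ := hk a ha
          · exact absurd (e.symm.trans hv.1) hmain
          · obtain ⟨⟨r, hr⟩, -⟩ := hv
            exact absurd ⟨r, e.symm.trans hr⟩ hchain
          · refine ⟨e, hv.2.2.1, ?_⟩
            rw [← e]
            exact hv.2.2.2
        rcases (S.filter (fun a => a.1 = k)).eq_empty_or_nonempty with h0 | ⟨a₀, h0⟩
        · rw [h0]; simp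
        · have habs := (hsc a₀ h0).2.2
          refine block_nonneg _ k 1 (fun a ha => ⟨(hsc a ha).1, by rw [(hsc a ha).2.1]; norm_num⟩)
            (fun a b => (if a = b then (1 : ℝ) else 0) + σ * con c t C a b) ?_ x
          intro z
          simp only [hM]
          simp only [Finset.sum_range_succ, Finset.sum_range_zero, zero_add, if_true]
          rw [abs_le] at habs
          have h5 : 0 ≤ 1 + σ * blk c t C k 0 0 := by
            rcases hσ with rfl | rfl <;> linarith
          have : z 0 * (1 + σ * blk c t C k 0 0) * z 0 = (1 + σ * blk c t C k 0 0) * z 0 ^ 2 := by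
            ring
          rw [this]
          positivity

/-- A good relation holds and its indices are admissible. -/
def Good (c : ℝ) (t : ℕ → ℝ) (C : ℕ → ℕ → List ℚ) (n : ℕ) (r : Rel Idx) : Prop :=
  (∀ x ∈ r, Valid c t C n x.2.1 ∧ Valid c t C n x.2.2) ∧
    (r.map fun x => sg x.1 * con c t C x.2.1 x.2.2).sum = 0

lemma valid_scalar {k : Cls} (h1 : k ≠ .main) (h2 : ∀ r, k ≠ .chain r)
    (h : |blk c t C k 0 0| ≤ 1) (σ : Bool) :
    Valid c t C n (tm σ k).2.1 ∧ Valid c t C n (tm σ k).2.2 :=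
  ⟨Or.inr (Or.inr ⟨h1, h2, rfl, h⟩), Or.inr (Or.inr ⟨h1, h2, rfl, h⟩)⟩

lemma valid_zero (σ : Bool) (i : ℕ) :
    Valid c t C n (tm σ (.zero i)).2.1 ∧ Valid c t C n (tm σ (.zero i)).2.2 :=
  valid_scalar (by simp) (by simp) (by simp [blk]) σ

lemma valid_one (σ : Bool) : Valid c t C n (tm σ .one).2.1 ∧ Valid c t C n (tm σ .one).2.2 :=
  valid_scalar (by simp) (by simp) (by simp [blk]) σ

lemma valid_s (σ p : Bool) (r : ℕ) :
    Valid c t C n (tm σ (.s p r)).2.1 ∧ Valid c t C n (tm σ (.s p r)).2.2 := by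
  refine valid_scalar (by simp) (by simp) ?_ σ
  simp only [blk]
  rw [abs_of_pos (pow_half_pos r)]
  exact pow_half_le_one r

lemma valid_V (σ : Bool) {b : Base} (hb : |bval c t b| ≤ 1) :
    Valid c t C n (tm σ (.V b)).2.1 ∧ Valid c t C n (tm σ (.V b)).2.2 := by
  refine valid_scalar (by simp) (by simp) ?_ σ
  simpa only [blk] using hb

lemma valid_F (σ p : Bool) {b : Base} (hb : |bval c t b| ≤ 1) (bits : List Bool) :
    Valid c t C n (tm σ (.F p b bits)).2.1 ∧ Valid c t C n (tm σ (.F p b bits)).2.2 := by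
  refine valid_scalar (by simp) (by simp) ?_ σ
  simp only [blk]
  rw [abs_mul, abs_of_nonneg (frac_nonneg bits)]
  exact mul_le_one₀ (frac_le_one bits) (abs_nonneg _) hb

lemma valid_H (σ : Bool) {cs : List ℚ} (hb : |hv c t cs| ≤ 1) :
    Valid c t C n (tm σ (.H cs)).2.1 ∧ Valid c t C n (tm σ (.H cs)).2.2 := by
  refine valid_scalar (by simp) (by simp) ?_ σ
  simpa only [blk] using hb

lemma con_tm (σ : Bool) (k : Cls) :
    con c t C (tm σ k).2.1 (tm σ k).2.2 = blk c t C k 0 0 := by simp [con, tm]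

lemma con_cell (σ : Bool) (k : Cls) (i j : ℕ) :
    con c t C (cell σ k i j).2.1 (cell σ k i j).2.2 = blk c t C k i j := by simp [con, cell]

lemma tm_fst (σ : Bool) (k : Cls) : (tm σ k).1 = σ := rfl
lemma cell_fst (σ : Bool) (k : Cls) (i j : ℕ) : (cell σ k i j).1 = σ := rfl
lemma sg_t : sg true = -1 := by simp [sg]
lemma sg_f : sg false = 1 := by simp [sg]

/-- Goodness of a relation with four terms. -/
lemma good4 {x y z w : Term Idx} (hx : Valid c t C n x.2.1 ∧ Valid c t C n x.2.2)
    (hy : Valid c t C n y.2.1 ∧ Valid c t C n y.2.2)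
    (hz : Valid c t C n z.2.1 ∧ Valid c t C n z.2.2)
    (hw : Valid c t C n w.2.1 ∧ Valid c t C n w.2.2)
    (h : sg x.1 * con c t C x.2.1 x.2.2 + sg y.1 * con c t C y.2.1 y.2.2 +
      sg z.1 * con c t C z.2.1 z.2.2 + sg w.1 * con c t C w.2.1 w.2.2 = 0) :
    Good c t C n [x, y, z, w] := by
  constructor
  · intro u hu
    simp only [List.mem_cons, List.not_mem_nil, or_false] at hu
    rcases hu with rfl | rfl | rfl | rfl
    · exact hx
    · exact hy
    · exact hz
    · exact hw
  · simp only [List.map_cons, List.map_nil, List.sum_cons, List.sum_nil]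
    linarith

lemma good_bitRel {b : Base} (hb : |bval c t b| ≤ 1) (bits : List Bool) :
    ∀ r ∈ bitRel b bits, Good c t C n r := by
  intro r hr
  cases bits with
  | nil =>
    simp only [bitRel, List.mem_singleton] at hr
    subst hr
    refine good4 (valid_F _ _ hb _) (valid_zero _ _) (valid_zero _ _) (valid_zero _ _) ?_
    simp [con_tm, blk, frac]
  | cons β bs =>
    simp only [bitRel, List.mem_cons, List.not_mem_nil, or_false] at hr
    rcases hr with rfl | rfl
    · refine good4 (valid_F _ _ hb _) (valid_F _ _ hb _) (valid_F _ _ hb _) ?_ ?_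
      · cases β
        · exact valid_zero _ _
        · exact valid_V _ hb
      · simp only [con_tm, tm_fst, sg_t, sg_f]
        cases β
        · simp only [blk, frac, Bool.false_eq_true, if_false]; ring
        · simp only [blk, frac, if_true]; ring
    · refine good4 (valid_F _ _ hb _) (valid_F _ _ hb _) (valid_zero _ _) (valid_zero _ _) ?_
      simp only [con_tm, tm_fst, sg_t, sg_f, blk]; ring

lemma good_baseRels {k m : ℕ} (htm : t m = (1 / 2) ^ 2 ^ k) :
    ∀ r ∈ baseRels k m, Good c t C n r := by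
  intro r hr
  simp only [baseRels, List.mem_cons, List.not_mem_nil, or_false] at hr
  rcases hr with rfl | rfl | rfl
  · refine good4 (valid_s _ _ _) (valid_s _ _ _) (valid_one _) (valid_zero _ _) ?_
    simp only [con_tm, tm_fst, sg_t, sg_f, blk]; norm_num
  · refine good4 (valid_s _ _ _) (valid_s _ _ _) (valid_zero _ _) (valid_zero _ _) ?_
    simp only [con_tm, tm_fst, sg_t, sg_f, blk]; norm_num
  · refine good4 (valid_V _ ?_) (valid_s _ _ _) (valid_zero _ _) (valid_zero _ _) ?_
    · simp only [bval, htm]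
      rw [abs_of_pos (pow_half_pos k)]
      exact pow_half_le_one k
    · simp only [con_tm, tm_fst, sg_t, sg_f, blk, bval, htm]; ring

lemma good_chainRels (r : ℕ) : ∀ x ∈ chainRels r, Good c t C n x := by
  intro x hx
  have hv : ∀ i j, i < 2 → j < 2 → Valid c t C n (cell false (.chain r) i j).2.1 ∧
      Valid c t C n (cell false (.chain r) i j).2.2 := fun i j hi hj =>
    ⟨Or.inr (Or.inl ⟨⟨r, rfl⟩, hi⟩), Or.inr (Or.inl ⟨⟨r, rfl⟩, hj⟩)⟩
  simp only [chainRels, List.mem_cons, List.not_mem_nil, or_false] at hx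
  rcases hx with rfl | rfl | rfl | rfl
  · refine good4 (hv 0 0 (by norm_num) (by norm_num)) (valid_s _ _ _) (valid_one _)
      (valid_zero _ _) ?_
    simp only [con_tm, con_cell, tm_fst, cell_fst, sg_t, sg_f, blk]; norm_num
  · refine good4 (hv 0 1 (by norm_num) (by norm_num)) (valid_s _ _ _) (valid_zero _ _)
      (valid_zero _ _) ?_
    simp only [con_tm, con_cell, tm_fst, cell_fst, sg_t, sg_f, blk]; norm_num
  · refine good4 (hv 1 0 (by norm_num) (by norm_num)) (valid_s _ _ _) (valid_zero _ _)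
      (valid_zero _ _) ?_
    simp only [con_tm, con_cell, tm_fst, cell_fst, sg_t, sg_f, blk]; norm_num
  · refine good4 (hv 1 1 (by norm_num) (by norm_num)) (valid_zero _ _) (valid_zero _ _)
      (valid_zero _ _) ?_
    simp only [con_tm, con_cell, tm_fst, cell_fst, sg_t, sg_f, blk]; norm_num

lemma good_coefRels {P Q : ℕ} (hc : c = 2 ^ Q / 2 ^ P) (ht : ∀ r, |t r| ≤ 1) (cs : List ℚ)
    (hP : ∀ q ∈ cs, q.num.natAbs.bits.length ≤ P) (hQ : ∀ q ∈ cs, q.den.bits.length ≤ Q)
    (hq : ∀ q ∈ cs, ∀ r, |c * (q : ℝ) * t r| ≤ 1)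
    (hH : ∀ cs', cs' <:+ cs → |hv c t cs'| ≤ 1) :
    ∀ r ∈ coefRels P Q cs, Good c t C n r := by
  intro r hr
  cases cs with
  | nil =>
    simp only [coefRels, List.mem_singleton] at hr
    subst hr
    refine good4 (valid_H _ (hH [] (List.suffix_refl _))) (valid_zero _ _) (valid_zero _ _)
      (valid_zero _ _) ?_
    simp [con_tm, blk, hv]
  | cons q cs =>
    have hb2 : |bval c t (.inr (q, cs.length))| ≤ 1 := hq q (List.mem_cons_self ..) _
    have hb1 : |bval c t (.inl cs.length)| ≤ 1 := ht _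
    simp only [coefRels, List.mem_append, List.mem_cons, List.not_mem_nil, or_false] at hr
    rcases hr with (rfl | rfl) | hr | hr
    · refine good4 (valid_H _ (hH _ (List.suffix_refl _)))
        (valid_H _ (hH _ (List.suffix_cons _ _))) (valid_V _ hb2) (valid_zero _ _) ?_
      simp only [con_tm, tm_fst, sg_t, sg_f, blk, hv, bval]; ring
    · refine good4 (valid_F _ _ hb1 _) (valid_F _ _ hb2 _) (valid_zero _ _) (valid_zero _ _) ?_
      simp only [con_tm, tm_fst, sg_t, sg_f, blk, bval]
      rw [frac_pad (hP q (List.mem_cons_self ..)), frac_pad (hQ q (List.mem_cons_self ..)),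
        num_bits, num_bits, hc]
      have hd : (q.den : ℝ) ≠ 0 := by exact_mod_cast q.den_ne_zero
      have h2 : (q : ℝ) = (q.num : ℝ) / (q.den : ℝ) := by
        exact_mod_cast (Rat.num_div_den q).symm
      have h3 : sg (decide (q.num < 0)) * (q.num.natAbs : ℝ) = (q.num : ℝ) := by
        by_cases hn : q.num < 0
        · have : (q.num.natAbs : ℤ) = - q.num := by omega
          have h3 : (q.num.natAbs : ℝ) = - (q.num : ℝ) := by
            rw [← Int.cast_natCast, this, Int.cast_neg]
          rw [h3]; simp [sg, hn]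
        · have : (q.num.natAbs : ℤ) = q.num := by omega
          have h3 : (q.num.natAbs : ℝ) = (q.num : ℝ) := by
            rw [← Int.cast_natCast, this]
          rw [h3]; simp [sg, hn]
      have hP' : (2 : ℝ) ^ P ≠ 0 := by positivity
      have hQ' : (2 : ℝ) ^ Q ≠ 0 := by positivity
      have h4 : sg (decide (q.num < 0)) * ((q.num.natAbs : ℝ) / 2 ^ P * t cs.length) =
          (q.num : ℝ) / 2 ^ P * t cs.length := by rw [← h3]; ring
      rw [h4, h2]
      field_simp
      ring
    · exact forall_bitsRels (fun bits => good_bitRel hb1 bits) _ r hr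
    · exact forall_bitsRels (fun bits => good_bitRel hb2 bits) _ r hr

/-- All the relations are good. -/
theorem good_allRels {P Q k m : ℕ} {tbl : List (List (List ℚ))} (hc : c = 2 ^ Q / 2 ^ P)
    (htm : t m = (1 / 2) ^ 2 ^ k) (ht : ∀ r, |t r| ≤ 1)
    (htbl : ∀ i j row cs, tbl[i]? = some row → row[j]? = some cs →
      i < n ∧ j < n ∧ C i j = cs ∧ (∀ q ∈ cs, q.num.natAbs.bits.length ≤ P) ∧
      (∀ q ∈ cs, q.den.bits.length ≤ Q) ∧ (∀ q ∈ cs, ∀ r, |c * (q : ℝ) * t r| ≤ 1) ∧
      (∀ cs', cs' <:+ cs → |hv c t cs'| ≤ 1)) :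
    ∀ r ∈ allRels P Q k m tbl, Good c t C n r := by
  refine forall_allRels (good_baseRels htm) (fun i _ => good_chainRels i) ?_
  intro i j row cs hi hj r hr
  obtain ⟨hin, hjn, hC, hP, hQ, hq, hH⟩ := htbl i j row cs hi hj
  simp only [entRels, List.mem_cons, List.mem_flatMap] at hr
  rcases hr with rfl | ⟨cs', hcs', hr⟩
  · refine good4 ⟨Or.inl ⟨rfl, hin⟩, Or.inl ⟨rfl, hjn⟩⟩ (valid_H _ (hH _ (List.suffix_refl _)))
      ?_ (valid_zero _ _) ?_
    · by_cases hij : i = j
      · rw [if_pos hij]; exact valid_one _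
      · rw [if_neg hij]; exact valid_zero _ _
    · simp only [con_tm, con_cell, tm_fst, cell_fst, sg_t, sg_f]
      by_cases hij : i = j
      · simp only [hij, if_true, blk]
        rw [← hC, hij]; ring
      · simp only [hij, if_false, blk]
        rw [← hC]; ring
  · rw [List.mem_tails] at hcs'
    exact good_coefRels hc ht cs' (fun q hq' => hP q (hcs'.subset hq'))
      (fun q hq' => hQ q (hcs'.subset hq')) (fun q hq' => hq q (hcs'.subset hq'))
      (fun cs'' h'' => hH cs'' (h''.trans hcs')) r hr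

/-- Completeness: there is a realization. -/
theorem exists_real {R : List (Rel Idx)} (hR : ∀ r ∈ R, Good c t C n r)
    (hC : ∀ i j, C i j = C j i)
    (h1 : ∀ z : ℕ → ℝ, 0 ≤ ∑ i ∈ Finset.range n, ∑ j ∈ Finset.range n, z i * hv c t (C i j) * z j)
    (h2 : ∀ z : ℕ → ℝ, ∑ i ∈ Finset.range n, ∑ j ∈ Finset.range n, z i * hv c t (C i j) * z j ≤
      2 * ∑ i ∈ Finset.range n, z i * z i) :
    ∃ (H : Type) (_ : NormedAddCommGroup H) (_ : InnerProductSpace ℝ H) (E F : Idx → H),
      Real Prod.fst cst {a | a ∈ indices R} R E F := by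
  have hS : ∀ a ∈ (indices R).toFinset, Valid c t C n a := by
    intro a ha
    rw [List.mem_toFinset] at ha
    unfold indices at ha
    simp only [List.mem_flatMap, List.mem_cons, List.not_mem_nil, or_false] at ha
    obtain ⟨r, hr, x, hx, rfl | rfl⟩ := ha
    · exact ((hR r hr).1 x hx).1
    · exact ((hR r hr).1 x hx).2
  have hp := psd_con (indices R).toFinset hS hC h1 h2 1 (Or.inl rfl)
  have hm := psd_con (indices R).toFinset hS hC h1 h2 (-1) (Or.inr rfl)
  obtain ⟨E, F, hE, hF, hEF⟩ := exists_families (indices R).toFinset (con c t C)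
    (by simpa using hp) (by simpa [sub_eq_add_neg] using hm)
  simp only [List.mem_toFinset] at hE hF hEF
  refine ⟨_, inferInstance, inferInstance, E, F, hE, hF, ?_, ?_, ?_⟩
  · intro a ha b hb hab
    rw [hEF a ha b hb, con, if_neg hab]
  · intro a ha b hb hab v hv
    rw [hEF a ha b hb, con, if_pos hab]
    unfold cst at hv
    split_ifs at hv with g1 g2
    · simp only [Option.some.injEq] at hv
      subst hv
      rw [g1]; simp [blk, Val.toRat]
    · simp only [Option.some.injEq] at hv
      subst hv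
      rcases g2 with g2 | g2 | g2 <;> rw [g2] <;> simp [blk, Val.toRat]
  · intro r hr
    rw [← (hR r hr).2]
    congr 1
    refine List.map_congr_left fun x hx => ?_
    rw [hEF _ (mem_indices hr hx).1 _ (mem_indices hr hx).2]

end

end Pool.Agent.Lib.MP_13b08e_lc
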