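import Mathlib
import Pool.Agent.Lib.MP_13b08e_lc.Defs

/-!
A graph on eight vertices, chordal after adding two edges, with a rational point of its elliptope all
of whose positive semidefinite completions have an irrational entry.
-/

namespace Pool.Agent.Lib.MP_13b08e_lc.Example

open Pool.Agent.Lib.MP_13b08e_lc

/-- The list of edges. -/
def edges : List (Fin 8 × Fin 8) :=
  [(0, 2), (0, 3), (1, 2), (1, 3), (0, 4), (0, 5), (1, 4), (1, 5), (4, 5),
   (2, 6), (2, 7), (3, 6), (3, 7), (6, 7)]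

/-- The graph. -/
def G : SimpleGraph (Fin 8) := SimpleGraph.fromRel fun i j => (i, j) ∈ edges

instance : DecidableRel G.Adj := fun i j => by
  unfold G SimpleGraph.fromRel
  infer_instance

/-- The rational data; the entries outside the edges are not used. -/
def A : Matrix (Fin 8) (Fin 8) ℚ :=
  !![1, 0, 0, 7/15, 7/10, 3/5, 0, 0;
     0, 1, -7/10, 2/9, -2/5, -13/15, 0, 0;
     0, -7/10, 1, 0, 0, 0, 7/10, 3/5;
     7/15, 2/9, 0, 1, 0, 0, -14/15, -16/45;
     7/10, -2/5, 0, 0, 1, 0, 0, 0;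
     3/5, -13/15, 0, 0, 0, 1, 0, 0;
     0, 0, 7/10, -14/15, 0, 0, 1, 0;
     0, 0, 3/5, -16/45, 0, 0, 0, 1]

lemma A_symm (i j : Fin 8) : A i j = A j i := by
  fin_cases i <;> fin_cases j <;> rfl

/-- The rational point. -/
def x : G.edgeSet → ℚ := fun e => Sym2.lift ⟨fun i j => A i j, A_symm⟩ e.1

lemma x_apply (i j : Fin 8) (h : G.Adj i j) : x ⟨s(i, j), h⟩ = A i j := rfl

/-- Weights of the completion. -/
noncomputable def d : Fin 5 → ℝ :=
  ![1, (26 / 75) + (8 / 75) * √3, (-943 / 968) + (147 / 242) * √3, (13 / 40) + (1 / 10) * √3,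
    (169844 / 2210645) + (29008 / 2210645) * √3]

/-- Linear forms of the completion. -/
noncomputable def L : Fin 5 → Fin 8 → ℝ :=
  ![![1, (-4 / 5) + (1 / 15) * √3, 0, (7 / 15), (7 / 10), (3 / 5),
      (-1373274 / 2210645) + (74137 / 2210645) * √3, (701708 / 2210645) + (-82054 / 2210645) * √3],
    ![0, 1, (-1365 / 484) + (105 / 121) * √3, (83 / 33) + (-19 / 22) * √3,
      (9 / 11) + (-17 / 44) * √3, (-31 / 22) + (7 / 22) * √3,
      (-9957339 / 4863419) + (3488345 / 4863419) * √3,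
      (-87972982 / 53497609) + (24755760 / 53497609) * √3],
    ![0, 0, 1, (-4 / 3) + (-2 / 9) * √3, 0, 0, (561904 / 442129) + (122500 / 442129) * √3,
      (149552 / 442129) + (-53760 / 442129) * √3],
    ![0, 0, 0, 0, 1, (-2 / 11) + (-10 / 33) * √3, 0, 0],
    ![0, 0, 0, 0, 0, 0, 1, (-329 / 122) + (35 / 183) * √3]]

/-- The completion. -/
noncomputable def X : Matrix (Fin 8) (Fin 8) ℝ := Matrix.of fun i j => ∑ k, d k * L k i * L k j

lemma sqrt3_sq : √3 * √3 = (3 : ℝ) := Real.mul_self_sqrt (by norm_num)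

lemma sqrt3_lo : (1.7 : ℝ) < √3 := by
  rw [Real.lt_sqrt (by norm_num)]; norm_num

lemma d_nonneg (k : Fin 5) : 0 ≤ d k := by
  have h := sqrt3_lo
  fin_cases k <;> simp [d] <;> linarith

lemma X_symm (i j : Fin 8) : X i j = X j i := by
  simp only [X, Matrix.of_apply]
  exact Finset.sum_congr rfl fun k _ => by ring

lemma X_psd : X.PosSemidef := posSemidef_of_sum d L d_nonneg

lemma X_eq (i j : Fin 8) : X i j = d 0 * L 0 i * L 0 j + d 1 * L 1 i * L 1 j + d 2 * L 2 i * L 2 j +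
    d 3 * L 3 i * L 3 j + d 4 * L 4 i * L 4 j := by
  simp only [X, Matrix.of_apply, Fin.sum_univ_five]

lemma X_diag (i : Fin 8) : X i i = 1 := by
  have h2 : √3 ^ 2 = (3 : ℝ) := Real.sq_sqrt (by norm_num)
  have h3 : √3 ^ 3 = (3 : ℝ) * √3 := by rw [pow_succ, h2]
  rw [X_eq]
  fin_cases i <;> simp only [d, L] <;> simp <;> (try ring_nf) <;> (try simp only [h2, h3]) <;>
    (try ring_nf)

lemma X_edge (i j : Fin 8) (h : (i, j) ∈ edges) : X i j = (A i j : ℝ) := by
  have h2 : √3 ^ 2 = (3 : ℝ) := Real.sq_sqrt (by norm_num)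
  have h3 : √3 ^ 3 = (3 : ℝ) * √3 := by rw [pow_succ, h2]
  rw [X_eq]
  simp only [edges, List.mem_cons, Prod.mk.injEq, List.not_mem_nil, or_false] at h
  rcases h with ⟨rfl, rfl⟩ | ⟨rfl, rfl⟩ | ⟨rfl, rfl⟩ | ⟨rfl, rfl⟩ | ⟨rfl, rfl⟩ | ⟨rfl, rfl⟩ |
    ⟨rfl, rfl⟩ | ⟨rfl, rfl⟩ | ⟨rfl, rfl⟩ | ⟨rfl, rfl⟩ | ⟨rfl, rfl⟩ | ⟨rfl, rfl⟩ | ⟨rfl, rfl⟩ |
    ⟨rfl, rfl⟩ <;> simp only [d, L, A] <;> simp <;> (try ring_nf) <;>
    (try simp only [h2, h3]) <;> (try ring_nf)

theorem completion : IsCompletion G x X where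
  psd := X_psd
  diag := X_diag
  edge := fun i j h => by
    rw [x_apply]
    have h' := h
    unfold G at h'
    rw [SimpleGraph.fromRel_adj] at h'
    rcases h'.2 with h1 | h1
    · exact X_edge i j h1
    · rw [X_symm, A_symm]
      exact X_edge j i h1

/-- The quadratic form of a positive semidefinite matrix, written out. -/
lemma quad_nonneg {Y : Matrix (Fin 8) (Fin 8) ℝ} (hY : Y.PosSemidef) (v : Fin 8 → ℝ) :
    0 ≤ ∑ i, ∑ j, v i * Y i j * v j := by
  have h := hY.dotProduct_mulVec_nonneg v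
  simp only [dotProduct, Matrix.mulVec, Finset.mul_sum, star_trivial] at h
  refine h.trans_eq (Finset.sum_congr rfl fun i _ => Finset.sum_congr rfl fun j _ => ?_)
  ring

lemma entry_symm {Y : Matrix (Fin 8) (Fin 8) ℝ} (hY : Y.PosSemidef) (i j : Fin 8) :
    Y i j = Y j i := by
  have := hY.isHermitian.apply i j
  simpa using this.symm

lemma entry {Y : Matrix (Fin 8) (Fin 8) ℝ} (hY : IsCompletion G x Y) (i j : Fin 8)
    (h : (i, j) ∈ edges) (hij : i ≠ j) : Y i j = (A i j : ℝ) := by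
  have hadj : G.Adj i j := by
    unfold G
    rw [SimpleGraph.fromRel_adj]
    exact ⟨hij, Or.inl h⟩
  rw [hY.edge i j hadj, x_apply]

/-- The forced value of the entry `01`. -/
theorem forced {Y : Matrix (Fin 8) (Fin 8) ℝ} (hY : IsCompletion G x Y) :
    Y 0 1 = -4 / 5 + √3 / 15 := by
  have h2 : √3 ^ 2 = (3 : ℝ) := Real.sq_sqrt (by norm_num)
  have h3 : √3 ^ 3 = (3 : ℝ) * √3 := by rw [pow_succ, h2]
  have hs := sqrt3_lo
  have e02 : Y 0 2 = 0 := by rw [entry hY 0 2 (by decide) (by decide)]; simp [A]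
  have e03 : Y 0 3 = 7 / 15 := by rw [entry hY 0 3 (by decide) (by decide)]; simp [A]
  have e12 : Y 1 2 = -7 / 10 := by rw [entry hY 1 2 (by decide) (by decide)]; simp [A]
  have e13 : Y 1 3 = 2 / 9 := by rw [entry hY 1 3 (by decide) (by decide)]; simp [A]
  have e04 : Y 0 4 = 7 / 10 := by rw [entry hY 0 4 (by decide) (by decide)]; simp [A]
  have e05 : Y 0 5 = 3 / 5 := by rw [entry hY 0 5 (by decide) (by decide)]; simp [A]
  have e14 : Y 1 4 = -2 / 5 := by rw [entry hY 1 4 (by decide) (by decide)]; simp [A]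
  have e15 : Y 1 5 = -13 / 15 := by rw [entry hY 1 5 (by decide) (by decide)]; simp [A]
  have e45 : Y 4 5 = 0 := by rw [entry hY 4 5 (by decide) (by decide)]; simp [A]
  have e26 : Y 2 6 = 7 / 10 := by rw [entry hY 2 6 (by decide) (by decide)]; simp [A]
  have e27 : Y 2 7 = 3 / 5 := by rw [entry hY 2 7 (by decide) (by decide)]; simp [A]
  have e36 : Y 3 6 = -14 / 15 := by rw [entry hY 3 6 (by decide) (by decide)]; simp [A]
  have e37 : Y 3 7 = -16 / 45 := by rw [entry hY 3 7 (by decide) (by decide)]; simp [A]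
  have e67 : Y 6 7 = 0 := by rw [entry hY 6 7 (by decide) (by decide)]; simp [A]
  have hd := hY.diag
  have hsym := entry_symm hY.psd
  -- upper bound of the entry 01
  have b1 : Y 0 1 ≤ -4 / 5 + √3 / 15 := by
    have h := quad_nonneg hY.psd
      ![-(4 * √3 / 9), 1, 0, 0, (7 / 10) * (4 * √3 / 9) + 2 / 5, (3 / 5) * (4 * √3 / 9) + 13 / 15,
        0, 0]
    simp only [Fin.sum_univ_eight] at h
    simp [hd, hsym 1 0, hsym 4 0, hsym 5 0, hsym 4 1, hsym 5 1, hsym 5 4, e04, e05, e14, e15, e45]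
      at h
    ring_nf at h
    simp only [h2] at h
    ring_nf at h
    have h5 : 0 ≤ √3 * (-4 / 5 + √3 / 15 - Y 0 1) := by
      ring_nf
      simp only [h2]
      ring_nf
      linarith
    have h6 : 0 < √3 := by linarith
    have := nonneg_of_mul_nonneg_right h5 h6
    linarith
  -- upper bound of the entry 23
  have b2 : Y 2 3 ≤ -13 / 15 + √3 / 90 := by
    have h := quad_nonneg hY.psd
      ![0, 0, -(2 * √3 / 27), 1, 0, 0, (7 / 10) * (2 * √3 / 27) + 14 / 15,
        (3 / 5) * (2 * √3 / 27) + 16 / 45]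
    simp only [Fin.sum_univ_eight] at h
    simp [hd, hsym 3 2, hsym 6 2, hsym 7 2, hsym 6 3, hsym 7 3, hsym 7 6, e26, e27, e36, e37, e67]
      at h
    ring_nf at h
    simp only [h2] at h
    ring_nf at h
    have h5 : 0 ≤ √3 * (-13 / 15 + √3 / 90 - Y 2 3) := by
      ring_nf
      simp only [h2]
      ring_nf
      linarith
    have h6 : 0 < √3 := by linarith
    have := nonneg_of_mul_nonneg_right h5 h6
    linarith
  -- the coupling of the entries 01 and 23
  have b3 : 0 ≤ 2 * (3 + 2 * √3) * (Y 0 1 - (-4 / 5 + √3 / 15)) +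
      (2 + 4 * √3) * (3 * √3) * (Y 2 3 - (-13 / 15 + √3 / 90)) := by
    have h := quad_nonneg hY.psd ![2, 3 + 2 * √3, 2 + 4 * √3, 3 * √3, 0, 0, 0, 0]
    simp only [Fin.sum_univ_eight] at h
    simp [hd, hsym 1 0, hsym 2 0, hsym 3 0, hsym 2 1, hsym 3 1, hsym 3 2, e02, e03, e12, e13] at h
    ring_nf at h
    simp only [h2] at h
    ring_nf at h
    ring_nf
    simp only [h2, h3]
    ring_nf
    linarith
  have c1 : 0 ≤ (2 + 4 * √3) * (3 * √3) := by positivity
  have c2 : (2 + 4 * √3) * (3 * √3) * (Y 2 3 - (-13 / 15 + √3 / 90)) ≤ 0 :=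
    mul_nonpos_of_nonneg_of_nonpos c1 (by linarith)
  have c3 : 0 ≤ 2 * (3 + 2 * √3) * (Y 0 1 - (-4 / 5 + √3 / 15)) := by linarith
  have c4 : 0 ≤ Y 0 1 - (-4 / 5 + √3 / 15) :=
    nonneg_of_mul_nonneg_right c3 (by positivity)
  linarith

/-- The entry `01` of every completion is irrational. -/
theorem irrational_entry {Y : Matrix (Fin 8) (Fin 8) ℝ} (hY : IsCompletion G x Y) :
    Irrational (Y 0 1) := by
  rw [forced hY]
  have h : Irrational √3 := by
    have := Nat.Prime.irrational_sqrt (show Nat.Prime 3 by norm_num)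
    simpa using this
  rintro ⟨q, hq⟩
  apply h
  exact ⟨(q + 4 / 5) * 15, by push_cast; linarith⟩

/-- Adjacency in the graph with the two additional edges. -/
def adj2 (a b : Fin 8) : Bool :=
  a ≠ b && ((a, b) ∈ edges || (b, a) ∈ edges || (a == 0 && b == 1) || (a == 1 && b == 0) ||
    (a == 2 && b == 3) || (a == 3 && b == 2))

/-- The elimination ordering. -/
def ord : Fin 8 → ℕ := ![4, 5, 6, 7, 0, 1, 2, 3]

lemma ord_inj : ∀ a b : Fin 8, ord a = ord b → a = b := by decide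

lemma elimination : ∀ v a b : Fin 8, adj2 v a = true → adj2 v b = true → ord v < ord a →
    ord v < ord b → a ≠ b → adj2 a b = true := by
  decide

/-- The graph becomes chordal after adding the edges `01` and `23`. -/
theorem chordal : IsChordal (G ⊔ SimpleGraph.fromEdgeSet {s(0, 1), s(2, 3)}) := by
  have hadj : ∀ a b : Fin 8, (G ⊔ SimpleGraph.fromEdgeSet {s(0, 1), s(2, 3)}).Adj a b ↔
      adj2 a b = true := by
    intro a b
    simp only [SimpleGraph.sup_adj, G, SimpleGraph.fromRel_adj, SimpleGraph.fromEdgeSet_adj,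
      Set.mem_insert_iff, Set.mem_singleton_iff, Sym2.eq_iff, adj2, Bool.and_eq_true,
      Bool.or_eq_true, decide_eq_true_eq, beq_iff_eq, ne_eq]
    tauto
  apply isChordal_of_order _ ord (fun a b => ord_inj a b)
  intro v a b h1 h2 h3 h4 h5
  rw [hadj] at h1 h2 ⊢
  exact elimination v a b h1 h2 h3 h4 h5

end Pool.Agent.Lib.MP_13b08e_lc.Example
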