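import Mathlib
import Pool.Agent.Lib.MP_13b08e_lc.Relations

/-!
# Soundness: a realization of the relations solves the linear matrix inequality
-/

namespace Pool.Agent.Lib.MP_13b08e_lc

set_option autoImplicit false

section

variable {H : Type*} [NormedAddCommGroup H] [InnerProductSpace ℝ H]
  {P Q k m : ℕ} {tbl : List (List (List ℚ))} {E F : Idx → H}

/-- The value of a scalar in a realization. -/
noncomputable def bv (E F : Idx → H) (c : Cls) : ℝ := inner ℝ (E (c, 0)) (F (c, 0))

/-- The value of a term in a realization. -/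
noncomputable def tv (E F : Idx → H) (t : Term Idx) : ℝ := sg t.1 * inner ℝ (E t.2.1) (F t.2.2)

lemma term_tm (σ : Bool) (c : Cls) : tv E F (tm σ c) = sg σ * bv E F c := rfl

lemma term_cell (σ : Bool) (c : Cls) (i j : ℕ) :
    tv E F (cell σ c i j) = sg σ * inner ℝ (E (c, i)) (F (c, j)) := rfl

lemma sg_true : sg true = -1 := by simp [sg]

lemma sg_false : sg false = 1 := by simp [sg]

/-- A realization of the relations. -/
abbrev IsReal (P Q k m : ℕ) (tbl : List (List (List ℚ))) (E F : Idx → H) : Prop :=
  Real Prod.fst cst {a | a ∈ indices (allRels P Q k m tbl)} (allRels P Q k m tbl) E F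

variable (h : IsReal P Q k m tbl E F)
include h

lemma rel4 {a b c d : Term Idx} (hr : [a, b, c, d] ∈ allRels P Q k m tbl) :
    tv E F a + tv E F b + tv E F c + tv E F d = (0 : ℝ) := by
  have := h.rel _ hr
  simp only [List.map_cons, List.map_nil, List.sum_cons, List.sum_nil] at this
  simp only [tv]
  linarith

lemma bv_const {r : Rel Idx} (hr : r ∈ allRels P Q k m tbl) {σ : Bool} {c : Cls}
    (ht : tm σ c ∈ r) {v : Val} (hc : cst (c, 0) = some v) : bv E F c = (v.toRat : ℝ) := by
  have := mem_indices hr ht
  exact h.con (c, 0) this.1 (c, 0) this.2 rfl v hc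

lemma bv_zero0 : bv E F (.zero 0) = 0 := by
  have hr : [tm false (.s false 0), tm false (.s true 0), tm true .one, tm false (.zero 0)] ∈
      allRels P Q k m tbl := mem_allRels_base (by simp [baseRels])
  have := bv_const h hr (σ := false) (c := .zero 0) (by simp) (v := .zero) (by simp [cst])
  simpa [Val.toRat] using this

lemma bv_zero1 : bv E F (.zero 1) = 0 := by
  have hr : [tm false (.s false 0), tm true (.s true 0), tm false (.zero 0),
      tm false (.zero 1)] ∈ allRels P Q k m tbl := mem_allRels_base (by simp [baseRels])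
  have := bv_const h hr (σ := false) (c := .zero 1) (by simp) (v := .zero) (by simp [cst])
  simpa [Val.toRat] using this

lemma bv_one : bv E F .one = 1 := by
  have hr : [tm false (.s false 0), tm false (.s true 0), tm true .one, tm false (.zero 0)] ∈
      allRels P Q k m tbl := mem_allRels_base (by simp [baseRels])
  have := bv_const h hr (σ := true) (c := .one) (by simp) (v := .one) (by simp [cst])
  simpa [Val.toRat] using this

lemma bv_zero2 {a b c : Term Idx}
    (hr : [a, b, c, tm false (.zero 2)] ∈ allRels P Q k m tbl) : bv E F (.zero 2) = 0 := by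
  have := bv_const h hr (σ := false) (c := .zero 2) (by simp) (v := .zero) (by simp [cst])
  simpa [Val.toRat] using this

lemma abs_bv_le {r : Rel Idx} (hr : r ∈ allRels P Q k m tbl) {σ : Bool} {c : Cls}
    (ht : tm σ c ∈ r) : |bv E F c| ≤ 1 := by
  have hm := mem_indices hr ht
  have h1 := h.ee (c, 0) hm.1 (c, 0) hm.1
  have h2 := h.ff (c, 0) hm.1 (c, 0) hm.1
  rw [if_pos rfl, real_inner_self_eq_norm_sq] at h1 h2
  have h3 := abs_real_inner_le_norm (E (c, 0)) (F (c, 0))
  have h4 : ‖E (c, 0)‖ = 1 := by
    have := norm_nonneg (E (c, 0))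
    nlinarith
  have h5 : ‖F (c, 0)‖ = 1 := by
    have := norm_nonneg (F (c, 0))
    nlinarith
  rw [h4, h5, one_mul] at h3
  exact h3

lemma bv_s_zero : bv E F (.s false 0) = 1 / 2 := by
  have h1 := rel4 h (mem_allRels_base (r := [tm false (.s false 0), tm false (.s true 0),
    tm true .one, tm false (.zero 0)]) (by simp [baseRels]))
  have h2 := rel4 h (mem_allRels_base (r := [tm false (.s false 0), tm true (.s true 0),
    tm false (.zero 0), tm false (.zero 1)]) (by simp [baseRels]))
  simp only [term_tm, bv_zero0 h, bv_zero1 h, bv_one h, sg_true, sg_false] at h1 h2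
  linarith

lemma bv_lam : bv E F (.V (.inl m)) = bv E F (.s false k) := by
  have h1 := rel4 h (mem_allRels_base (r := [tm false (.V (.inl m)), tm true (.s false k),
    tm false (.zero 0), tm false (.zero 1)]) (by simp [baseRels]))
  simp only [term_tm, bv_zero0 h, bv_zero1 h, sg_true, sg_false] at h1
  linarith

/-- The contraction property for a block of the relations. -/
lemma block_le {n : ℕ} (idx : Fin n → Idx) (hinj : Function.Injective idx)
    (hmem : ∀ i, idx i ∈ indices (allRels P Q k m tbl)) (z : Fin n → ℝ) :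
    ∑ i, ∑ j, z i * inner ℝ (E (idx i)) (F (idx j)) * z j ≤ ∑ i, z i * z i := by
  refine quad_le E F idx (fun i j => ?_) (fun i j => ?_) z
  · rw [h.ee _ (hmem i) _ (hmem j)]; simp [hinj.eq_iff]
  · rw [h.ff _ (hmem i) _ (hmem j)]; simp [hinj.eq_iff]

lemma bv_s_succ {r : ℕ} (hr : r < k) :
    bv E F (.s false r) ^ 2 ≤ bv E F (.s false (r + 1)) := by
  have m0 : [cell false (.chain r) 0 0, tm false (.s false (r + 1)), tm true .one,
    tm false (.zero 0)] ∈ allRels P Q k m tbl := mem_allRels_chain hr (by simp [chainRels])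
  have m1 : [cell false (.chain r) 0 1, tm false (.s false r), tm false (.zero 0),
    tm false (.zero 1)] ∈ allRels P Q k m tbl := mem_allRels_chain hr (by simp [chainRels])
  have m2 : [cell false (.chain r) 1 0, tm false (.s false r), tm false (.zero 0),
    tm false (.zero 1)] ∈ allRels P Q k m tbl := mem_allRels_chain hr (by simp [chainRels])
  have m3 : [cell false (.chain r) 1 1, tm false (.zero 0), tm false (.zero 1),
    tm false (.zero 2)] ∈ allRels P Q k m tbl := mem_allRels_chain hr (by simp [chainRels])
  have h0 := rel4 h m0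
  have h1 := rel4 h m1
  have h2 := rel4 h m2
  have h3 := rel4 h m3
  simp only [term_tm, term_cell, bv_zero0 h, bv_zero1 h, bv_zero2 h m3, bv_one h, sg_true, sg_false]
    at h0 h1 h2 h3
  have hb := block_le h (n := 2) (fun i => (.chain r, i.val)) (fun i j hij => by
      simpa [Fin.ext_iff] using hij) (fun i => by
      fin_cases i
      · exact (mem_indices (t := cell false (.chain r) 0 0) m0 (by simp)).1
      · exact (mem_indices (t := cell false (.chain r) 1 1) m3 (by simp)).1)
    ![1, - bv E F (.s false r)]
  simp only [Fin.sum_univ_two, Matrix.cons_val_zero, Matrix.cons_val_one, Fin.val_zero,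
    Fin.val_one] at hb
  have e0 : inner ℝ (E (.chain r, 0)) (F (.chain r, 0)) = 1 - bv E F (.s false (r + 1)) := by
    linarith
  have e1 : inner ℝ (E (.chain r, 0)) (F (.chain r, 1)) = - bv E F (.s false r) := by linarith
  have e2 : inner ℝ (E (.chain r, 1)) (F (.chain r, 0)) = - bv E F (.s false r) := by linarith
  have e3 : inner ℝ (E (.chain r, 1)) (F (.chain r, 1)) = (0 : ℝ) := by linarith
  rw [e0, e1, e2, e3] at hb
  linarith

lemma bv_s_pos : ∀ r, r ≤ k → 0 < bv E F (.s false r) := by
  intro r
  induction r with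
  | zero => intro _; rw [bv_s_zero h]; norm_num
  | succ r ih =>
    intro hr
    have h1 := ih (by omega)
    have h2 := bv_s_succ h (r := r) (by omega)
    have : 0 < bv E F (.s false r) ^ 2 := by positivity
    linarith

lemma bv_F {b : Base} (bits : List Bool)
    (hb : ∀ r ∈ bitsRels b bits, r ∈ allRels P Q k m tbl) :
    bv E F (.F false b bits) = frac bits * bv E F (.V b) := by
  induction bits with
  | nil =>
    have m0 : [tm false (.F false b []), tm false (.zero 0), tm false (.zero 1),
      tm false (.zero 2)] ∈ allRels P Q k m tbl := hb _ (by simp [bitsRels, bitRel])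
    have h0 := rel4 h m0
    simp only [term_tm, bv_zero0 h, bv_zero1 h, bv_zero2 h m0, sg_true, sg_false] at h0
    simp only [frac, zero_mul]
    linarith
  | cons β bs ih =>
    rw [bitsRels_cons] at hb
    have ih' := ih fun r hr => hb r (List.mem_append_right _ hr)
    have m0 : [tm false (.F false b (β :: bs)), tm false (.F true b (β :: bs)),
        tm true (.F false b bs), tm true (if β then .V b else .zero 0)] ∈
        allRels P Q k m tbl := hb _ (by simp [bitRel])
    have m1 : [tm false (.F false b (β :: bs)), tm true (.F true b (β :: bs)),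
        tm false (.zero 0), tm false (.zero 1)] ∈ allRels P Q k m tbl := hb _ (by simp [bitRel])
    have h0 := rel4 h m0
    have h1 := rel4 h m1
    cases β
    · simp only [term_tm, bv_zero0 h, bv_zero1 h, sg_true, sg_false, ih'] at h0 h1
      simp only [Bool.false_eq_true, if_false, bv_zero0 h] at h0 h1
      simp only [frac, Bool.false_eq_true, if_false]
      linarith
    · simp only [term_tm, bv_zero0 h, bv_zero1 h, sg_true, sg_false, ih'] at h0 h1
      simp only [if_true, Bool.false_eq_true, if_false] at h0 h1
      simp only [frac, if_true]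
      linarith

/-- The scaling factor. -/
lemma bv_mult {q : ℚ} {cs : List ℚ} (hP : q.num.natAbs.bits.length ≤ P)
    (hQ : q.den.bits.length ≤ Q)
    (hb : ∀ r ∈ coefRels P Q (q :: cs), r ∈ allRels P Q k m tbl) :
    bv E F (.V (.inr (q, cs.length))) =
      (2 ^ Q / 2 ^ P : ℝ) * (q : ℝ) * bv E F (.V (.inl cs.length)) := by
  have m1 : [tm (decide (q.num < 0)) (.F false (.inl cs.length) (pad P q.num.natAbs.bits)),
      tm true (.F false (.inr (q, cs.length)) (pad Q q.den.bits)), tm false (.zero 0),
      tm false (.zero 1)] ∈ allRels P Q k m tbl := hb _ (by simp [coefRels])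
  have h1 := rel4 h m1
  have f1 := bv_F h (b := .inl cs.length) (pad P q.num.natAbs.bits)
    (fun r hr => hb r (by simp only [coefRels, List.mem_append]; exact Or.inr (Or.inl hr)))
  have f2 := bv_F h (b := .inr (q, cs.length)) (pad Q q.den.bits)
    (fun r hr => hb r (by simp only [coefRels, List.mem_append]; exact Or.inr (Or.inr hr)))
  rw [frac_pad hP, num_bits] at f1
  rw [frac_pad hQ, num_bits] at f2
  simp only [term_tm, bv_zero0 h, bv_zero1 h, f1, f2] at h1
  have hd : (q.den : ℝ) ≠ 0 := by exact_mod_cast q.den_ne_zero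
  have hq : (q : ℝ) = sg (decide (q.num < 0)) * (q.num.natAbs : ℝ) / (q.den : ℝ) := by
    have h2 : (q : ℝ) = (q.num : ℝ) / (q.den : ℝ) := by
      exact_mod_cast (Rat.num_div_den q).symm
    rw [h2]
    congr 1
    by_cases hn : q.num < 0
    · have : (q.num.natAbs : ℤ) = - q.num := by omega
      have h3 : (q.num.natAbs : ℝ) = - (q.num : ℝ) := by
        rw [← Int.cast_natCast, this, Int.cast_neg]
      rw [h3]; simp [sg, hn]
    · have : (q.num.natAbs : ℤ) = q.num := by omega
      have h3 : (q.num.natAbs : ℝ) = (q.num : ℝ) := by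
        rw [← Int.cast_natCast, this]
      rw [h3]; simp [sg, hn]
  have hP' : (2 : ℝ) ^ P ≠ 0 := by positivity
  have hQ' : (2 : ℝ) ^ Q ≠ 0 := by positivity
  have s0 : sg false = 1 := by simp [sg]
  have s1 : sg true = -1 := by simp [sg]
  rw [s0, s1] at h1
  rw [hq]
  field_simp
  field_simp at h1
  linarith

lemma bv_H {cs : List ℚ} (hP : ∀ q ∈ cs, q.num.natAbs.bits.length ≤ P)
    (hQ : ∀ q ∈ cs, q.den.bits.length ≤ Q)
    (hb : ∀ r ∈ cs.tails.flatMap (coefRels P Q), r ∈ allRels P Q k m tbl) :
    bv E F (.H cs) = hv (2 ^ Q / 2 ^ P) (fun r => bv E F (.V (.inl r))) cs := by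
  induction cs with
  | nil =>
    have m0 : [tm false (.H []), tm false (.zero 0), tm false (.zero 1), tm false (.zero 2)] ∈
      allRels P Q k m tbl := hb _ (by simp [coefRels])
    have h0 := rel4 h m0
    simp only [term_tm, bv_zero0 h, bv_zero1 h, bv_zero2 h m0, sg_true, sg_false] at h0
    simp only [hv]
    linarith
  | cons q cs ih =>
    rw [List.tails_cons, List.flatMap_cons] at hb
    have ih' := ih (fun q hq => hP q (List.mem_cons_of_mem _ hq))
      (fun q hq => hQ q (List.mem_cons_of_mem _ hq)) (fun r hr => hb r (List.mem_append_right _ hr))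
    have m0 : [tm false (.H (q :: cs)), tm true (.H cs), tm true (.V (.inr (q, cs.length))),
      tm false (.zero 0)] ∈ allRels P Q k m tbl :=
        hb _ (List.mem_append_left _ (by simp [coefRels]))
    have h0 := rel4 h m0
    have h1 := bv_mult h (hP q (List.mem_cons_self ..)) (hQ q (List.mem_cons_self ..))
      (fun r hr => hb r (List.mem_append_left _ hr))
    simp only [term_tm, bv_zero0 h, sg_true, sg_false, ih', h1] at h0
    rw [hv]
    linarith

/-- The main block of a realization. -/
lemma inner_main {i j : ℕ} {row : List (List ℚ)} {cs : List ℚ}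
    (hi : tbl[i]? = some row) (hj : row[j]? = some cs)
    (hP : ∀ q ∈ cs, q.num.natAbs.bits.length ≤ P) (hQ : ∀ q ∈ cs, q.den.bits.length ≤ Q) :
    inner ℝ (E (.main, i)) (F (.main, j)) = (if i = j then (1 : ℝ) else 0) -
      hv (2 ^ Q / 2 ^ P) (fun r => bv E F (.V (.inl r))) cs := by
  have m0 : [cell false .main i j, tm false (.H cs), tm true (if i = j then .one else .zero 0),
    tm false (.zero 1)] ∈ allRels P Q k m tbl := mem_allRels_ent hi hj (by simp [entRels])
  have h0 := rel4 h m0
  have h1 := bv_H h hP hQ (fun r hr => mem_allRels_ent hi hj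
    (by rw [entRels]; exact List.mem_cons_of_mem _ hr))
  simp only [term_tm, term_cell, bv_zero1 h, sg_true, sg_false, h1] at h0
  by_cases hij : i = j
  · simp only [hij, if_true, bv_one h] at h0 ⊢
    linarith
  · simp only [hij, if_false, bv_zero0 h] at h0 ⊢
    linarith

/-- Soundness: a realization gives a solution of the homogeneous linear matrix inequality with
positive leading variable. -/
theorem sound {n : ℕ} (C : Fin n → Fin n → List ℚ)
    (htbl : ∀ i : Fin n, ∃ row, tbl[i.val]? = some row ∧ ∀ j : Fin n, row[j.val]? = some (C i j))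
    (hP : ∀ i j, ∀ q ∈ C i j, q.num.natAbs.bits.length ≤ P)
    (hQ : ∀ i j, ∀ q ∈ C i j, q.den.bits.length ≤ Q) :
    ∃ t : ℕ → ℝ, 0 < t m ∧ ∀ z : Fin n → ℝ,
      0 ≤ ∑ i, ∑ j, z i * hv (2 ^ Q / 2 ^ P) t (C i j) * z j := by
  refine ⟨fun r => bv E F (.V (.inl r)), ?_, fun z => ?_⟩
  · simp only
    rw [bv_lam h]
    exact bv_s_pos h k le_rfl
  · have hmem : ∀ i : Fin n, ((.main, i.val) : Idx) ∈ indices (allRels P Q k m tbl) := by
      intro i
      obtain ⟨row, hrow, hC⟩ := htbl i
      exact (mem_indices (t := cell false .main i i) (mem_allRels_ent (r := [cell false .main i i,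
        tm false (.H (C i i)), tm true (if i.val = i.val then .one else .zero 0),
        tm false (.zero 1)]) hrow (hC i) (by simp [entRels])) (by simp)).1
    have hb := block_le h (fun i : Fin n => ((.main, i.val) : Idx)) (fun i j hij => by
      simpa [Fin.ext_iff] using hij) hmem z
    have h1 : ∀ i j : Fin n, z i * inner ℝ (E (.main, i.val)) (F (.main, j.val)) * z j =
        (if i = j then z i * z j else 0) -
        z i * hv (2 ^ Q / 2 ^ P) (fun r => bv E F (.V (.inl r))) (C i j) * z j := by
      intro i j
      obtain ⟨row, hrow, hC⟩ := htbl i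
      rw [inner_main h hrow (hC j) (hP i j) (hQ i j)]
      by_cases hij : i = j
      · simp only [hij, if_true]; ring
      · have : i.val ≠ j.val := fun h => hij (Fin.ext h)
        simp only [hij, this, if_false]; ring
    have h2 : ∑ i, ∑ j, z i * inner ℝ (E (.main, i.val)) (F (.main, j.val)) * z j =
        ∑ i, z i * z i - ∑ i, ∑ j,
          z i * hv (2 ^ Q / 2 ^ P) (fun r => bv E F (.V (.inl r))) (C i j) * z j := by
      rw [← Finset.sum_sub_distrib]
      refine Finset.sum_congr rfl fun i _ => ?_
      rw [Finset.sum_congr rfl fun j _ => h1 i j, Finset.sum_sub_distrib]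
      simp
    rw [h2] at hb
    linarith

end

end Pool.Agent.Lib.MP_13b08e_lc
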