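import Mathlib
import Pool.Agent.Lib.MP_13b08e_lc.Compile

/-!
# Membership in the elliptope in terms of vectors
-/

namespace Pool.Agent.Lib.MP_13b08e_lc

set_option autoImplicit false

/-- Membership in terms of the entries. -/
theorem member_ellOf_iff (L : List (Vtx Idx)) : (ellOf L).Member ↔
    ∃ X : Matrix (Fin L.length) (Fin L.length) ℝ, X.PosSemidef ∧ (∀ i, X i i = 1) ∧
      ∀ (i j : Fin L.length) (q : ℚ), entQ L[i] L[j] = some q → X i j = q := by
  constructor
  · rintro ⟨X, hX⟩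
    refine ⟨X, hX.psd, hX.diag, fun i j q hq => ?_⟩
    have hadj : (ellOf L).G.Adj i j := by
      change (entQ L[i] L[j]).isSome = true
      rw [hq]; rfl
    have h1 := hX.edge i j hadj
    have h2 : (ellOf L).x ⟨s(i, j), hadj⟩ = (entQ L[i] L[j]).getD 0 := rfl
    rw [h2, hq] at h1
    exact h1
  · rintro ⟨X, h1, h2, h3⟩
    refine ⟨X, h1, h2, fun i j hij => ?_⟩
    have hij' : (entQ L[(i : Fin L.length)] L[(j : Fin L.length)]).isSome = true := hij
    obtain ⟨q, hq⟩ := Option.isSome_iff_exists.1 hij'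
    have h4 : (ellOf L).x ⟨s(i, j), hij⟩ =
        (entQ L[(i : Fin L.length)] L[(j : Fin L.length)]).getD 0 := rfl
    rw [h4, hq]
    exact h3 i j q hq

/-- Vectors give membership. -/
theorem member_of_vectors (L : List (Vtx Idx)) (hL : L.Nodup) {H : Type} [NormedAddCommGroup H]
    [InnerProductSpace ℝ H] (φ : Vtx Idx → H) (h1 : ∀ v ∈ L, inner ℝ (φ v) (φ v) = (1 : ℝ))
    (h2 : ∀ v ∈ L, ∀ w ∈ L, v ≠ w → ∀ x, ent Prod.fst cst v w = some x →
      inner ℝ (φ v) (φ w) = (x.toRat : ℝ)) : (ellOf L).Member := by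
  rw [member_ellOf_iff]
  let ψ : Fin L.length → H := fun i => φ L[i]
  refine ⟨Matrix.gram ℝ ψ, Matrix.posSemidef_gram ℝ ψ, fun i => ?_, fun i j q hq => ?_⟩
  · exact h1 _ (List.getElem_mem _)
  · unfold entQ at hq
    split_ifs at hq with hne
    rw [Option.map_eq_some_iff] at hq
    obtain ⟨v, hv, rfl⟩ := hq
    exact h2 _ (List.getElem_mem _) _ (List.getElem_mem _) hne v hv

open Classical in
/-- Membership gives vectors. -/
theorem vectors_of_member (L : List (Vtx Idx)) (h : (ellOf L).Member) :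
    ∃ φ : Vtx Idx → EuclideanSpace ℝ (Fin L.length),
      (∀ v ∈ L, inner ℝ (φ v) (φ v) = (1 : ℝ)) ∧
      (∀ v ∈ L, ∀ w ∈ L, v ≠ w → ∀ x, ent Prod.fst cst v w = some x →
        inner ℝ (φ v) (φ w) = (x.toRat : ℝ)) := by
  rw [member_ellOf_iff] at h
  obtain ⟨X, hX1, hX2, hX3⟩ := h
  obtain ⟨w, hw⟩ := exists_gram hX1
  have hpos : ∀ v ∈ L, ∃ i : Fin L.length, L[i] = v := by
    intro v hv
    obtain ⟨i, hi, h⟩ := List.mem_iff_getElem.1 hv
    exact ⟨⟨i, hi⟩, h⟩
  let φ : Vtx Idx → EuclideanSpace ℝ (Fin L.length) := fun v =>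
    if h : v ∈ L then w (hpos v h).choose else 0
  have hφ : ∀ v ∈ L, ∃ i : Fin L.length, L[i] = v ∧ φ v = w i := by
    intro v hv
    exact ⟨(hpos v hv).choose, (hpos v hv).choose_spec, by simp only [φ, dif_pos hv]⟩
  refine ⟨φ, ?_, ?_⟩
  · intro v hv
    obtain ⟨i, -, hi⟩ := hφ v hv
    rw [hi, hw, hX2]
  · intro v hv v' hv' hne x hx
    obtain ⟨i, hi, hi'⟩ := hφ v hv
    obtain ⟨j, hj, hj'⟩ := hφ v' hv'
    rw [hi', hj', hw]
    refine hX3 i j _ ?_
    rw [hi, hj, entQ, if_neg hne, hx]; rfl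

/-- Membership of the compiled instance means that there is a realization of the relations. -/
theorem member_verts_iff (R : List (Rel Idx)) (hwf : ∀ r ∈ R, r.WF Prod.fst) :
    (ellOf (verts R)).Member ↔
    ∃ (H : Type) (_ : NormedAddCommGroup H) (_ : InnerProductSpace ℝ H) (E F : Idx → H),
      Real Prod.fst cst {a | a ∈ indices R} R E F := by
  constructor
  · intro h
    obtain ⟨φ, h1, h2⟩ := vectors_of_member (verts R) h
    exact ⟨_, inferInstance, inferInstance, _, _, real_of_vectors (R := R)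
      (S := {a | a ∈ indices R}) hwf (fun r hr t ht => mem_indices hr ht) φ {v | v ∈ verts R}
      (fun a ha => ⟨mem_verts_e.2 ha, mem_verts_f.2 ha⟩)
      (fun r hr => ⟨mem_verts_u.2 hr, mem_verts_w.2 hr⟩) h1 h2⟩
  · rintro ⟨H, i1, i2, E, F, hr⟩
    obtain ⟨h1, h2⟩ := vectors_of_real (R := R) hwf
      (fun r hr t ht => mem_indices hr ht) hr {v | v ∈ verts R} (fun a => mem_verts_e.1)
      (fun a => mem_verts_f.1) (fun r => mem_verts_u.1) (fun r => mem_verts_w.1)
    exact member_of_vectors (verts R) (nodup_undup _) (vecs E F) h1 h2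

/-- The values of the vector of the instance. -/
theorem ellOf_values (L : List (Vtx Idx)) (e : (ellOf L).G.edgeSet) :
    (ellOf L).x e ∈ ({0, 1 / 2, -1 / 2, 1} : Set ℚ) := by
  obtain ⟨e, he⟩ := e
  induction e using Sym2.inductionOn with
  | hf i j =>
    have h1 : (entQ L[(i : Fin L.length)] L[(j : Fin L.length)]).isSome = true := he
    change (entQ L[(i : Fin L.length)] L[(j : Fin L.length)]).getD 0 ∈ _
    obtain ⟨q, hq⟩ := Option.isSome_iff_exists.1 h1
    rw [hq]
    unfold entQ at hq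
    split_ifs at hq with h2
    rw [Option.map_eq_some_iff] at hq
    obtain ⟨v, -, rfl⟩ := hq
    cases v <;> simp [Val.toRat]

end Pool.Agent.Lib.MP_13b08e_lc
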