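import Mathlib
import Pool.Agent.Lib.MP_13b08e_lc.Vectors
import Pool.Agent.Lib.MP_13b08e_lc.Sound
import Pool.Agent.Lib.MP_13b08e_lc.Complete
import Pool.Agent.Lib.MP_13b08e_lc.Bound

/-!
# The reduction of SDP feasibility to elliptope membership
-/

namespace Pool.Agent.Lib.MP_13b08e_lc

set_option autoImplicit false

open Pool.Agent.Lib.PolyTime

/-! ### The measure -/

/-- The total number of bits of the numerators and denominators. -/
def bitsOf (tbl : List (List (List ℚ))) : ℕ :=
  (tbl.flatMap fun row => row.flatMap fun cs => cs.flatMap fun q =>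
    q.num.natAbs.bits ++ q.den.bits).length

/-- A measure of the size of the instance. -/
def SDP.T (S : SDP) : ℕ := S.m + S.table.length + bitsOf S.table

/-- The number of repeated squarings. -/
def SDP.K (S : SDP) : ℕ := 50 * ((2 * S.T + 1) * (2 * S.T + 1))

/-- The relations of the reduction. -/
def SDP.rels (S : SDP) : List (Rel Idx) := allRels (3 * S.T) S.T S.K S.m S.table

/-- The reduction. -/
def SDP.toEll (S : SDP) : Ell := ellOf (verts S.rels)

lemma SDP.bits_eq (S : SDP) : bitsOf S.table = ∑ i, ∑ j, ∑ k,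
    ((S.A k i j).num.natAbs.bits.length + (S.A k i j).den.bits.length) := by
  unfold bitsOf SDP.table
  rw [List.length_flatMap, List.map_ofFn, List.sum_ofFn]
  refine Finset.sum_congr rfl fun i _ => ?_
  simp only [Function.comp_apply]
  rw [List.length_flatMap, List.map_ofFn, List.sum_ofFn]
  refine Finset.sum_congr rfl fun j _ => ?_
  simp only [Function.comp_apply]
  rw [List.length_flatMap, List.map_ofFn, List.sum_ofFn]
  refine Finset.sum_congr rfl fun k _ => ?_
  simp

lemma SDP.nm_le (S : SDP) : S.n + S.m ≤ S.T := by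
  have : S.table.length = S.n := by simp [SDP.table]
  unfold SDP.T
  omega

lemma SDP.entry_le (S : SDP) (k : Fin (S.m + 1)) (i j : Fin S.n) :
    (S.A k i j).num.natAbs.bits.length + (S.A k i j).den.bits.length ≤ S.T := by
  have h : (S.A k i j).num.natAbs.bits.length + (S.A k i j).den.bits.length ≤ bitsOf S.table := by
    rw [S.bits_eq]
    refine le_trans ?_ (Finset.single_le_sum (f := fun i => ∑ j, ∑ k,
      ((S.A k i j).num.natAbs.bits.length + (S.A k i j).den.bits.length))
      (fun _ _ => Nat.zero_le _) (Finset.mem_univ i))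
    refine le_trans ?_ (Finset.single_le_sum (f := fun j => ∑ k,
      ((S.A k i j).num.natAbs.bits.length + (S.A k i j).den.bits.length))
      (fun _ _ => Nat.zero_le _) (Finset.mem_univ j))
    exact Finset.single_le_sum (f := fun k =>
      ((S.A k i j).num.natAbs.bits.length + (S.A k i j).den.bits.length))
      (fun _ _ => Nat.zero_le _) (Finset.mem_univ k)
  unfold SDP.T
  omega

lemma lt_two_pow_bits (a : ℕ) : a < 2 ^ a.bits.length := by
  rw [Nat.size_eq_bits_len]
  exact Nat.lt_size_self a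

lemma SDP.den_le (S : SDP) : ∏ k, ∏ i, ∏ j, (S.A k i j).den ≤ 2 ^ S.T := by
  have h1 : ∏ k, ∏ i, ∏ j, (S.A k i j).den ≤ ∏ k, ∏ i, ∏ j, 2 ^ (S.A k i j).den.bits.length :=
    Finset.prod_le_prod' fun k _ => Finset.prod_le_prod' fun i _ =>
      Finset.prod_le_prod' fun j _ => (lt_two_pow_bits _).le
  refine h1.trans ?_
  simp only [Finset.prod_pow_eq_pow_sum]
  refine Nat.pow_le_pow_right (by norm_num) ?_
  have h2 : ∑ k, ∑ i, ∑ j, (S.A k i j).den.bits.length ≤ bitsOf S.table := by
    rw [S.bits_eq, Finset.sum_comm]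
    refine Finset.sum_le_sum fun i _ => ?_
    rw [Finset.sum_comm]
    exact Finset.sum_le_sum fun j _ => Finset.sum_le_sum fun k _ => Nat.le_add_left _ _
  unfold SDP.T
  omega

lemma SDP.abs_le (S : SDP) (k : Fin (S.m + 1)) (i j : Fin S.n) :
    |(S.A k i j : ℝ)| ≤ 2 ^ S.T := by
  have h2 : (S.A k i j : ℝ) = ((S.A k i j).num : ℝ) / ((S.A k i j).den : ℝ) := by
    exact_mod_cast (Rat.num_div_den _).symm
  have hd : (1 : ℝ) ≤ ((S.A k i j).den : ℝ) := by
    exact_mod_cast (S.A k i j).den_pos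
  have hn : |((S.A k i j).num : ℝ)| ≤ 2 ^ S.T := by
    have h3 : (((S.A k i j).num.natAbs : ℕ) : ℝ) = |((S.A k i j).num : ℝ)| := by
      rw [Nat.cast_natAbs, Int.cast_abs]
    rw [← h3]
    have h4 := lt_two_pow_bits (S.A k i j).num.natAbs
    have h5 := S.entry_le k i j
    have h6 : (2 : ℕ) ^ (S.A k i j).num.natAbs.bits.length ≤ 2 ^ S.T :=
      Nat.pow_le_pow_right (by norm_num) (by omega)
    exact_mod_cast (h4.le.trans h6)
  rw [h2, abs_div, abs_of_pos (by linarith : (0 : ℝ) < ((S.A k i j).den : ℝ))]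
  calc |((S.A k i j).num : ℝ)| / ((S.A k i j).den : ℝ) ≤ |((S.A k i j).num : ℝ)| / 1 := by
        gcongr
    _ ≤ 2 ^ S.T := by rw [div_one]; exact hn

/-! ### Polynomial time -/

theorem pt_T : PT SDP.T := by
  have hraw : PT (fun S : SDP => (S.m, S.table)) := PT.of_enc_eq fun _ => rfl
  have hm : PT (fun S : SDP => S.m) := hraw.fst'
  have ht : PT (fun S : SDP => S.table) := hraw.snd'
  refine PT.add (PT.add hm ht.length) (PT.length ?_)
  refine PT.flatMap (f := fun S : SDP => S.table) (g := fun _ row => row.flatMap fun cs =>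
    cs.flatMap fun q => q.num.natAbs.bits ++ q.den.bits) ht ?_
  refine PT.flatMap (f := fun x : SDP × List (List ℚ) => x.2) (g := fun _ cs =>
    cs.flatMap fun q => q.num.natAbs.bits ++ q.den.bits) PT.snd ?_
  refine PT.flatMap (f := fun x : (SDP × List (List ℚ)) × List ℚ => x.2) (g := fun _ q =>
    q.num.natAbs.bits ++ q.den.bits) PT.snd ?_
  exact PT.append (pt_num PT.snd) (pt_den PT.snd)

/-- The reduction is computable in polynomial time. -/
theorem pt_toEll : PT SDP.toEll := by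
  have hraw : PT (fun S : SDP => (S.m, S.table)) := PT.of_enc_eq fun _ => rfl
  have hm : PT (fun S : SDP => S.m) := hraw.fst'
  have ht : PT (fun S : SDP => S.table) := hraw.snd'
  have hT1 : PT (fun S : SDP => 2 * S.T + 1) := (PT.mulConst pt_T 2).succ
  have hK : PT SDP.K := PT.mulConst (PT.mul hT1 hT1) 50
  exact pt_ellOf (pt_verts (pt_allRels (PT.mulConst pt_T 3) pt_T hK hm ht))

lemma SDP.K_le (S : SDP) : 50 * (S.n + S.m + S.T + 1) ^ 2 ≤ S.K := by
  unfold SDP.K
  have := S.nm_le
  nlinarith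

attribute [irreducible] SDP.K SDP.T SDP.rels

/-! ### The linear matrix inequality -/

/-- The entries of the linear matrix polynomial. -/
noncomputable def SDP.lmi (S : SDP) (y : Fin S.m → ℝ) (i j : Fin S.n) : ℝ :=
  (S.A 0 i j : ℝ) + ∑ k, y k * (S.A k.succ i j : ℝ)

lemma SDP.lmi_symm (S : SDP) (y : Fin S.m → ℝ) (i j : Fin S.n) :
    S.lmi y i j = S.lmi y j i := by
  unfold SDP.lmi
  rw [(S.symm 0).apply j i]
  congr 1
  exact Finset.sum_congr rfl fun k _ => by rw [(S.symm k.succ).apply j i]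

lemma SDP.psd_iff (S : SDP) (y : Fin S.m → ℝ) :
    ((S.A 0).map (Rat.cast : ℚ → ℝ) + ∑ k, y k • (S.A k.succ).map (Rat.cast : ℚ → ℝ)).PosSemidef ↔
      ∀ z : Fin S.n → ℝ, 0 ≤ ∑ i, ∑ j, z i * S.lmi y i j * z j := by
  have hM : ∀ i j, ((S.A 0).map (Rat.cast : ℚ → ℝ) +
      ∑ k, y k • (S.A k.succ).map (Rat.cast : ℚ → ℝ)) i j = S.lmi y i j := by
    intro i j
    simp [SDP.lmi, Matrix.add_apply, Matrix.sum_apply]
  set M := (S.A 0).map (Rat.cast : ℚ → ℝ) + ∑ k, y k • (S.A k.succ).map (Rat.cast : ℚ → ℝ)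
  have hq : ∀ z : Fin S.n → ℝ, star z ⬝ᵥ M.mulVec z = ∑ i, ∑ j, z i * S.lmi y i j * z j := by
    intro z
    simp only [dotProduct, Matrix.mulVec, Pi.star_apply, star_trivial]
    refine Finset.sum_congr rfl fun i _ => ?_
    rw [Finset.mul_sum]
    exact Finset.sum_congr rfl fun j _ => by rw [hM]; ring
  constructor
  · intro h z
    rw [← hq]
    exact h.dotProduct_mulVec_nonneg z
  · intro h
    refine Matrix.PosSemidef.of_dotProduct_mulVec_nonneg ?_ fun z => ?_
    · ext i j
      rw [Matrix.conjTranspose_apply, star_trivial, hM, hM, S.lmi_symm]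
    · rw [hq]; exact h z

lemma hv_ofFn (c : ℝ) (t : ℕ → ℝ) : ∀ (N : ℕ) (f : Fin N → ℚ),
    hv c t (List.ofFn f) = c * ∑ k, (f k : ℝ) * t (N - 1 - k) := by
  intro N
  induction N with
  | zero => intro f; simp [hv]
  | succ N ih =>
    intro f
    rw [List.ofFn_succ, hv, ih, List.length_ofFn, Fin.sum_univ_succ]
    have : ∀ k : Fin N, N + 1 - 1 - (k.succ : ℕ) = N - 1 - k := by
      intro k; rw [Fin.val_succ]; omega
    simp only [this]
    simp only [Nat.add_sub_cancel, Fin.val_zero, Nat.sub_zero]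
    ring

/-- The coefficients at `(i, j)`. -/
def SDP.coef (S : SDP) (i j : Fin S.n) : List ℚ := List.ofFn fun k => S.A k i j

lemma SDP.hv_coef (S : SDP) (c : ℝ) (t : ℕ → ℝ) (y : Fin S.m → ℝ)
    (hy : ∀ k : Fin S.m, t (S.m - (k + 1)) = t S.m * y k) (i j : Fin S.n) :
    hv c t (S.coef i j) = c * t S.m * S.lmi y i j := by
  rw [SDP.coef, hv_ofFn, Fin.sum_univ_succ, SDP.lmi]
  have h1 : ∀ k : Fin S.m, (S.A k.succ i j : ℝ) * t (S.m + 1 - 1 - (k.succ : ℕ)) =
      t S.m * (y k * (S.A k.succ i j : ℝ)) := by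
    intro k
    have : S.m + 1 - 1 - (k.succ : ℕ) = S.m - (k + 1) := by rw [Fin.val_succ]; omega
    rw [this, hy]; ring
  rw [Finset.sum_congr rfl fun k _ => h1 k, ← Finset.mul_sum]
  simp only [Nat.add_sub_cancel, Fin.val_zero, Nat.sub_zero]
  ring

/-! ### Soundness -/

theorem SDP.feasible_of_real (S : SDP) {H : Type*} [NormedAddCommGroup H]
    [InnerProductSpace ℝ H] {E F : Idx → H} (h : IsReal (3 * S.T) S.T S.K S.m S.table E F) :
    S.Feasible := by
  obtain ⟨t, ht, hz⟩ := sound h (n := S.n) (fun i j => S.coef i j) (fun i =>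
    ⟨List.ofFn fun j => S.coef i j, by simp [SDP.table, SDP.coef], fun j => by simp⟩)
    (by
      intro i j q hq
      rw [SDP.coef, List.mem_ofFn] at hq
      obtain ⟨k, rfl⟩ := hq
      have := S.entry_le k i j
      omega)
    (by
      intro i j q hq
      rw [SDP.coef, List.mem_ofFn] at hq
      obtain ⟨k, rfl⟩ := hq
      have := S.entry_le k i j
      omega)
  refine ⟨fun k => t (S.m - (k + 1)) / t S.m, ?_⟩
  rw [S.psd_iff]
  intro z
  have h1 := hz z
  have h2 : ∀ i j, hv (2 ^ S.T / 2 ^ (3 * S.T)) t (S.coef i j) =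
      (2 ^ S.T / 2 ^ (3 * S.T)) * t S.m * S.lmi (fun k => t (S.m - (k + 1)) / t S.m) i j :=
    fun i j => S.hv_coef _ t _ (fun k => by field_simp) i j
  have h3 : ∑ i, ∑ j, z i * hv (2 ^ S.T / 2 ^ (3 * S.T)) t (S.coef i j) * z j =
      ((2 ^ S.T / 2 ^ (3 * S.T)) * t S.m) *
        ∑ i, ∑ j, z i * S.lmi (fun k => t (S.m - (k + 1)) / t S.m) i j * z j := by
    rw [Finset.mul_sum]
    refine Finset.sum_congr rfl fun i _ => ?_
    rw [Finset.mul_sum]
    exact Finset.sum_congr rfl fun j _ => by rw [h2]; ring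
  rw [h3] at h1
  have h4 : 0 < (2 ^ S.T / 2 ^ (3 * S.T) : ℝ) * t S.m := by positivity
  exact nonneg_of_mul_nonneg_right h1 h4

/-! ### Completeness -/

lemma hv_le {c B : ℝ} (hc : 0 ≤ c) (t : ℕ → ℝ) (ht : ∀ r, |t r| ≤ 1) (cs : List ℚ)
    (hB : ∀ q ∈ cs, |(q : ℝ)| ≤ B) : |hv c t cs| ≤ cs.length * (c * B) := by
  induction cs with
  | nil => simp [hv]
  | cons q cs ih =>
    rw [hv, List.length_cons]
    have h1 := ih fun q hq => hB q (List.mem_cons_of_mem _ hq)
    have h2 := hB q (List.mem_cons_self ..)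
    have h3 : |c * (q : ℝ) * t cs.length| ≤ c * B := by
      rw [abs_mul, abs_mul, abs_of_nonneg hc]
      calc c * |(q : ℝ)| * |t cs.length| ≤ c * B * 1 := by
            gcongr
            · exact mul_nonneg hc ((abs_nonneg _).trans h2)
            · exact ht _
        _ = c * B := mul_one _
    calc |hv c t cs + c * (q : ℝ) * t cs.length| ≤ |hv c t cs| + |c * (q : ℝ) * t cs.length| :=
          abs_add_le _ _
      _ ≤ cs.length * (c * B) + c * B := add_le_add h1 h3
      _ = ((cs.length + 1 : ℕ) : ℝ) * (c * B) := by push_cast; ring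

theorem SDP.real_of_feasible (S : SDP) (hS : S.Feasible) :
    ∃ (H : Type) (_ : NormedAddCommGroup H) (_ : InnerProductSpace ℝ H) (E F : Idx → H),
      IsReal (3 * S.T) S.T S.K S.m S.table E F := by
  obtain ⟨y, hy, hyb⟩ := exists_bounded_feasible (L := S.T) S.A (by
    intro k i j
    have h4 := lt_two_pow_bits (S.A k i j).num.natAbs
    have h5 := S.entry_le k i j
    have h6 : (2 : ℕ) ^ (S.A k i j).num.natAbs.bits.length ≤ 2 ^ S.T :=
      Nat.pow_le_pow_right (by norm_num) (by omega)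
    exact h4.le.trans h6) S.den_le hS
  rw [S.psd_iff] at hy
  have hK := S.K_le
  have hyb' : ∀ k, |y k| ≤ 2 ^ 2 ^ S.K := fun k =>
    (hyb k).trans (pow_le_pow_right₀ (by norm_num) (Nat.pow_le_pow_right (by norm_num) hK))
  set lam : ℝ := (1 / 2) ^ 2 ^ S.K with hlam
  have hlam0 : 0 < lam := pow_half_pos _
  have hlam1 : lam ≤ 1 := pow_half_le_one _
  have hly : ∀ k, |lam * y k| ≤ 1 := by
    intro k
    rw [abs_mul, abs_of_pos hlam0]
    calc lam * |y k| ≤ lam * 2 ^ 2 ^ S.K := mul_le_mul_of_nonneg_left (hyb' k) hlam0.le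
      _ = 1 := by rw [hlam, ← mul_pow]; norm_num
  let t : ℕ → ℝ := fun r => if r = S.m then lam else
    if h : r < S.m then lam * y ⟨S.m - 1 - r, by omega⟩ else 0
  have htm : t S.m = lam := by simp [t]
  have ht : ∀ r, |t r| ≤ 1 := by
    intro r
    simp only [t]
    split_ifs with h1 h2
    · rw [abs_of_pos hlam0]; exact hlam1
    · exact hly _
    · simp
  have hty : ∀ k : Fin S.m, t (S.m - (k + 1)) = t S.m * y k := by
    intro k
    rw [htm]
    have hk := k.2
    have h1 : ¬ (S.m - (k + 1) = S.m) := by omega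
    have h2 : S.m - (k + 1) < S.m := by omega
    have h3 : S.m - 1 - (S.m - (k + 1)) = k := by omega
    simp only [t, h1, h2, if_false, dif_pos, h3]
  set c : ℝ := 2 ^ S.T / 2 ^ (3 * S.T) with hc
  have hcpos : 0 < c := by positivity
  have hcT : c * 2 ^ S.T = 1 / 2 ^ S.T := by
    rw [hc, show 3 * S.T = S.T + S.T + S.T by ring, pow_add, pow_add]
    field_simp
  let C : ℕ → ℕ → List ℚ := fun i j =>
    if h : i < S.n ∧ j < S.n then S.coef ⟨i, h.1⟩ ⟨j, h.2⟩ else []
  have hCC : ∀ i j : Fin S.n, C i j = S.coef i j := by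
    intro i j
    simp only [C, dif_pos (And.intro i.2 j.2)]
  have hCsymm : ∀ i j, C i j = C j i := by
    intro i j
    simp only [C]
    by_cases h : i < S.n ∧ j < S.n
    · rw [dif_pos h, dif_pos h.symm]
      unfold SDP.coef
      congr 1
      funext k
      exact (S.symm k).apply _ _
    · rw [dif_neg h, dif_neg fun h' => h h'.symm]
  have hn2 : (S.n : ℝ) * (S.m + 1) ≤ 2 ^ S.T := by
    have h1 : S.n ≤ 2 ^ S.n := Nat.lt_two_pow_self.le
    have h2 : S.m + 1 ≤ 2 ^ S.m := Nat.lt_two_pow_self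
    have h3 : 2 ^ S.n * 2 ^ S.m ≤ 2 ^ S.T := by
      rw [← pow_add]; exact Nat.pow_le_pow_right (by norm_num) S.nm_le
    have h4 : S.n * (S.m + 1) ≤ 2 ^ S.T := (Nat.mul_le_mul h1 h2).trans h3
    exact_mod_cast h4
  have hm2 : ((S.m : ℝ) + 1) ≤ 2 ^ S.T := by
    have h2 : S.m + 1 ≤ 2 ^ S.m := Nat.lt_two_pow_self
    have h3 : 2 ^ S.m ≤ 2 ^ S.T := Nat.pow_le_pow_right (by norm_num) (by have := S.nm_le; omega)
    exact_mod_cast h2.trans h3
  have hcoef : ∀ i j, ∀ q ∈ S.coef i j, |(q : ℝ)| ≤ 2 ^ S.T := by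
    intro i j q hq
    rw [SDP.coef, List.mem_ofFn] at hq
    obtain ⟨k, rfl⟩ := hq
    exact S.abs_le k i j
  have hpT : (0 : ℝ) < 2 ^ S.T := by positivity
  have hhv : ∀ i j, ∀ cs', cs' <:+ S.coef i j → |hv c t cs'| ≤ (S.m + 1) * (1 / 2 ^ S.T) := by
    intro i j cs' hcs
    refine (hv_le hcpos.le t ht cs' (B := 2 ^ S.T)
      (fun q hq => hcoef i j q (hcs.subset hq))).trans ?_
    rw [hcT]
    have h1 : cs'.length ≤ S.m + 1 := by
      have := hcs.length_le
      simpa [SDP.coef] using this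
    have h2 : (cs'.length : ℝ) ≤ S.m + 1 := by exact_mod_cast h1
    gcongr
  refine exists_real (c := c) (t := t) (C := C) (n := S.n)
    (good_allRels (P := 3 * S.T) (Q := S.T) (k := S.K) (m := S.m) (tbl := S.table) hc
      (htm.trans hlam) ht ?_) hCsymm ?_ ?_
  · intro i j row cs hi hj
    have hi' : i < S.n := by
      have := (List.getElem?_eq_some_iff.1 hi).1
      simpa [SDP.table] using this
    have hrow : row = List.ofFn fun j => S.coef ⟨i, hi'⟩ j := by
      have := (List.getElem?_eq_some_iff.1 hi).2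
      rw [← this]
      simp [SDP.table, SDP.coef]
    subst hrow
    have hj' : j < S.n := by
      have := (List.getElem?_eq_some_iff.1 hj).1
      simpa using this
    have hcs : cs = S.coef ⟨i, hi'⟩ ⟨j, hj'⟩ := by
      have := (List.getElem?_eq_some_iff.1 hj).2
      rw [← this]
      simp
    subst hcs
    refine ⟨hi', hj', hCC ⟨i, hi'⟩ ⟨j, hj'⟩, ?_, ?_, ?_, ?_⟩
    · intro q hq
      rw [SDP.coef, List.mem_ofFn] at hq
      obtain ⟨k, rfl⟩ := hq
      have := S.entry_le k ⟨i, hi'⟩ ⟨j, hj'⟩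
      omega
    · intro q hq
      rw [SDP.coef, List.mem_ofFn] at hq
      obtain ⟨k, rfl⟩ := hq
      have := S.entry_le k ⟨i, hi'⟩ ⟨j, hj'⟩
      omega
    · intro q hq r
      rw [abs_mul, abs_mul, abs_of_pos hcpos]
      calc c * |(q : ℝ)| * |t r| ≤ c * 2 ^ S.T * 1 := by
            gcongr
            · exact hcoef _ _ q hq
            · exact ht r
        _ = 1 / 2 ^ S.T := by rw [mul_one, hcT]
        _ ≤ 1 := by
            rw [div_le_one hpT]
            exact one_le_pow₀ (by norm_num)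
    · intro cs' hcs'
      refine (hhv _ _ cs' hcs').trans ?_
      rw [mul_one_div, div_le_one hpT]
      exact hm2
  · intro z
    rw [Finset.sum_range]
    have h1 : ∀ i : Fin S.n, ∑ j ∈ Finset.range S.n, z i * hv c t (C i j) * z j =
        ∑ j : Fin S.n, c * lam * (z i * S.lmi y i j * z j) := by
      intro i
      rw [Finset.sum_range]
      refine Finset.sum_congr rfl fun j _ => ?_
      rw [hCC, S.hv_coef c t y hty, htm]; ring
    rw [Finset.sum_congr rfl fun i _ => h1 i]
    simp only [← Finset.mul_sum]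
    exact mul_nonneg (mul_pos hcpos hlam0).le (hy fun i => z i)
  · intro z
    have h1 : ∀ i ∈ Finset.range S.n, ∀ j ∈ Finset.range S.n, z i * hv c t (C i j) * z j ≤
        ((S.m + 1) * (1 / 2 ^ S.T)) * ((z i * z i + z j * z j) / 2) := by
      intro i hi j hj
      rw [Finset.mem_range] at hi hj
      have h2 := hhv ⟨i, hi⟩ ⟨j, hj⟩ _ (List.suffix_refl _)
      rw [← hCC ⟨i, hi⟩ ⟨j, hj⟩] at h2
      simp only at h2
      have h3 : |z i * z j| ≤ (z i * z i + z j * z j) / 2 := by
        rw [_root_.abs_le]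
        constructor
        · nlinarith [sq_nonneg (z i + z j)]
        · nlinarith [sq_nonneg (z i - z j)]
      calc z i * hv c t (C i j) * z j = hv c t (C i j) * (z i * z j) := by ring
        _ ≤ |hv c t (C i j) * (z i * z j)| := le_abs_self _
        _ = |hv c t (C i j)| * |z i * z j| := abs_mul _ _
        _ ≤ ((S.m + 1) * (1 / 2 ^ S.T)) * ((z i * z i + z j * z j) / 2) := by
            gcongr
    have h4 : ∑ i ∈ Finset.range S.n, ∑ j ∈ Finset.range S.n,
        ((S.m + 1) * (1 / 2 ^ S.T) : ℝ) * ((z i * z i + z j * z j) / 2) =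
        ((S.m + 1) * (1 / 2 ^ S.T)) * (S.n * ∑ i ∈ Finset.range S.n, z i * z i) := by
      simp only [← Finset.mul_sum]
      congr 1
      simp only [← Finset.sum_div, Finset.sum_add_distrib, Finset.sum_const, Finset.card_range,
        nsmul_eq_mul, ← Finset.mul_sum]
      ring
    refine (Finset.sum_le_sum fun i hi => Finset.sum_le_sum fun j hj => h1 i hi j hj).trans ?_
    rw [h4]
    have h5 : 0 ≤ ∑ i ∈ Finset.range S.n, z i * z i := Finset.sum_nonneg fun i _ =>
      mul_self_nonneg _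
    have h6 : ((S.m + 1) * (1 / 2 ^ S.T) : ℝ) * S.n ≤ 1 := by
      rw [mul_one_div, div_mul_eq_mul_div, div_le_one hpT]
      linarith
    nlinarith

/-! ### The equivalence -/

/-- The reduction is correct. -/
theorem SDP.toEll_correct (S : SDP) : S.Feasible ↔ S.toEll.Member := by
  have hrels : S.rels = allRels (3 * S.T) S.T S.K S.m S.table := by unfold SDP.rels; rfl
  have hwf : ∀ r ∈ S.rels, r.WF Prod.fst := by rw [hrels]; exact wf_allRels _ _ _ _ _
  unfold SDP.toEll
  rw [member_verts_iff S.rels hwf, hrels]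
  constructor
  · exact S.real_of_feasible
  · rintro ⟨H, i1, i2, E, F, hr⟩
    exact S.feasible_of_real hr

/-- The values of the vector of the instance. -/
theorem SDP.toEll_values (S : SDP) (e : S.toEll.G.edgeSet) :
    S.toEll.x e ∈ ({0, 1 / 2, -1 / 2, 1} : Set ℚ) := ellOf_values (verts S.rels) e

end Pool.Agent.Lib.MP_13b08e_lc
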