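import Mathlib
import Pool.Agent.Lib.PolyTime
import Pool.Agent.Lib.MP_13b08e_lc.Problems

/-!
# The class NP is closed under polynomial time reductions
-/

namespace Pool.Agent.Lib.MP_13b08e_lc

set_option autoImplicit false

open Pool.Agent.Lib.PolyTime Function

/-! ### The size of a code word is computable in polynomial time -/

section

variable {K : Type} [DecidableEq K]

/-- Count the symbols of the stack `a` in unary on the stack `b`. -/
def cnt (a b : K) : Prog K := .loop a ne (.seq (.pop a) (.seq (.push b false) (.push b true)))

lemma code_succ (n : ℕ) : code (n + 1) = true :: false :: code n := by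
  simp [code, BT.ser]

theorem run_cnt {a b : K} (hab : a ≠ b) : ∀ (w : List Bool) (s : St K) (n : ℕ), s a = w →
    s b = code n →
    Run (cnt a b) s (update (update s a []) b (code (n + w.length))) (4 * w.length + 1) := by
  intro w
  induction w with
  | nil =>
    intro s n hs hb
    have : update (update s a []) b (code (n + ([] : List Bool).length)) = s := by
      rw [← hs, update_eq_self, hs, List.length_nil, Nat.add_zero, ← hb, update_eq_self]
    rw [this]
    exact .loopF (by rw [hs]; rfl)
  | cons x w ih =>
    intro s n hs hb
    have h1 : Run (.seq (.pop a) (.seq (.push b false) (.push b true))) s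
        (update (update s a w) b (code (n + 1))) 3 := by
      have h1 : Run (.pop a) s (update s a w) 1 := by
        have := Run.pop a s
        rwa [hs, List.tail_cons] at this
      have h2 : Run (.push b false) (update s a w) (update (update s a w) b (false :: s b)) 1 := by
        have := Run.push b false (update s a w)
        rwa [update_of_ne (Ne.symm hab)] at this
      have h3 : Run (.push b true) (update (update s a w) b (false :: s b))
          (update (update s a w) b (code (n + 1))) 1 := by
        have := Run.push b true (update (update s a w) b (false :: s b))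
        rw [update_self, update_idem] at this
        rw [code_succ, ← hb]
        exact this
      exact .seq h1 (.seq h2 h3)
    have h2 := ih (update (update s a w) b (code (n + 1))) (n + 1)
      (by rw [update_of_ne hab, update_self]) (by rw [update_self])
    have e1 : update (update (update (update s a w) b (code (n + 1))) a []) b
        (code (n + 1 + w.length)) =
        update (update s a []) b (code (n + (x :: w).length)) := by
      have e0 : n + 1 + w.length = n + (x :: w).length := by rw [List.length_cons]; omega
      rw [e0]
      funext k
      by_cases hk : k = b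
      · subst hk; simp
      · by_cases hk' : k = a
        · subst hk'; simp [hk]
        · simp [hk, hk']
    rw [e1] at h2
    have h3 := Run.loopT (k := a) (p := ne) (by rw [hs]; rfl) h1 h2
    have e : 3 + (4 * w.length + 1) + 1 = 4 * (x :: w).length + 1 := by
      simp only [List.length_cons]; omega
    rw [e] at h3
    exact h3

end

/-- The size, in unary, is computable in polynomial time. -/
theorem pt_size {α : Type} [Enc α] : PT (fun a : α => size a) := by
  have h01 : (0 : Fin 3) ≠ 1 := by decide
  have h12 : (1 : Fin 3) ≠ 2 := by decide
  have h02 : (0 : Fin 3) ≠ 2 := by decide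
  refine PT.of (K := Fin 3) (.seq (.push 1 false) (.seq (cnt 0 1) (mvv 1 0 2))) 0
    (fun n => 1 + ((4 * n + 1) + (8 * (2 * n + 1) + 2))) ?_ ?_
  · exact (PB.const 1).add ((((PB.const 4).mul PB.id).add (PB.const 1)).add
      (((PB.const 8).mul (((PB.const 2).mul PB.id).add (PB.const 1))).add (PB.const 2)))
  · intro a
    have r1 : Run (.push 1 false) (single (0 : Fin 3) (code a))
        (update (single 0 (code a)) 1 (code (0 : ℕ))) 1 := by
      have := Run.push (1 : Fin 3) false (single 0 (code a))
      rw [single_ne (Ne.symm h01)] at this
      exact this
    have r2 := run_cnt h01 (code a) (update (single (0 : Fin 3) (code a)) 1 (code (0 : ℕ))) 0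
      (by rw [update_of_ne h01, single_self]) (by rw [update_self])
    have e2 : update (update (update (single (0 : Fin 3) (code a)) 1 (code (0 : ℕ))) 0 []) 1
        (code (0 + (code a).length)) = single 1 (code (size a)) := by
      rw [Nat.zero_add, length_code]
      funext k
      by_cases hk : k = 1
      · subst hk; simp [single]
      · by_cases hk' : k = 0
        · subst hk'; simp [single]
        · simp [single, hk, hk']
    rw [e2] at r2
    have r3 := run_mvv_single h12 h02 (code (size a))
    refine ⟨_, ?_, .seq r1 (.seq r2 r3)⟩
    rw [length_code, length_code, size_nat]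

theorem pt_pow {α : Type} [Enc α] {f : α → ℕ} (hf : PT f) (n : ℕ) : PT (fun a => f a ^ n) := by
  induction n with
  | zero => exact (PT.const 1).congr fun a => by simp
  | succ n ih => exact (PT.mul ih hf).congr fun a => by rw [pow_succ]

theorem pt_eval {α : Type} [Enc α] {f : α → ℕ} (hf : PT f) (p : Polynomial ℕ) :
    PT (fun a => p.eval (f a)) := by
  induction p using Polynomial.induction_on' with
  | add p q hp hq => exact (PT.add hp hq).congr fun a => by rw [Polynomial.eval_add]
  | monomial n c =>
    refine (PT.mulConst (pt_pow hf n) c).congr fun a => ?_
    rw [Polynomial.eval_monomial]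

/-- Composition of a polynomial time function with a function in `PT`. -/
theorem PolyTime.comp_pt {α β γ : Type} [Enc α] [Enc β] [Enc γ] {g : β → γ} {f : α → β}
    (hg : PolyTime g) (hf : PT f) : PolyTime (fun a => g (f a)) := by
  obtain ⟨h1⟩ := hf.computable
  obtain ⟨h2⟩ := hg
  exact computable_comp h1 h2

/-- NP is closed under polynomial time many-one reductions. -/
theorem InNP.of_reduction {α β : Type} [Enc α] [Enc β] {L : α → Prop} {L' : β → Prop}
    {f : α → β} (hf : PT f) (h : ∀ a, L a ↔ L' (f a)) (hL : InNP L') : InNP L := by
  obtain ⟨p, R, hR, hRL⟩ := hL
  by_cases hrej : ∃ x : β × List Bool, R x = false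
  · obtain ⟨rej, hrej⟩ := hrej
    obtain ⟨q, hq⟩ := hf.size_le
    let F : α × List Bool → β × List Bool := fun x =>
      if x.2.length ≤ p.eval (size (f x.1)) then (f x.1, x.2) else rej
    have hF : PT F := by
      refine PT.ite (c := fun x : α × List Bool => x.2.length ≤ p.eval (size (f x.1))) ?_
        ((hf.comp PT.fst).pair PT.snd) (PT.const _)
      exact PT.le PT.snd.length (pt_eval (pt_size.comp (hf.comp PT.fst)) p)
    refine ⟨p.comp q, fun x => R (F x), hR.comp_pt hF, fun a => ?_⟩
    rw [h, hRL]
    constructor
    · rintro ⟨w, hw, hR⟩
      rw [length_code] at hw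
      refine ⟨w, ?_, ?_⟩
      · rw [Polynomial.eval_comp, length_code]
        exact hw.trans (eval_mono p (hq a))
      · simp only [F, hw, if_true, hR]
    · rintro ⟨w, -, hR⟩
      by_cases hw : w.length ≤ p.eval (size (f a))
      · refine ⟨w, hw, ?_⟩
        simpa only [F, hw, if_true] using hR
      · exfalso
        simp only [F, hw, if_false, hrej] at hR
        exact absurd hR (by simp)
  · push Not at hrej
    have hR1 : ∀ x, R x = true := fun x => by simpa using hrej x
    refine ⟨0, fun _ => true, (PT.const true).computable, fun a => ?_⟩
    rw [h, hRL]
    constructor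
    · intro _
      exact ⟨[], by simp, rfl⟩
    · intro _
      exact ⟨[], by simp, hR1 _⟩

end Pool.Agent.Lib.MP_13b08e_lc
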