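import Pool.Agent.Lib.MP_13b08e_lc.Doubling

/-!
The completion of the doubling instance is a rational matrix.
-/

namespace Pool.Agent.Lib.MP_13b08e_lc.Doubling

/-- The rational numbers as a subfield of the real numbers. -/
noncomputable def QR : Subfield ℝ := (algebraMap ℚ ℝ).fieldRange

lemma rat_QR (q : ℚ) : (q : ℝ) ∈ QR := ⟨q, by simp⟩

lemma pl_QR {k : ℕ} (l : Lab k) : (pl l).1 ∈ QR ∧ (pl l).2 ∈ QR := by
  cases l with
  | e1 => exact ⟨one_mem _, zero_mem _⟩
  | e2 => exact ⟨zero_mem _, one_mem _⟩
  | p i => exact ⟨rat_QR _, rat_QR _⟩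
  | n i => exact ⟨neg_mem (rat_QR _), rat_QR _⟩

lemma ip_QR {k : ℕ} (l m : Lab k) : ip l m ∈ QR :=
  add_mem (mul_mem (pl_QR l).1 (pl_QR m).1) (mul_mem (pl_QR l).2 (pl_QR m).2)

lemma tau_QR {k : ℕ} (g : Gad k) : tau g ∈ QR := by
  have h : (-(27 / 80) : ℝ) ∈ QR := by
    have := rat_QR (-(27 / 80))
    push_cast at this
    exact this
  exact mul_mem h (ip_QR _ _)

lemma dot_SG {k : ℕ} (g : Gad k) (l : Lab k) :
    dot (wS g) (wG l) = if l = ga g then tau g else 0 := by
  simp only [dot, Fintype.sum_sum_type, wG, wS, mul_zero, Finset.sum_const_zero, zero_add,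
    add_zero, ite_mul, zero_mul]
  rw [Finset.sum_ite_eq' Finset.univ (ga g), if_pos (Finset.mem_univ _)]
  by_cases h : l = ga g
  · simp [h]
  · have h' : ¬ ga g = l := fun e => h e.symm
    simp [h, h']

lemma dot_SS' {k : ℕ} {g g' : Gad k} (hg : g ≠ g') :
    dot (wS g) (wS g') = if ga g = ga g' then tau g * tau g' else 0 := by
  simp only [dot, Fintype.sum_sum_type, wS, mul_zero, Finset.sum_const_zero, zero_add,
    ite_mul, zero_mul]
  rw [Finset.sum_ite_eq' Finset.univ (ga g), if_pos (Finset.mem_univ _),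
    Finset.sum_ite_eq' Finset.univ g, if_pos (Finset.mem_univ _), if_neg hg]
  by_cases h : ga g = ga g' <;> simp [h]

/-- The vectors of which the vectors of the completion are combinations. -/
inductive IsBase {k : ℕ} : (Co k → ℝ) → Prop
  | U (l : Lab k) : IsBase (wU l)
  | G (l : Lab k) : IsBase (wG l)
  | S (g : Gad k) : IsBase (wS g)

lemma q35 : (3 / 5 : ℝ) ∈ QR := by
  have := rat_QR (3 / 5)
  push_cast at this
  exact this

lemma q45 : (4 / 5 : ℝ) ∈ QR := by
  have := rat_QR (4 / 5)
  push_cast at this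
  exact this

lemma q925 : (9 / 25 : ℝ) ∈ QR := by
  have := rat_QR (9 / 25)
  push_cast at this
  exact this

lemma q1625 : (16 / 25 : ℝ) ∈ QR := by
  have := rat_QR (16 / 25)
  push_cast at this
  exact this

lemma dot_base {k : ℕ} {a b : Co k → ℝ} (ha : IsBase a) (hb : IsBase b) : dot a b ∈ QR := by
  cases ha with
  | U l =>
    cases hb with
    | U m =>
      rw [dot_UU]
      refine add_mem (mul_mem q925 (ip_QR l m)) ?_
      split_ifs
      · exact q1625
      · exact zero_mem _
    | G m =>
      rw [dot_UG]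
      split_ifs
      · exact q45
      · exact zero_mem _
    | S g =>
      rw [dot_comm, dot_SU]
      split_ifs
      · exact mul_mem (tau_QR g) q45
      · exact zero_mem _
  | G l =>
    cases hb with
    | U m =>
      rw [dot_comm, dot_UG]
      split_ifs
      · exact q45
      · exact zero_mem _
    | G m =>
      rw [dot_GG]
      split_ifs
      · exact one_mem _
      · exact zero_mem _
    | S g =>
      rw [dot_comm, dot_SG]
      split_ifs
      · exact tau_QR g
      · exact zero_mem _
  | S g =>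
    cases hb with
    | U m =>
      rw [dot_SU]
      split_ifs
      · exact mul_mem (tau_QR g) q45
      · exact zero_mem _
    | G m =>
      rw [dot_SG]
      split_ifs
      · exact tau_QR g
      · exact zero_mem _
    | S g' =>
      by_cases h : g = g'
      · subst h
        rw [dot_SS]
        exact one_mem _
      · rw [dot_SS' h]
        split_ifs
        · exact mul_mem (tau_QR g) (tau_QR g')
        · exact zero_mem _

lemma gs_QR {k : ℕ} (g : Gad k) : (gs g : ℝ) * (4 / 5) ∈ QR := by
  refine mul_mem ?_ q45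
  have := rat_QR ((gs g : ℚ))
  exact_mod_cast this

lemma w_base {k : ℕ} (u : Vert k) {b : Co k → ℝ} (hb : IsBase b) : dot (w u) b ∈ QR := by
  cases u with
  | U l => exact dot_base (.U l) hb
  | G l => exact dot_base (.G l) hb
  | S g => exact dot_base (.S g) hb
  | K g =>
    simp only [w, dot_add_left, dot_smul_left]
    exact add_mem (mul_mem q35 (dot_base (.U _) hb)) (mul_mem q45 (dot_base (.S _) hb))
  | K' g =>
    simp only [w, dot_add_left, dot_smul_left]
    exact add_mem (mul_mem q35 (dot_base (.U _) hb)) (mul_mem (gs_QR g) (dot_base (.S _) hb))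

lemma w_w {k : ℕ} (u v : Vert k) : dot (w u) (w v) ∈ QR := by
  cases v with
  | U l => exact w_base u (.U l)
  | G l => exact w_base u (.G l)
  | S g => exact w_base u (.S g)
  | K g =>
    have e : w (Vert.K g) = (3 / 5 : ℝ) • wU (gb g) + (4 / 5 : ℝ) • wS g := rfl
    rw [e, dot_add_right, dot_smul_right, dot_smul_right]
    exact add_mem (mul_mem q35 (w_base u (.U _))) (mul_mem q45 (w_base u (.S _)))
  | K' g =>
    have e : w (Vert.K' g) = (3 / 5 : ℝ) • wU (gc g) + ((gs g : ℝ) * (4 / 5)) • wS g := rfl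
    rw [e, dot_add_right, dot_smul_right, dot_smul_right]
    exact add_mem (mul_mem q35 (w_base u (.U _))) (mul_mem (gs_QR g) (w_base u (.S _)))

/-- The completion is rational. -/
theorem rat_completion (k : ℕ) : ∃ Y : Matrix (Vert k) (Vert k) ℚ,
    IsCompletion (graph k) (x k) (Y.map fun q => (q : ℝ)) := by
  have h : ∀ u v : Vert k, ∃ q : ℚ, (q : ℝ) = X k u v := fun u v => by
    obtain ⟨q, hq⟩ := w_w u v
    exact ⟨q, by rw [← eq_ratCast (algebraMap ℚ ℝ) q, hq]; rfl⟩
  choose Y hY using h
  refine ⟨Matrix.of Y, ?_⟩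
  have e : (Matrix.of Y).map (fun q : ℚ => (q : ℝ)) = X k := by
    ext u v
    exact hY u v
  rw [e]
  exact completion k

end Pool.Agent.Lib.MP_13b08e_lc.Doubling
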